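import Pool.Agent.Lib.MP_596974_co.Walk

/-!
# Rich monotone curves on a Cartesian square
-/

namespace Pool.Agent.Lib.MP_596974_co

open Finset Classical

/-- The index of the block of `r` consecutive elements. -/
noncomputable def ix (A : Finset ℝ) (r : ℕ) (a : ℝ) : ℕ := card {x ∈ A | x < a} / r

lemma ix_mono (A : Finset ℝ) (r : ℕ) : Monotone (ix A r) := fun _ _ h =>
  Nat.div_le_div_right (card_le_card fun _ hx =>
    mem_filter.2 ⟨(mem_filter.1 hx).1, (mem_filter.1 hx).2.trans_le h⟩)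

lemma ix_le (A : Finset ℝ) (r : ℕ) (a : ℝ) : ix A r a ≤ A.card / r :=
  Nat.div_le_div_right (card_filter_le _ _)

lemma ix_fib (A : Finset ℝ) {r : ℕ} (hr : 0 < r) (i : ℕ) : card {a ∈ A | ix A r a = i} ≤ r := by
  have k : ∀ a ∈ A, ∀ b, a < b → card {x ∈ A | x < a} < card {x ∈ A | x < b} := fun a ha b h =>
    card_lt_card ⟨fun _ hx => mem_filter.2 ⟨(mem_filter.1 hx).1, (mem_filter.1 hx).2.trans h⟩,
      fun e => lt_irrefl _ (mem_filter.1 (e (mem_filter.2 ⟨ha, h⟩))).2⟩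
  refine (card_le_card_of_injOn (t := Ico (i * r) (i * r + r)) (fun a => card {x ∈ A | x < a})
    (fun a ha => ?_) fun a ha b hb e => ?_).trans (by simp)
  · have := (mem_filter.1 ha).2
    rw [ix, Nat.div_eq_iff hr] at this
    simp only [coe_Ico, Set.mem_Ico]
    omega
  · rcases lt_trichotomy a b with h | h | h
    · exact absurd e (k a (mem_filter.1 ha).1 b h).ne
    · exact h
    · exact absurd e (k b (mem_filter.1 hb).1 a h).ne'

lemma visits {f g : ℝ → ℕ} {M : ℕ} (hf : Monotone f ∨ Antitone f) (hg : Monotone g ∨ Antitone g)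
    (bf : ∀ b, f b ≤ M) (bg : ∀ b, g b ≤ M) (T : Finset ℝ) :
    card (T.image fun b => (f b, g b)) ≤ 2 * M + 1 := by
  have k : ∀ f : ℝ → ℕ, Monotone f ∨ Antitone f → (∀ b, f b ≤ M) → ∃ (f' : ℝ → ℕ) (φ : ℕ → ℕ),
      Monotone f' ∧ (∀ b, f' b ≤ M) ∧ ∀ b, f b = φ (f' b) := fun f h b => h.elim
    (fun h => ⟨f, id, h, b, fun _ => rfl⟩) fun h => ⟨fun x => M - f x, fun i => M - i,
      fun x y e => Nat.sub_le_sub_left (h e) M, fun _ => Nat.sub_le _ _,
      fun x => (Nat.sub_sub_self (b x)).symm⟩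
  obtain ⟨f', φ, a1, a2, a3⟩ := k f hf bf
  obtain ⟨g', ψ, b1, b2, b3⟩ := k g hg bg
  have e : (T.image fun b => (f b, g b)) = (T.image fun b => (f' b, g' b)).image (Prod.map φ ψ) := by
    rw [image_image]
    exact image_congr fun b _ => Prod.ext (a3 b) (b3 b)
  rw [e]
  refine card_image_le.trans ((card_le_card_of_injOn (t := range (2 * M + 1)) (fun z => z.1 + z.2)
    (fun z hz => ?_) fun z hz z' hz' e => ?_).trans (by simp))
  · obtain ⟨b, -, rfl⟩ := mem_image.1 hz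
    have := a2 b
    have := b2 b
    simp only [coe_range, Set.mem_Iio]
    omega
  · obtain ⟨b, -, rfl⟩ := mem_image.1 hz
    obtain ⟨c, -, rfl⟩ := mem_image.1 hz'
    simp only [Prod.mk.injEq] at e ⊢
    rcases le_total b c with h | h
    all_goals
      have := a1 h
      have := b1 h
      omega

theorem grid {J : Type} (L : Finset J) (A : Finset ℝ) (f g : J → ℝ → ℝ)
    (hf : ∀ j, StrictMono (f j) ∨ StrictAnti (f j)) (hg : ∀ j, StrictMono (g j) ∨ StrictAnti (g j))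
    (s μ : ℕ) {r : ℕ} (hr : 0 < r) (h : ∀ S : Finset (ℝ × ℝ), S.card = s →
      card {j ∈ L | ∀ z ∈ S, ∃ b, f j b = z.1 ∧ g j b = z.2} ≤ μ) :
    ∑ j ∈ L, card {b ∈ A | f j b ∈ A ∧ g j b ∈ A} ≤
      L.card * ((2 * (A.card / r) + 1) * s) + (A.card / r + 1) ^ 2 * ((r * r) ^ s * μ * r) := by
  let M := A.card / r
  let fib : J → ℕ × ℕ → Finset ℝ := fun j z =>
    {b ∈ {b ∈ A | f j b ∈ A ∧ g j b ∈ A} | (ix A r (f j b), ix A r (g j b)) = z}
  have inj : ∀ j, Function.Injective (f j) := fun j => (hf j).elim (·.injective) (·.injective)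
  have mono : ∀ f : ℝ → ℝ, StrictMono f ∨ StrictAnti f →
      Monotone (fun b => ix A r (f b)) ∨ Antitone fun b => ix A r (f b) := fun f h =>
    h.imp (fun h => (ix_mono A r).comp h.monotone) fun h => (ix_mono A r).comp_antitone h.antitone
  have h1 : ∀ j, card {b ∈ A | f j b ∈ A ∧ g j b ∈ A} ≤ (2 * M + 1) * s +
      ∑ z ∈ range (M + 1) ×ˢ range (M + 1), if s ≤ (fib j z).card then r else 0 := fun j => by
    rw [card_eq_sum_card_image fun b => (ix A r (f j b), ix A r (g j b))]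
    refine (sum_le_sum (g := fun z => s + if s ≤ (fib j z).card then r else 0) fun z _ => ?_).trans ?_
    · change (fib j z).card ≤ _
      split_ifs with c
      · refine le_add_left ((card_le_card_of_injOn (f j) (fun b hb => ?_) (inj j).injOn).trans
          (ix_fib A hr z.1))
        obtain ⟨a, e⟩ := mem_filter.1 hb
        exact mem_filter.2 ⟨(mem_filter.1 a).2.1, congrArg Prod.fst e⟩
      · omega
    · rw [sum_add_distrib, sum_const, smul_eq_mul]
      refine add_le_add (Nat.mul_le_mul_right _ (visits (mono _ (hf j)) (mono _ (hg j))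
        (fun _ => ix_le _ _ _) (fun _ => ix_le _ _ _) _)) (sum_le_sum_of_subset fun z hz => ?_)
      obtain ⟨b, -, rfl⟩ := mem_image.1 hz
      exact mem_product.2 ⟨mem_range.2 (Nat.lt_succ_of_le (ix_le _ _ _)),
        mem_range.2 (Nat.lt_succ_of_le (ix_le _ _ _))⟩
  refine (sum_le_sum fun j _ => h1 j).trans ?_
  rw [sum_add_distrib, sum_const, smul_eq_mul, sum_comm]
  refine add_le_add le_rfl ((sum_le_card_nsmul _ _ ((r * r) ^ s * μ * r) fun z _ => ?_).trans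
    (by simp [sq, M]))
  rw [← sum_filter, sum_const, smul_eq_mul]
  refine Nat.mul_le_mul_right _ ?_
  let K := {a ∈ A | ix A r a = z.1} ×ˢ {a ∈ A | ix A r a = z.2}
  refine (card_le_card (t := (powersetCard s K).biUnion fun S =>
    {j ∈ L | ∀ z ∈ S, ∃ b, f j b = z.1 ∧ g j b = z.2}) fun j hj => ?_).trans
    ((card_biUnion_le_card_mul _ _ μ fun S hS => h S (mem_powersetCard.1 hS).2).trans
      (Nat.mul_le_mul_right _ ?_))
  · obtain ⟨a, b⟩ := mem_filter.1 hj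
    obtain ⟨T, t1, t2⟩ := exists_subset_card_eq b
    refine mem_biUnion.2 ⟨T.image fun b => (f j b, g j b), mem_powersetCard.2 ⟨fun x hx => ?_, ?_⟩,
      mem_filter.2 ⟨a, fun x hx => ?_⟩⟩
    · obtain ⟨b, hb, rfl⟩ := mem_image.1 hx
      obtain ⟨c, e⟩ := mem_filter.1 (t1 hb)
      exact mem_product.2 ⟨mem_filter.2 ⟨(mem_filter.1 c).2.1, congrArg Prod.fst e⟩,
        mem_filter.2 ⟨(mem_filter.1 c).2.2, congrArg Prod.snd e⟩⟩
    · rw [card_image_of_injective _ fun x y e => inj j (congrArg Prod.fst e), t2]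
    · obtain ⟨b, -, rfl⟩ := mem_image.1 hx
      exact ⟨b, rfl, rfl⟩
  · rw [card_powersetCard]
    refine (Nat.choose_le_pow _ _).trans (Nat.pow_le_pow_left ?_ _)
    rw [card_product]
    exact Nat.mul_le_mul (ix_fib A hr _) (ix_fib A hr _)

/-- The branch as a function. -/
noncomputable def Lt.F (p : Lt) (s : ℝ) : ℝ :=
  p.c + p.l * (s - p.c) + p.n * √((s - p.c) ^ 2 + p.w ^ 2)

lemma Lt.G_F (p : Lt) (s : ℝ) : p.G s (p.F s) := by
  unfold Lt.G Lt.F
  linear_combination p.n ^ 2 * Real.sq_sqrt (show 0 ≤ (s - p.c) ^ 2 + p.w ^ 2 by positivity)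

lemma Lt.F_mono (p : Lt) : StrictMono p.F ∨ StrictAnti p.F := by
  have k : ∀ s t, s < t → 0 < p.l * (p.F t - p.F s) := fun s t h => by
    have h1 : |√((t - p.c) ^ 2 + p.w ^ 2) - √((s - p.c) ^ 2 + p.w ^ 2)| ≤ t - s := by
      have := abs_norm_sub_norm_le (⟨t - p.c, p.w⟩ : ℂ) ⟨s - p.c, p.w⟩
      rwa [Complex.norm_eq_sqrt_sq_add_sq, Complex.norm_eq_sqrt_sq_add_sq,
        show (⟨t - p.c, p.w⟩ : ℂ) - ⟨s - p.c, p.w⟩ = (t - s : ℝ) from
          Complex.ext (by simp) (by simp), Complex.norm_real,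
        Real.norm_of_nonneg (sub_pos.2 h).le] at this
    have e : p.F t - p.F s = p.l * (t - s) +
        p.n * (√((t - p.c) ^ 2 + p.w ^ 2) - √((s - p.c) ^ 2 + p.w ^ 2)) := by
      unfold Lt.F; ring
    rw [e]
    generalize √((t - p.c) ^ 2 + p.w ^ 2) - √((s - p.c) ^ 2 + p.w ^ 2) = d at h1
    have h2 : d ^ 2 ≤ (t - s) ^ 2 := sq_le_sq' (abs_le.1 h1).1 (abs_le.1 h1).2
    have h3 := p.h
    nlinarith [sq_nonneg (p.l * (t - s) + p.n * d), mul_pos (sub_pos.2 h) (sub_pos.2 h),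
      sub_pos.2 h, mul_le_mul_of_nonneg_left h2 (sq_nonneg p.n)]
  rcases lt_or_gt_of_ne p.hl with h | h
  · exact .inr fun s t e => by nlinarith [k s t e]
  · exact .inl fun s t e => sub_pos.1 ((mul_pos_iff_of_pos_left h).1 (k s t e))

lemma Lt.F_inj (p : Lt) : Function.Injective p.F := p.F_mono.elim (·.injective) (·.injective)

lemma same_cls {p q p' : Lt} (q' : Lt) (h : (q.c, q.w) ≠ (p.c, p.w)) (S : Finset (ℝ × ℝ))
    (hS : S.card = 17) (h1 : ∀ z ∈ S, ∃ b, p.F b = z.1 ∧ q.F b = z.2)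
    (h2 : ∀ z ∈ S, ∃ b, p'.F b = z.1 ∧ q'.F b = z.2) : (p'.c, p'.w) = (p.c, p.w) := by
  by_contra e
  obtain ⟨R, r1, r2⟩ := walk q' e h
  have := card_le_card_of_injOn (s := S) (t := R) Prod.fst (fun z hz => by
    obtain ⟨b, b1, b2⟩ := h1 z hz
    obtain ⟨c, c1, c2⟩ := h2 z hz
    exact r2 z.1 b c z.2 (b1 ▸ (p.G_F b).symm) (b2 ▸ q.G_F b) (c1 ▸ (p'.G_F c).symm)
      (c2 ▸ q'.G_F c)) fun z hz y hy e => by
    obtain ⟨b, b1, b2⟩ := h1 z hz
    obtain ⟨c, c1, c2⟩ := h1 y hy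
    exact Prod.ext e (by rw [← b2, ← c2, p.F_inj (b1.trans (e.trans c1.symm))])
  omega

lemma inc_nat {ι : Type} (L : Finset ι) (p : ι → Lt) (A : Finset ℝ)
    (h : ∀ κ, card {i ∈ L | ((p i).c, (p i).w) = κ} ≤ 4) {r : ℕ} (hr : 0 < r) :
    (∑ i ∈ L, card {a ∈ A | (p i).F a ∈ A}) ^ 2 ≤ A.card * (L.card * 4 * A.card +
      (L.card * L.card * ((2 * (A.card / r) + 1) * 17) +
        (A.card / r + 1) ^ 2 * ((r * r) ^ 17 * 16 * r))) := by
  have e1 : ∑ i ∈ L, card {a ∈ A | (p i).F a ∈ A} = ∑ a ∈ A, card {i ∈ L | (p i).F a ∈ A} := by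
    simp only [card_filter]
    exact sum_comm
  have e2 : ∑ a ∈ A, card {i ∈ L | (p i).F a ∈ A} ^ 2 =
      ∑ j ∈ L ×ˢ L, card {a ∈ A | (p j.1).F a ∈ A ∧ (p j.2).F a ∈ A} := by
    refine (sum_congr rfl (g := fun a => ∑ j ∈ L ×ˢ L,
      if (p j.1).F a ∈ A ∧ (p j.2).F a ∈ A then 1 else 0) fun a _ => ?_).trans ?_
    · rw [sq, ← card_product, ← filter_product, card_filter]
    · rw [sum_comm]
      simp only [card_filter]
  rw [e1]
  refine sq_sum_le_card_mul_sum_sq.trans (Nat.mul_le_mul_left _ ?_)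
  rw [e2, ← sum_filter_add_sum_filter_not _
    fun j : ι × ι => ((p j.2).c, (p j.2).w) = ((p j.1).c, (p j.1).w)]
  refine add_le_add ((sum_le_card_nsmul _ _ A.card fun _ _ => card_filter_le _ _).trans ?_)
    ((grid _ A (fun j : ι × ι => (p j.1).F) (fun j : ι × ι => (p j.2).F)
      (fun _ => Lt.F_mono _) (fun _ => Lt.F_mono _) 17 16 hr fun S hS => ?_).trans
      (Nat.add_le_add_right (Nat.mul_le_mul_right _
        ((card_filter_le _ _).trans (card_product L L).le)) _))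
  · rw [smul_eq_mul]
    refine Nat.mul_le_mul_right _ ?_
    rw [card_filter, sum_product]
    exact sum_le_card_nsmul _ _ 4 fun i _ => by rw [← card_filter]; exact h ((p i).c, (p i).w)
  · rcases eq_empty_or_nonempty {j ∈ {j ∈ L ×ˢ L | ¬ ((p j.2).c, (p j.2).w) = ((p j.1).c, (p j.1).w)} |
      ∀ z ∈ S, ∃ b, (p j.1).F b = z.1 ∧ (p j.2).F b = z.2} with e | ⟨j, hj⟩
    · rw [e]
      simp
    obtain ⟨j1, j2⟩ := mem_filter.1 hj
    refine (card_le_card (t := {i ∈ L | ((p i).c, (p i).w) = ((p j.1).c, (p j.1).w)} ×ˢ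
      {i ∈ L | ((p i).c, (p i).w) = ((p j.2).c, (p j.2).w)}) fun i hi => ?_).trans
      ((card_product _ _).trans_le (Nat.mul_le_mul (h _) (h _)))
    obtain ⟨i1, i2⟩ := mem_filter.1 hi
    have i3 := mem_product.1 (mem_filter.1 i1).1
    refine mem_product.2 ⟨mem_filter.2 ⟨i3.1, same_cls _ (mem_filter.1 j1).2 S hS j2 i2⟩,
      mem_filter.2 ⟨i3.2, same_cls (p i.1) (Ne.symm (mem_filter.1 j1).2) (S.image Prod.swap)
        (by rw [card_image_of_injective _ Prod.swap_injective, hS]) ?_ ?_⟩⟩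
    all_goals
      intro z hz
      obtain ⟨y, hy, rfl⟩ := mem_image.1 hz
    · exact (j2 y hy).imp fun _ => And.symm
    · exact (i2 y hy).imp fun _ => And.symm

theorem inc {ε : ℝ} (hε : 0 < ε) : ∃ n0 : ℕ, ∀ n : ℕ, n0 ≤ n → ∀ (ι : Type) (L : Finset ι)
    (p : ι → Lt) (A : Finset ℝ), A.card ≤ n → L.card ≤ 2 * n →
    (∀ κ, card {i ∈ L | ((p i).c, (p i).w) = κ} ≤ 4) →
    ((∑ i ∈ L, card {a ∈ A | (p i).F a ∈ A} : ℕ) : ℝ) ≤ ε * n ^ 2 := by
  obtain ⟨r, hr⟩ := exists_nat_gt (272 / ε ^ 2)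
  have r0 : (0 : ℝ) < r := lt_trans (by positivity) hr
  obtain ⟨n0, hn⟩ := exists_nat_gt (2 * (76 + 4 * ((r * r) ^ 17 * 16 * r)) / ε ^ 2 : ℝ)
  refine ⟨n0, fun n h ι L p A hA hL hc => ?_⟩
  have n1 : (n0 : ℝ) ≤ n := by exact_mod_cast h
  have n2 : (0 : ℝ) < n := (lt_trans (by positivity) hn).trans_le n1
  have n3 : 1 ≤ n := by exact_mod_cast n2
  have d1 : A.card / r ≤ n / r := Nat.div_le_div_right hA
  have d2 : A.card / r + 1 ≤ 2 * n := by have := Nat.div_le_self A.card r; omega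
  have h1 := (inc_nat L p A hc (by exact_mod_cast r0 : 0 < r)).trans
    (show _ ≤ n * (2 * n * 4 * n + (2 * n * (2 * n) * ((2 * (n / r) + 1) * 17) +
      (2 * n) ^ 2 * ((r * r) ^ 17 * 16 * r))) by gcongr)
  have h2 : ((n / r : ℕ) : ℝ) ≤ ε ^ 2 / 272 * n := Nat.cast_div_le.trans (by
    rw [div_le_iff₀ r0]
    rw [div_lt_iff₀ (by positivity)] at hr
    nlinarith)
  rw [div_lt_iff₀ (by positivity)] at hn
  refine (pow_le_pow_iff_left₀ (by positivity) (by positivity) two_ne_zero).1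
    (((Nat.cast_pow _ _).ge.trans (Nat.cast_le.2 h1)).trans ?_)
  generalize n / r = d at *
  push_cast
  generalize ((r : ℝ) * r) ^ 17 * 16 * r = K at *
  have h3 := mul_le_mul_of_nonneg_left h2 (show (0 : ℝ) ≤ 136 * n ^ 3 by positivity)
  have h4 := mul_le_mul_of_nonneg_left (hn.le.trans (mul_le_mul_of_nonneg_right n1 (sq_nonneg ε)))
    (show (0 : ℝ) ≤ n ^ 3 / 2 by positivity)
  nlinarith

end Pool.Agent.Lib.MP_596974_co
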