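import Mathlib

-- part Pool.Agent.Lib.MP_596974_co.Lattice
section

/-!
# A map with few bad darts contains a large piece of the triangular lattice
-/

namespace Pool.Agent.Lib.MP_596974_co

open Finset

/-- Darts with a rotation `ρ`, an edge reversal `α` and a half turn `τ`. -/
structure DartMap (D ι : Type) where
  ρ : Equiv.Perm D
  α : Equiv.Perm D
  τ : Equiv.Perm D
  Tr : D → Prop
  Good : D → Prop
  cv : D → ι
  pos : D → ℝ
  sg : D → ℝ
  αα : ∀ d, α (α d) = d
  ττ : ∀ d, τ (τ d) = d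
  tr_ρ : ∀ d, Tr (ρ d) ↔ Tr d
  ρ3 : ∀ d, Tr d → ρ (ρ (ρ d)) = τ d
  good_tr : ∀ d, Good d → Tr d
  good_face : ∀ d, Good d → ρ (α (ρ (α (ρ (α d))))) = d
  good_sg : ∀ d, Good d → sg (τ (α d)) = sg d
  good_pos : ∀ d, Good d → sg d * pos d < sg d * pos (τ (α d))
  cv_τ : ∀ d, cv (τ d) = cv d
  cv_α : ∀ d, cv (α d) = cv d
  pos_ρ : ∀ d, pos (ρ d) = pos d

namespace DartMap

variable {D ι : Type} (S : DartMap D ι)

/-- The straight step. -/
def A : Equiv.Perm D := S.τ * S.α

/-- The step turned by one. -/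
def B : Equiv.Perm D := S.ρ⁻¹ * S.A * S.ρ

/-- The step turned by two. -/
def C : Equiv.Perm D := S.ρ⁻¹ * S.ρ⁻¹ * S.A * S.ρ * S.ρ

/-- All darts near `x` are good. -/
def Nice (x : D) : Prop :=
  ∀ u ∈ [1, S.ρ, S.ρ * S.ρ, S.α, S.α * S.ρ, S.α * S.ρ * S.ρ, S.α * S.ρ⁻¹ * S.α], S.Good (u x)

variable {S}

lemma ρ_B (x : D) : S.ρ (S.B x) = S.A (S.ρ x) := by simp [B]

lemma ρ_C (x : D) : S.ρ (S.ρ (S.C x)) = S.A (S.ρ (S.ρ x)) := by simp [C]

lemma cv_A (x : D) : S.cv (S.A x) = S.cv x := by simp [A, S.cv_τ, S.cv_α]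

lemma CA {x : D} (h : S.Nice x) : S.C (S.A x) = S.B x := by
  have h1 := S.good_tr _ (h S.α (by simp))
  have h3 := S.good_tr _ (h (S.α * S.ρ) (by simp))
  have h2 := S.good_face _ (h (S.α * S.ρ⁻¹ * S.α) (by simp))
  have hi : ∀ y, S.ρ (S.ρ⁻¹ y) = y := fun y => by simp
  simp only [Equiv.Perm.mul_apply, S.αα, hi] at h2 h3
  have e1 : S.ρ (S.ρ (S.τ (S.α x))) = S.ρ⁻¹ (S.α x) := by
    apply S.ρ.injective
    rw [S.ρ3 _ (by rw [← S.ρ3 _ h1]; simpa only [S.tr_ρ] using h1), S.ττ]
    simp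
  apply S.ρ.injective
  apply S.ρ.injective
  rw [ρ_C, ρ_B]
  simp only [A, Equiv.Perm.mul_apply]
  rw [e1, ← h2, ← S.ρ3 _ h3, ← S.ρ3 _ ((S.tr_ρ _).2 h3)]

lemma AC {x : D} (h : S.Nice x) : S.A (S.C x) = S.B x := by
  have h4 := S.good_tr _ (h (S.α * S.ρ * S.ρ) (by simp))
  have h3 := S.good_tr _ (h (S.α * S.ρ) (by simp))
  have h2 := S.good_face _ (h (S.α * S.ρ) (by simp))
  simp only [Equiv.Perm.mul_apply, S.αα] at h2 h3 h4
  have e1 : S.C x = S.ρ (S.α (S.ρ (S.ρ x))) := by
    apply S.ρ.injective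
    apply S.ρ.injective
    rw [ρ_C, S.ρ3 _ h4]
    rfl
  apply S.ρ.injective
  rw [ρ_B, e1]
  simp only [A, Equiv.Perm.mul_apply]
  rw [← S.ρ3 _ h3, ← S.ρ3 _ (by rw [← S.tr_ρ, h2]; exact h3), h2]

lemma line {y : ℕ → D} {L : ℕ} (h : ∀ t < L, S.Good (y t) ∧ y (t + 1) = S.A (y t)) (hL : 0 < L) :
    S.pos (y 0) ≠ S.pos (y L) ∧ S.cv (y 0) = S.cv (y L) := by
  have key : ∀ t, t + 1 ≤ L → S.sg (y (t + 1)) = S.sg (y 0) ∧ S.cv (y 0) = S.cv (y (t + 1)) ∧
      S.sg (y 0) * S.pos (y 0) < S.sg (y 0) * S.pos (y (t + 1)) := by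
    intro t
    induction t with
    | zero =>
      intro ht
      obtain ⟨h1, h2⟩ := h 0 ht
      rw [h2]
      exact ⟨S.good_sg _ h1, (cv_A _).symm, S.good_pos _ h1⟩
    | succ t ih =>
      intro ht
      obtain ⟨h1, h2⟩ := h (t + 1) ht
      obtain ⟨i1, i2, i3⟩ := ih (by omega)
      rw [h2]
      refine ⟨(S.good_sg _ h1).trans i1, i2.trans (cv_A _).symm, i3.trans ?_⟩
      rw [← i1]
      exact S.good_pos _ h1
  obtain ⟨t, rfl⟩ : ∃ t, L = t + 1 := ⟨L - 1, by omega⟩
  obtain ⟨-, i2, i3⟩ := key t le_rfl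
  exact ⟨fun hh => by rw [hh] at i3; exact lt_irrefl _ i3, i2⟩

lemma exists_avoid [Fintype D] {κ : Type} (W : Finset κ) (w : κ → Equiv.Perm D) (bad : Finset D)
    (hc : #W * bad.card < Fintype.card D) : ∃ x, ∀ u ∈ W, w u x ∉ bad := by
  classical
  by_contra hn
  push Not at hn
  have hsub : (univ : Finset D) ⊆ W.biUnion fun u => bad.image (w u).symm := by
    intro x _
    obtain ⟨u, hu, hx⟩ := hn x
    exact mem_biUnion.2 ⟨u, hu, mem_image.2 ⟨_, hx, Equiv.symm_apply_apply _ _⟩⟩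
  have := (card_le_card hsub).trans (card_biUnion_le_card_mul _ _ _ fun w _ => card_image_le)
  rw [card_univ] at this
  exact absurd this (not_le.2 hc)

open Classical in
lemma exists_nice [Fintype D] (M : ℕ)
    (hc : 7 * (M + 1) ^ 2 * #{d | ¬ S.Good d} < Fintype.card D) :
    ∃ x, ∀ i ≤ M, ∀ j ≤ M, S.Nice ((S.A ^ i * S.C ^ j) x) := by
  obtain ⟨U, hU⟩ : ∃ U : List (Equiv.Perm D), U =
    [1, S.ρ, S.ρ * S.ρ, S.α, S.α * S.ρ, S.α * S.ρ * S.ρ, S.α * S.ρ⁻¹ * S.α] := ⟨_, rfl⟩
  obtain ⟨x, hx⟩ := exists_avoid (U.toFinset ×ˢ (range (M + 1) ×ˢ range (M + 1)))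
    (fun u => u.1 * (S.A ^ u.2.1 * S.C ^ u.2.2)) (univ.filter fun d => ¬ S.Good d) (by
      refine lt_of_le_of_lt (Nat.mul_le_mul_right _ ?_) hc
      rw [card_product, card_product, card_range, ← sq]
      exact Nat.mul_le_mul_right _ ((List.toFinset_card_le U).trans (by simp [hU])))
  refine ⟨x, fun i hi j hj u hu => ?_⟩
  rw [← hU] at hu
  have := hx (u, i, j) (by
    simp only [mem_product, List.mem_toFinset, mem_range]
    exact ⟨hu, by omega, by omega⟩)
  simpa using this

open Classical in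
/-- A large hexagonal piece of the lattice. -/
theorem lattice [Fintype D] (N : ℕ)
    (hc : 7 * (4 * N + 1) ^ 2 * #{d | ¬ S.Good d} < Fintype.card D) :
    ∃ (v : ℤ → ℤ → D) (p q r : ℤ → ι), ∀ i j l m : ℤ, i + j + l = 0 → m ≠ 0 →
      i.natAbs ≤ N → j.natAbs ≤ N → l.natAbs ≤ N → m.natAbs ≤ N →
      S.Tr (v i j) ∧ S.cv (S.ρ (S.ρ (v i j))) = p i ∧ S.cv (v i j) = q j ∧
      S.cv (S.ρ (v i j)) = r l ∧ S.pos (v i j) ≠ S.pos (v i (j + m)) ∧
      S.pos (v i j) ≠ S.pos (v (i - m) j) ∧ S.pos (v i j) ≠ S.pos (v (i + m) (j - m)) := by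
  obtain ⟨x, hx⟩ := exists_nice (4 * N) hc
  let d : ℕ → ℕ → D := fun i j => (S.A ^ i * S.C ^ j) x
  have hA : ∀ i j, d (i + 1) j = S.A (d i j) := fun i j => by simp [d, pow_succ']
  have hC : ∀ i ≤ 4 * N, ∀ j ≤ 4 * N, d i (j + 1) = S.C (d i j) := by
    intro i hi j hj
    induction i with
    | zero => simp [d, pow_succ']
    | succ i ih =>
      rw [hA, hA, ih (by omega), AC (hx i (by omega) j hj), CA (hx i (by omega) j hj)]
  have l1 : ∀ i j m, 0 < m → i + m ≤ 4 * N → j ≤ 4 * N →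
      S.pos (d i j) ≠ S.pos (d (i + m) j) ∧ S.cv (d i j) = S.cv (d (i + m) j) :=
    fun i j m hm hi hj => line (y := fun t => d (i + t) j)
      (fun t ht => ⟨hx (i + t) (by omega) j hj 1 (by simp), hA _ _⟩) hm
  have l2 : ∀ i j m, 0 < m → i ≤ 4 * N → j + m ≤ 4 * N →
      S.pos (d i j) ≠ S.pos (d i (j + m)) ∧
        S.cv (S.ρ (S.ρ (d i j))) = S.cv (S.ρ (S.ρ (d i (j + m)))) := fun i j m hm hi hj => by
    have := line (y := fun t => S.ρ (S.ρ (d i (j + t))))
      (fun t ht => ⟨hx i hi (j + t) (by omega) (S.ρ * S.ρ) (by simp), by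
        rw [← add_assoc, hC i hi _ (by omega), ρ_C]⟩) hm
    simpa only [S.pos_ρ, add_zero] using this
  have l3 : ∀ i j m, 0 < m → i + m ≤ 4 * N → j + m ≤ 4 * N →
      S.pos (d i j) ≠ S.pos (d (i + m) (j + m)) ∧
        S.cv (S.ρ (d i j)) = S.cv (S.ρ (d (i + m) (j + m))) := fun i j m hm hi hj => by
    have := line (y := fun t => S.ρ (d (i + t) (j + t)))
      (fun t ht => ⟨hx (i + t) (by omega) (j + t) (by omega) S.ρ (by simp), by
        rw [← add_assoc, ← add_assoc, hA, hC _ (by omega) _ (by omega),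
          AC (hx _ (by omega) _ (by omega)), ρ_B]⟩) hm
    simpa only [S.pos_ρ, add_zero] using this
  have m1 : ∀ i i' j, i ≠ i' → i ≤ 4 * N → i' ≤ 4 * N → j ≤ 4 * N →
      S.pos (d i j) ≠ S.pos (d i' j) ∧ S.cv (d i j) = S.cv (d i' j) := by
    intro i i' j hne hi hi' hj
    rcases lt_or_gt_of_ne hne with h | h
    · obtain ⟨m, rfl⟩ := Nat.exists_eq_add_of_le h.le
      exact l1 i j m (by omega) hi' hj
    · obtain ⟨m, rfl⟩ := Nat.exists_eq_add_of_le h.le
      exact ⟨(l1 i' j m (by omega) hi hj).1.symm, (l1 i' j m (by omega) hi hj).2.symm⟩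
  have m2 : ∀ i j j', j ≠ j' → i ≤ 4 * N → j ≤ 4 * N → j' ≤ 4 * N →
      S.pos (d i j) ≠ S.pos (d i j') ∧
        S.cv (S.ρ (S.ρ (d i j))) = S.cv (S.ρ (S.ρ (d i j'))) := by
    intro i j j' hne hi hj hj'
    rcases lt_or_gt_of_ne hne with h | h
    · obtain ⟨m, rfl⟩ := Nat.exists_eq_add_of_le h.le
      exact l2 i j m (by omega) hi hj'
    · obtain ⟨m, rfl⟩ := Nat.exists_eq_add_of_le h.le
      exact ⟨(l2 i j' m (by omega) hi hj).1.symm, (l2 i j' m (by omega) hi hj).2.symm⟩
  have m3 : ∀ i j i' j', j ≠ j' → i + j' = i' + j → i ≤ 4 * N → j ≤ 4 * N → i' ≤ 4 * N →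
      j' ≤ 4 * N → S.pos (d i j) ≠ S.pos (d i' j') ∧
        S.cv (S.ρ (d i j)) = S.cv (S.ρ (d i' j')) := by
    intro i j i' j' hne he hi hj hi' hj'
    rcases lt_or_gt_of_ne hne with h | h
    · obtain ⟨m, rfl⟩ := Nat.exists_eq_add_of_le h.le
      obtain rfl : i' = i + m := by omega
      exact l3 i j m (by omega) hi' hj'
    · obtain ⟨m, rfl⟩ := Nat.exists_eq_add_of_le h.le
      obtain rfl : i = i' + m := by omega
      exact ⟨(l3 i' j' m (by omega) hi hj).1.symm, (l3 i' j' m (by omega) hi hj).2.symm⟩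
  refine ⟨fun i j => d (i + 2 * N).toNat (2 * N - j).toNat,
    fun i => S.cv (S.ρ (S.ρ (d (i + 2 * N).toNat 0))), fun j => S.cv (d 0 (2 * N - j).toNat),
    fun l => S.cv (S.ρ (d (4 * N - l.natAbs - l.toNat) (4 * N - l.natAbs - (-l).toNat))),
    fun i j l m h0 hm hi hj hl hm' => ⟨S.good_tr _ (hx _ (by omega) _ (by omega) 1 (by simp)),
      ?_, ?_, ?_, ?_, ?_, ?_⟩⟩
  · by_cases h : (2 * N - j).toNat = 0
    · simp only [h]
    · exact (m2 _ _ _ h (by omega) (by omega) (by omega)).2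
  · by_cases h : (i + 2 * N).toNat = 0
    · simp only [h]
    · exact (m1 _ _ _ h (by omega) (by omega) (by omega)).2
  · by_cases h : (2 * N - j).toNat = 4 * N - l.natAbs - (-l).toNat
    · have h' : (i + 2 * N).toNat = 4 * N - l.natAbs - l.toNat := by omega
      simp only [h, h']
    · exact (m3 _ _ _ _ h (by omega) (by omega) (by omega) (by omega) (by omega)).2
  · exact (m2 _ _ _ (by omega) (by omega) (by omega) (by omega)).1
  · exact (m1 _ _ _ (by omega) (by omega) (by omega) (by omega)).1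
  · exact (m3 _ _ _ _ (by omega) (by omega) (by omega) (by omega) (by omega) (by omega)).1

end DartMap

end Pool.Agent.Lib.MP_596974_co
end

-- part Pool.Agent.Lib.MP_596974_co.Killing
section

/-!
# No hexagonal web of solutions of `g'' = g ^ (-3)`

Differential algebra: the projective structure `g'' = g ^ (-3)` has no cubic first integral with
nonzero leading coefficient, so three families of its geodesics never form a hexagonal web.
-/

namespace Pool.Agent.Lib.MP_596974_co

variable {k K : Type*} [Field k] [Field K] [Algebra k K] [CharZero K]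

omit [CharZero K] in
lemma der_nat (D : Derivation k K K) (n : ℕ) [n.AtLeastTwo] : D ofNat(n) = 0 := by
  have := D.map_natCast n
  rwa [← Nat.cast_ofNat (R := K) (n := n)]

lemma poly_const (Y : Derivation k K K) {g a b c d e : K} (hg : g ≠ 0) (h1 : Y g = 1)
    (ha : Y a = 0) (hb : Y b = 0) (hc : Y c = 0) (hd : Y d = 0) (he : Y e = 0)
    (h : a * g ^ 8 + b * g ^ 7 + c * g ^ 6 + d * g ^ 2 + e = 0) : e = 0 := by
  have e1 := congrArg Y h
  simp only [map_add, Derivation.leibniz, Derivation.leibniz_pow, h1, ha, hb, hc, hd, he,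
    smul_eq_mul, map_zero, nsmul_eq_mul] at e1
  have e1' : 8 * a * g ^ 6 + 7 * b * g ^ 5 + 6 * c * g ^ 4 + 2 * d = 0 := by
    apply mul_left_cancel₀ hg
    push_cast at e1
    linear_combination e1
  have e2 := congrArg Y e1'
  simp only [map_add, Derivation.leibniz, Derivation.leibniz_pow, h1, ha, hb, hc, hd,
    smul_eq_mul, map_zero, nsmul_eq_mul, der_nat] at e2
  have e2' : 48 * a * g ^ 2 + 35 * b * g + 24 * c = 0 := by
    apply mul_left_cancel₀ (pow_ne_zero 3 hg)
    push_cast at e2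
    linear_combination e2
  have e3 := congrArg Y e2'
  simp only [map_add, Derivation.leibniz, Derivation.leibniz_pow, h1, ha, hb, hc,
    smul_eq_mul, map_zero, nsmul_eq_mul, der_nat] at e3
  have e3' : 96 * a * g + 35 * b = 0 := by
    push_cast at e3
    linear_combination e3
  have e4 := congrArg Y e3'
  simp only [map_add, Derivation.leibniz, h1, ha, hb,
    smul_eq_mul, map_zero, der_nat] at e4
  have ha0 : a = 0 := by
    have : (96 : K) * a = 0 := by linear_combination e4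
    simpa using this
  have hb0 : b = 0 := by
    have : (35 : K) * b = 0 := by rw [ha0] at e3'; linear_combination e3'
    simpa using this
  have hc0 : c = 0 := by
    have : (24 : K) * c = 0 := by rw [ha0, hb0] at e2'; linear_combination e2'
    simpa using this
  have hd0 : d = 0 := by
    have : (2 : K) * d = 0 := by rw [ha0, hb0, hc0] at e1'; linear_combination e1'
    simpa using this
  rw [ha0, hb0, hc0, hd0] at h
  simpa using h

/-- The five equations for a cubic integral force the leading coefficient to vanish. -/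
lemma killing_pde (X Y : Derivation k K K) (hXY : ∀ f, X (Y f) = Y (X f)) {g h c0 c1 c2 c3 : K}
    (hgh : g * h = 1) (hXg : X g = 0) (hYg : Y g = 1)
    (e4 : Y c3 = 0) (e3 : X c3 + Y c2 = 0) (e2 : X c2 + Y c1 + 3 * c3 * h ^ 3 = 0)
    (e1 : X c1 + Y c0 + 2 * c2 * h ^ 3 = 0) (e0 : X c0 + c1 * h ^ 3 = 0) : c3 = 0 := by
  have hg : g ≠ 0 := left_ne_zero_of_mul_eq_one hgh
  have hXh : X h = 0 := by
    have := congrArg X hgh
    simp only [Derivation.leibniz, hXg, smul_eq_mul, mul_zero, add_zero,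
      Derivation.map_one_eq_zero] at this
    simpa [hg] using this
  have hYh : Y h = -h ^ 2 := by
    have := congrArg Y hgh
    simp only [Derivation.leibniz, hYg, smul_eq_mul, Derivation.map_one_eq_zero] at this
    linear_combination h * this - Y h * hgh
  have yx : ∀ f, Y f = 0 → Y (X f) = 0 := fun f hf => by rw [← hXY, hf, map_zero]
  obtain ⟨B, hB⟩ : ∃ B, c2 = B - g * X c3 := ⟨c2 + g * X c3, by ring⟩
  have hYB : Y B = 0 := by
    have := congrArg Y hB
    simp only [map_sub, Derivation.leibniz, hYg, smul_eq_mul, yx _ e4] at this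
    linear_combination e3 - this
  have hXc2 : X c2 = X B - g * X (X c3) := by
    rw [hB]; simp only [map_sub, Derivation.leibniz, hXg, smul_eq_mul]; ring
  obtain ⟨C, hC⟩ : ∃ C, 2 * c1 = C + g ^ 2 * X (X c3) - 2 * g * X B + 3 * c3 * h ^ 2 :=
    ⟨2 * c1 - (g ^ 2 * X (X c3) - 2 * g * X B + 3 * c3 * h ^ 2), by ring⟩
  have hYC : Y C = 0 := by
    have := congrArg Y hC
    simp only [map_sub, map_add, Derivation.leibniz, Derivation.leibniz_pow, hYg, hYh,
      smul_eq_mul, yx _ (yx _ e4), yx _ hYB, e4, der_nat, nsmul_eq_mul] at this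
    push_cast at this
    linear_combination 2 * e2 - 2 * hXc2 - this
  have hXX : 2 * X (X c1) = X (X C) + g ^ 2 * X (X (X (X c3))) - 2 * g * X (X (X B))
      + 3 * X (X c3) * h ^ 2 := by
    have := congrArg X (congrArg X hC)
    simp only [map_sub, map_add, Derivation.leibniz, Derivation.leibniz_pow, hXg, hXh,
      smul_eq_mul, der_nat, nsmul_eq_mul, mul_zero, add_zero, zero_add] at this
    linear_combination this
  have f1 := congrArg X e1
  have f0 := congrArg Y e0
  simp only [map_add, Derivation.leibniz, Derivation.leibniz_pow, hXh, hYh,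
      smul_eq_mul, der_nat, nsmul_eq_mul, mul_zero, add_zero, map_zero, zero_add, hXY] at f1 f0
  push_cast at f1 f0
  have key : -(X (X (X (X c3)))) * g ^ 2 + 2 * X (X (X B)) * g - X (X C)
      - 3 * C * h ^ 4 - 15 * c3 * h ^ 6 = 0 := by
    linear_combination (-2) * f1 + 2 * f0 + hXX - 2 * h ^ 3 * e2 + 6 * h ^ 3 * hXc2
      + 3 * h ^ 4 * hC + (3 * h ^ 2 * X (X c3) * (g * h - 1) - 6 * h ^ 3 * X B) * hgh
  have key2 : -(X (X (X (X c3)))) * g ^ 8 + 2 * X (X (X B)) * g ^ 7 + (- X (X C)) * g ^ 6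
      + (- 3 * C) * g ^ 2 + (- 15 * c3) = 0 := by
    have h4 : g ^ 4 * h ^ 4 = 1 := by rw [← mul_pow, hgh, one_pow]
    have h6 : g ^ 6 * h ^ 6 = 1 := by rw [← mul_pow, hgh, one_pow]
    linear_combination g ^ 6 * key + 3 * C * g ^ 2 * h4 + 15 * c3 * h6
  have := poly_const Y hg hYg (by simp [yx _ (yx _ (yx _ (yx _ e4)))])
    (by simp [Derivation.leibniz, yx _ (yx _ (yx _ hYB)), der_nat])
    (by simp [yx _ (yx _ hYC)]) (by simp [Derivation.leibniz, hYC, der_nat])
    (by simp [Derivation.leibniz, e4, der_nat]) key2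
  simpa using this

/-- Three pairwise transversal families of geodesics, constant along `η`, `ξ` and `ξ + η` for
commuting derivations `ξ`, `η`, do not exist. -/
theorem no_web (ξ η : Derivation k K K) (hc : ∀ f, ξ (η f) = η (ξ f)) {a g h s1 s2 s3 : K}
    (hgh : g * h = 1) (h12 : s1 ≠ s2) (h13 : s1 ≠ s3) (h23 : s2 ≠ s3) (hA : ξ a ≠ 0)
    (g1 : η g = s1 * η a) (t1 : η s1 = η a * h ^ 3)
    (g2 : ξ g = s2 * ξ a) (t2 : ξ s2 = ξ a * h ^ 3)
    (g3 : ξ g + η g = s3 * (ξ a + η a)) (t3 : ξ s3 + η s3 = (ξ a + η a) * h ^ 3) : False := by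
  have d21 : s2 - s1 ≠ 0 := sub_ne_zero.2 h12.symm
  have d31 : s3 - s1 ≠ 0 := sub_ne_zero.2 h13.symm
  have d23 : s2 - s3 ≠ 0 := sub_ne_zero.2 h23
  obtain ⟨κ, hκ⟩ : ∃ κ, ξ a = κ * (s3 - s1) := ⟨ξ a / (s3 - s1), by field_simp⟩
  have hκ0 : κ ≠ 0 := fun h0 => hA (by rw [hκ, h0, zero_mul])
  have hB : η a = κ * (s2 - s3) := by
    apply mul_left_cancel₀ d31
    linear_combination g1 + g2 - g3 + (s2 - s3) * hκ
  have hB0 : η a ≠ 0 := by rw [hB]; exact mul_ne_zero hκ0 d23
  obtain ⟨y1, hy1⟩ : ∃ y1, y1 * ((s2 - s1) * ξ a) = 1 :=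
    ⟨((s2 - s1) * ξ a)⁻¹, inv_mul_cancel₀ (mul_ne_zero d21 hA)⟩
  obtain ⟨y2, hy2⟩ : ∃ y2, y2 * ((s2 - s1) * η a) = 1 :=
    ⟨((s2 - s1) * η a)⁻¹, inv_mul_cancel₀ (mul_ne_zero d21 hB0)⟩
  let Y : Derivation k K K := y1 • ξ - y2 • η
  let X : Derivation k K K := (s2 * y2) • η - (s1 * y1) • ξ
  have hY : ∀ f, Y f = y1 * ξ f - y2 * η f := fun f => by simp [Y]
  have hX : ∀ f, X f = s2 * y2 * η f - s1 * y1 * ξ f := fun f => by simp [X]
  have hξ : ∀ f, ξ f = ξ a * (X f + s2 * Y f) := fun f => by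
    rw [hX, hY]; linear_combination (-ξ f) * hy1
  have hη : ∀ f, η f = η a * (X f + s1 * Y f) := fun f => by
    rw [hX, hY]; linear_combination (-η f) * hy2
  have hYa : Y a = 0 := by
    apply mul_left_cancel₀ d21; rw [hY]; linear_combination hy1 - hy2
  have hXa : X a = 1 := by
    apply mul_left_cancel₀ d21; rw [hX]; linear_combination s2 * hy2 - s1 * hy1
  have hYg : Y g = 1 := by
    apply mul_left_cancel₀ d21; rw [hY, g1, g2]; linear_combination s2 * hy1 - s1 * hy2
  have hXg : X g = 0 := by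
    apply mul_left_cancel₀ d21; rw [hX, g1, g2]
    linear_combination s1 * s2 * hy2 - s1 * s2 * hy1
  have hbr : ∀ f, X (Y f) - Y (X f) =
      (X y1 + Y (s1 * y1)) * ξ f - (X y2 + Y (s2 * y2)) * η f := fun f => by
    rw [hY f, hX f]
    simp only [map_sub, Derivation.leibniz (a := y1), Derivation.leibniz (a := y2),
      Derivation.leibniz (a := s1 * y1), Derivation.leibniz (a := s2 * y2), smul_eq_mul]
    rw [hX (ξ f), hX (η f), hY (ξ f), hY (η f), hc]
    ring
  have hXY : ∀ f, X (Y f) = Y (X f) := by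
    have b1 := hbr a
    have b2 := hbr g
    rw [hYa, hXa] at b1
    rw [hYg, hXg, g1, g2] at b2
    simp only [map_zero, Derivation.map_one_eq_zero, sub_zero] at b1 b2
    have u0 : X y1 + Y (s1 * y1) = 0 := by
      apply mul_left_cancel₀ (mul_ne_zero d21 hA)
      linear_combination s1 * b1 - b2
    have w0 : X y2 + Y (s2 * y2) = 0 := by
      apply mul_left_cancel₀ (mul_ne_zero d21 hB0)
      linear_combination s2 * b1 - b2
    intro f
    have := hbr f
    rw [u0, w0] at this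
    linear_combination this
  have x1 : X s1 = h ^ 3 - s1 * Y s1 := by
    apply mul_left_cancel₀ hB0; linear_combination t1 - hη s1
  have x2 : X s2 = h ^ 3 - s2 * Y s2 := by
    apply mul_left_cancel₀ hA; linear_combination t2 - hξ s2
  have x3 : X s3 = h ^ 3 - s3 * Y s3 := by
    apply mul_left_cancel₀ (mul_ne_zero hκ0 d21)
    have p1 := hξ s3
    have p2 := hη s3
    rw [hκ] at p1 t3
    rw [hB] at p2 t3
    linear_combination t3 - p1 - p2
  have c1 := hc a
  have c2 := hc g
  rw [g1, g2] at c2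
  rw [hξ, hη (ξ a)] at c1
  rw [hξ, hη (s2 * ξ a)] at c2
  rw [hκ, hB] at c1 c2
  simp only [map_sub, Derivation.leibniz, smul_eq_mul, x1, x2, x3] at c1 c2
  have hN : κ * (s3 - s1) * (s2 - s3) * (s2 - s1) ≠ 0 :=
    mul_ne_zero (mul_ne_zero (mul_ne_zero hκ0 d31) d23) d21
  have ky : Y κ = 0 := by
    apply mul_left_cancel₀ hN
    linear_combination c1
  have kx : X κ = κ * (Y s1 + Y s2 + Y s3) := by
    apply mul_left_cancel₀ hN
    rw [ky] at c2
    linear_combination -c2
  refine hκ0 (killing_pde X Y hXY hgh hXg hYg (c2 := -(κ * (s1 + s2 + s3)))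
    (c1 := κ * (s1 * s2 + s1 * s3 + s2 * s3)) (c0 := -(κ * (s1 * s2 * s3))) ky ?_ ?_ ?_ ?_) <;>
  simp only [map_add, map_neg, Derivation.leibniz, smul_eq_mul, x1, x2, x3, kx, ky] <;> ring

end Pool.Agent.Lib.MP_596974_co
end

-- part Pool.Agent.Lib.MP_596974_co.Deriv
section

/-!
# Derivations and generic points
-/

namespace Pool.Agent.Lib.MP_596974_co

section der

variable {k K : Type} [Field k] [Field K] [Algebra k K] [CharZero k]

/-- Derivations dual to a finite algebraically independent family. -/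
theorem exists_dual {ι : Type} [DecidableEq ι] {w : ι → K} (hw : AlgebraicIndependent k w) :
    ∃ (D : ι → Derivation k K K) (B : Set K), (∀ i j, D j (w i) = if i = j then 1 else 0) ∧
      (∀ j, ∀ b ∈ B, D j b = 0) ∧
      ∀ δ : Derivation k K K, (∀ i, δ (w i) = 0) → (∀ b ∈ B, δ b = 0) → ∀ x, δ x = 0 := by
  classical
  obtain ⟨s, hws, hs⟩ := exists_isTranscendenceBasis_superset (R := k) (s := Set.range w)
    hw.coe_range
  have : CharZero K := charZero_of_injective_algebraMap (algebraMap k K).injective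
  let A := MvPolynomial s k
  let : Algebra A K := (MvPolynomial.aeval ((↑) : s → K)).toRingHom.toAlgebra
  have hA : ∀ p : A, algebraMap A K p = MvPolynomial.aeval ((↑) : s → K) p := fun _ => rfl
  have : IsScalarTower k A K := IsScalarTower.of_algebraMap_eq fun c => by
    rw [hA]; exact ((MvPolynomial.aeval ((↑) : s → K)).commutes c).symm
  have hinj : Function.Injective (algebraMap A K) := hs.1
  have : FaithfulSMul A K := (faithfulSMul_iff_algebraMap_injective A K).2 hinj
  let : Algebra (FractionRing A) K := FractionRing.liftAlgebra A K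
  have : IsScalarTower A (FractionRing A) K := FractionRing.isScalarTower_liftAlgebra A K
  have : Algebra.IsAlgebraic A K := by
    have := hs.isAlgebraic
    refine Algebra.IsAlgebraic.of_ringHom_of_comp_eq (R := A) (A := K)
      (S := Algebra.adjoin k (Set.range ((↑) : s → K))) (B := K) hs.1.aevalEquiv (RingHom.id K)
      hs.1.aevalEquiv.surjective Function.injective_id ?_
    ext p <;> simp [hA]
  have : Algebra.IsAlgebraic (FractionRing A) K :=
    Algebra.IsAlgebraic.extendScalars (IsFractionRing.injective A (FractionRing A))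
  have : Algebra.FormallyEtale (FractionRing A) K := Algebra.FormallyEtale.of_isSeparable _ _
  have : Algebra.FormallyEtale A (FractionRing A) :=
    Algebra.FormallyEtale.of_isLocalization (nonZeroDivisors A)
  have : Algebra.FormallyEtale A K := Algebra.FormallyEtale.comp A (FractionRing A) K
  let b : Module.Basis s K Ω[K⁄k] := ((KaehlerDifferential.mvPolynomialBasis k s).baseChange K).map
    (KaehlerDifferential.tensorKaehlerEquivOfFormallyEtale k A K)
  have hb : ∀ i : s, b i = KaehlerDifferential.D k K (i : K) := by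
    intro i
    rw [Module.Basis.map_apply, Module.Basis.baseChange_apply,
      KaehlerDifferential.mvPolynomialBasis_apply, ← LinearEquiv.eq_symm_apply,
      ← KaehlerDifferential.tensorKaehlerEquivOfFormallyEtale_symm_D_algebraMap, hA,
      MvPolynomial.aeval_X]
  refine ⟨fun j => (b.coord ⟨w j, hws ⟨j, rfl⟩⟩).compDer (KaehlerDifferential.D k K),
    s \ Set.range w, fun i j => ?_, fun j x hx => ?_, fun δ h1 h2 x => ?_⟩
  · change b.coord _ (KaehlerDifferential.D k K (w i)) = _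
    rw [← hb ⟨w i, hws ⟨i, rfl⟩⟩, Module.Basis.coord_apply, Module.Basis.repr_self,
      Finsupp.single_apply]
    simp [hw.injective.eq_iff]
  · change b.coord _ (KaehlerDifferential.D k K x) = _
    rw [← hb ⟨x, hx.1⟩, Module.Basis.coord_apply, Module.Basis.repr_self,
      Finsupp.single_apply, if_neg]
    intro h
    exact hx.2 ⟨j, (congrArg Subtype.val h).symm⟩
  · have : δ.liftKaehlerDifferential = 0 := b.ext fun i => by
      rw [hb, δ.liftKaehlerDifferential_comp_D, LinearMap.zero_apply]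
      by_cases hi : (i : K) ∈ Set.range w
      · obtain ⟨j, hj⟩ := hi
        rw [← hj, h1]
      · exact h2 _ ⟨i.2, hi⟩
    rw [← δ.liftKaehlerDifferential_comp_D x, this, LinearMap.zero_apply]

/-- The constants of a derivation. -/
def consts (D : Derivation k K K) : IntermediateField k K where
  carrier := {x | D x = 0}
  mul_mem' := fun {a b} ha hb => by
    simp only [Set.mem_ofPred_eq] at *; simp [Derivation.leibniz, ha, hb]
  add_mem' := fun {a b} ha hb => by simp only [Set.mem_ofPred_eq] at *; simp [ha, hb]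
  algebraMap_mem' := fun r => D.map_algebraMap r
  inv_mem' := fun a ha => by
    simp only [Set.mem_ofPred_eq] at *; simp [Derivation.leibniz_inv, ha]

/-- A derivation killing a set kills whatever is algebraic over it. -/
theorem kill_algebraic (D : Derivation k K K) {T : Set K} (hT : ∀ t ∈ T, D t = 0) {x : K}
    (hx : IsAlgebraic (Algebra.adjoin k T) x) : D x = 0 := by
  have hle : Algebra.adjoin k T ≤ (consts D).toSubalgebra := Algebra.adjoin_le hT
  have h1 : IsAlgebraic (consts D) x := hx.tower_top_of_subalgebra_le hle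
  have : CharZero (consts D) := charZero_of_injective_algebraMap (algebraMap k _).injective
  let D' : Derivation (consts D) K K :=
    Derivation.mk' { toFun := D, map_add' := map_add D, map_smul' := fun c y => by
                      have hc : D (c : K) = 0 := c.2
                      change D ((c : K) * y) = (c : K) * D y
                      simp [Derivation.leibniz, hc] } fun a b => D.leibniz a b
  have h2 := D'.comp_aeval_eq x (minpoly (consts D) x)
  rw [minpoly.aeval, map_zero] at h2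
  have h3 := (minpoly.irreducible h1.isIntegral).separable.aeval_derivative_ne_zero
    (minpoly.aeval (consts D) x)
  exact (mul_eq_zero.1 h2.symm).resolve_left h3

/-- A largest independent subfamily controls all derivations. -/
theorem kill_of_max {W : Type} (y : W → K) {n : ℕ} (f : Fin n → W)
    (hf : AlgebraicIndependent k (y ∘ f))
    (hmax : ∀ f' : Fin (n + 1) → W, ¬ AlgebraicIndependent k (y ∘ f'))
    (D : Derivation k K K) (hD : ∀ i, D (y (f i)) = 0) (s : W) : D (y s) = 0 := by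
  refine kill_algebraic D (T := Set.range (y ∘ f)) (by rintro _ ⟨i, rfl⟩; exact hD i) ?_
  by_contra h
  have h1 := (hf.option_iff_transcendental (y s)).2 h
  refine hmax (fun i => (finSuccEquiv n i).elim s f) ?_
  convert h1.comp _ (finSuccEquiv n).injective using 1
  ext i
  simp only [Function.comp]
  cases finSuccEquiv n i <;> rfl

end der

/-- The size of a largest independent subfamily. -/
theorem exists_rank {k A W : Type} [Field k] [CommRing A] [Nontrivial A] [Algebra k A] [Finite W]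
    (y : W → A) : ∃ n : ℕ, (∃ f : Fin n → W, AlgebraicIndependent k (y ∘ f)) ∧
      ∀ (m : ℕ) (f : Fin m → W), AlgebraicIndependent k (y ∘ f) → m ≤ n := by
  classical
  have := Fintype.ofFinite W
  let p : ℕ → Prop := fun n => ∃ f : Fin n → W, AlgebraicIndependent k (y ∘ f)
  have h0 : p 0 := ⟨Fin.elim0, algebraicIndependent_empty_type_iff.2 (algebraMap k A).injective⟩
  refine ⟨Nat.findGreatest p (Fintype.card W), Nat.findGreatest_spec (P := p) (Nat.zero_le _) h0,
    fun m f hf => Nat.le_findGreatest ?_ ⟨f, hf⟩⟩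
  simpa using Fintype.card_le_of_injective f (Function.Injective.of_comp hf.injective)

lemma aeval_pi {k T ι : Type} [Field k] (y : ι → T → k) (p : MvPolynomial ι k) (t : T) :
    (MvPolynomial.aeval y p : T → k) t = MvPolynomial.eval (fun i => y i t) p := by
  induction p using MvPolynomial.induction_on with
  | C a => simp
  | add p q hp hq => simp [hp, hq]
  | mul_X p i hp => simp [hp]

/-- Products of dense families are dense. -/
theorem indep_prod {k T U ι κ : Type} [Field k] {y : ι → T → k} {z : κ → U → k}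
    (hy : AlgebraicIndependent k y) (hz : AlgebraicIndependent k z) :
    AlgebraicIndependent k
      (Sum.elim (fun i (t : T × U) => y i t.1) (fun j (t : T × U) => z j t.2)) := by
  rw [algebraicIndependent_iff] at *
  intro p hp
  have key : ∀ (p : MvPolynomial (ι ⊕ κ) k) (t : T) (u : U),
      MvPolynomial.eval (fun i => Sum.elim (fun i (t : T × U) => y i t.1)
        (fun j (t : T × U) => z j t.2) i (t, u)) p =
      MvPolynomial.eval (fun i => y i t) (MvPolynomial.map (MvPolynomial.eval fun j => z j u)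
        (MvPolynomial.sumAlgEquiv k ι κ p)) := by
    intro p t u
    induction p using MvPolynomial.induction_on with
    | C a => simp
    | add p q hp hq => simp only [map_add, hp, hq]
    | mul_X p i hp => simp only [map_mul, hp]; cases i <;> simp
  apply (MvPolynomial.sumAlgEquiv k ι κ).injective
  rw [map_zero]
  ext1 m
  refine hz _ (funext fun u => ?_)
  have h1 : MvPolynomial.map (MvPolynomial.eval fun j => z j u)
      (MvPolynomial.sumAlgEquiv k ι κ p) = 0 := by
    refine hy _ (funext fun t => ?_)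
    rw [aeval_pi, ← key, ← aeval_pi, hp]
    rfl
  have h2 := congrArg (MvPolynomial.coeff m) h1
  rw [MvPolynomial.coeff_map] at h2
  rw [aeval_pi]
  simpa using h2

/-- A generic point of a dense family. -/
theorem exists_generic {k T ι : Type} [Field k] {y : ι → T → k} (hy : AlgebraicIndependent k y) :
    ∃ (K : Type) (_ : Field K) (_ : Algebra k K) (φ : (T → k) →ₐ[k] K),
      AlgebraicIndependent k (φ ∘ y) := by
  obtain ⟨p, hp, -, hd⟩ := Ideal.exists_le_prime_disjoint (⊥ : Ideal (T → k))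
    ((nonZeroDivisors (MvPolynomial ι k)).map (MvPolynomial.aeval y : _ →ₐ[k] (T → k))) (by
      rw [Set.disjoint_left]
      rintro _ h0 ⟨q, hq, rfl⟩
      exact nonZeroDivisors.ne_zero hq (hy.eq_zero_of_aeval_eq_zero q h0))
  refine ⟨FractionRing ((T → k) ⧸ p), inferInstance, inferInstance,
    (IsScalarTower.toAlgHom k ((T → k) ⧸ p) _).comp (Ideal.Quotient.mkₐ k p), ?_⟩
  rw [algebraicIndependent_iff]
  intro q hq
  by_contra h0
  rw [Function.comp_def, ← MvPolynomial.comp_aeval_apply] at hq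
  have h1 : Ideal.Quotient.mk p (MvPolynomial.aeval y q) = 0 :=
    IsFractionRing.injective ((T → k) ⧸ p) (FractionRing ((T → k) ⧸ p)) (by rw [map_zero]; exact hq)
  exact Set.disjoint_left.1 hd (Ideal.Quotient.eq_zero_iff_mem.1 h1)
    ⟨q, mem_nonZeroDivisors_of_ne_zero h0, rfl⟩

end Pool.Agent.Lib.MP_596974_co
end

-- part Pool.Agent.Lib.MP_596974_co.Grid
section

/-!
# Triangular grids of parabolas of discriminant `-4`
-/

namespace Pool.Agent.Lib.MP_596974_co

section defs

variable {K : Type} [Field K]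

/-- The value of the parabola with coefficient vector `x`. -/
def ev (x : Fin 3 → K) (a : K) : K := x 0 * a ^ 2 + 2 * x 1 * a + x 2

/-- Half the slope. -/
def sl (x : Fin 3 → K) (a : K) : K := x 0 * a + x 1

/-- The determinant. -/
def dt (x : Fin 3 → K) : K := x 0 * x 2 - x 1 ^ 2

/-- Three parabolas cross at the point `(a, g ^ 2)`, whose abscissa differs from `b1, b2, b3`. -/
structure VOK (x y z : Fin 3 → K) (a g b1 b2 b3 : K) : Prop where
  dx : dt x = 1
  dy : dt y = 1
  dz : dt z = 1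
  g0 : g ≠ 0
  ex : g ^ 2 = ev x a
  ey : g ^ 2 = ev y a
  ez : g ^ 2 = ev z a
  xy : sl x a ≠ sl y a
  yz : sl y a ≠ sl z a
  zx : sl z a ≠ sl x a
  n1 : a ≠ b1
  n2 : a ≠ b2
  n3 : a ≠ b3

/-- Data of a grid indexed by a group. -/
structure GData (G K : Type) where
  P : G → Fin 3 → K
  Q : G → Fin 3 → K
  R : G → Fin 3 → K
  a : G → G → G → K
  g : G → G → G → K

variable {G : Type} [AddCommGroup G]

/-- The conditions at one vertex. -/
def GData.Ok (Γ : GData G K) (e : G) (i j l : G) (m : ℤ) : Prop :=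
  VOK (Γ.P i) (Γ.Q j) (Γ.R l) (Γ.a i j l) (Γ.g i j l) (Γ.a i (j + m • e) (l - m • e))
    (Γ.a (i - m • e) j (l + m • e)) (Γ.a (i + m • e) (j - m • e) l)

/-- A full grid. -/
def GData.Full (Γ : GData G K) (e : G) : Prop :=
  ∀ i j l m, i + j + l = 0 → m ≠ 0 → Γ.Ok e i j l m

/-- Cyclic relabelling. -/
def GData.cyc (Γ : GData G K) : GData G K where
  P := Γ.Q
  Q := Γ.R
  R := Γ.P
  a := fun x y z => Γ.a z x y
  g := fun x y z => Γ.g z x y

lemma GData.Full.cyc {Γ : GData G K} {e : G} (h : Γ.Full e) : Γ.cyc.Full e := by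
  intro i j l m h0 hm
  have := h l i j m (by rw [← h0]; abel) hm
  exact ⟨this.dy, this.dz, this.dx, this.g0, this.ey, this.ez, this.ex, this.yz, this.zx, this.xy,
    this.n2, this.n3, this.n1⟩

lemma quad_zero {w : Fin 3 → K} [CharZero K] {a b c : K} (hab : a ≠ b) (hac : a ≠ c) (hbc : b ≠ c)
    (ha : ev w a = 0) (hb : ev w b = 0) (hc : ev w c = 0) (i : Fin 3) : w i = 0 := by
  unfold ev at *
  have h1 : w 0 * (a + b) + 2 * w 1 = 0 := by
    apply mul_left_cancel₀ (sub_ne_zero.2 hab); linear_combination ha - hb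
  have h2 : w 0 * (a + c) + 2 * w 1 = 0 := by
    apply mul_left_cancel₀ (sub_ne_zero.2 hac); linear_combination ha - hc
  have h0 : w 0 = 0 := by
    apply mul_left_cancel₀ (sub_ne_zero.2 hbc); linear_combination h1 - h2
  have h3 : w 1 = 0 := by
    apply mul_left_cancel₀ (two_ne_zero (α := K)); rw [h0] at h1; linear_combination h1
  have h4 : w 2 = 0 := by rw [h0, h3] at ha; linear_combination ha
  fin_cases i <;> assumption

end defs

section transfer

variable {T k K : Type} [Field k] [Field K]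

lemma VOK.transfer (φ : (T → k) →+* K) (F : Filter T)
    (hz : ∀ f f', (∀ᶠ t in F, f t = f' t) → φ f = φ f')
    (hn : ∀ f, (∀ᶠ t in F, f t ≠ 0) → φ f ≠ 0)
    {x y z : T → Fin 3 → k} {a g b1 b2 b3 : T → k}
    (h : ∀ᶠ t in F, VOK (x t) (y t) (z t) (a t) (g t) (b1 t) (b2 t) (b3 t)) :
    VOK (fun c => φ fun t => x t c) (fun c => φ fun t => y t c) (fun c => φ fun t => z t c)
      (φ a) (φ g) (φ b1) (φ b2) (φ b3) := by
  have hne : ∀ f f', (∀ᶠ t in F, f t ≠ f' t) → φ f ≠ φ f' := fun f f' hf => by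
    rw [← sub_ne_zero, ← map_sub]
    exact hn _ (hf.mono fun t ht => sub_ne_zero.2 ht)
  have hd : ∀ x : T → Fin 3 → k, dt (fun c => φ fun t => x t c) = φ fun t => dt (x t) :=
    fun x => by simp only [dt, ← map_mul, ← map_pow, ← map_sub]; rfl
  have he : ∀ x : T → Fin 3 → k, ev (fun c => φ fun t => x t c) (φ a) =
      φ fun t => ev (x t) (a t) := fun x => by
    simp only [ev, ← map_ofNat φ 2, ← map_mul, ← map_pow, ← map_add]; rfl
  have hs : ∀ x : T → Fin 3 → k, sl (fun c => φ fun t => x t c) (φ a) =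
      φ fun t => sl (x t) (a t) := fun x => by
    simp only [sl, ← map_mul, ← map_add]; rfl
  refine ⟨?_, ?_, ?_, hn _ (h.mono fun t ht => ht.g0), ?_, ?_, ?_, ?_, ?_, ?_,
    hne _ _ (h.mono fun t ht => ht.n1), hne _ _ (h.mono fun t ht => ht.n2),
    hne _ _ (h.mono fun t ht => ht.n3)⟩
  · rw [hd, ← map_one φ]; exact hz _ _ (h.mono fun t ht => ht.dx)
  · rw [hd, ← map_one φ]; exact hz _ _ (h.mono fun t ht => ht.dy)
  · rw [hd, ← map_one φ]; exact hz _ _ (h.mono fun t ht => ht.dz)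
  · rw [he, ← map_pow]; exact hz _ _ (h.mono fun t ht => ht.ex)
  · rw [he, ← map_pow]; exact hz _ _ (h.mono fun t ht => ht.ey)
  · rw [he, ← map_pow]; exact hz _ _ (h.mono fun t ht => ht.ez)
  · rw [hs, hs]; exact hne _ _ (h.mono fun t ht => ht.xy)
  · rw [hs, hs]; exact hne _ _ (h.mono fun t ht => ht.yz)
  · rw [hs, hs]; exact hne _ _ (h.mono fun t ht => ht.zx)

end transfer

section closure

variable {k K : Type} [Field k] [Field K] [Algebra k K] [CharZero K]

/-- The derivation kills the parabola. -/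
def Kills (D : Derivation k K K) (x : Fin 3 → K) : Prop := ∀ c, D (x c) = 0

omit [CharZero K] in
lemma der_ev (D : Derivation k K K) {x : Fin 3 → K} {a g : K} (h : g ^ 2 = ev x a) :
    2 * g * D g = ev (fun c => D (x c)) a + 2 * sl x a * D a := by
  have := congrArg D h
  simp only [ev, map_add, Derivation.leibniz, Derivation.leibniz_pow, smul_eq_mul, der_nat,
    nsmul_eq_mul] at this
  simp only [ev, sl]
  push_cast at this
  linear_combination this

omit [CharZero K] in
lemma Kills.ev_zero {D : Derivation k K K} {x : Fin 3 → K} (h : Kills D x) (a : K) :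
    ev (fun c => D (x c)) a = 0 := by simp [ev, h 0, h 1, h 2]

lemma vertex_fixed {D : Derivation k K K} {x y z : Fin 3 → K} {a g b1 b2 b3 : K}
    (h : VOK x y z a g b1 b2 b3) (hx : Kills D x) (hy : Kills D y) :
    ev (fun c => D (z c)) a = 0 := by
  have e1 := der_ev D h.ex
  have e2 := der_ev D h.ey
  have e3 := der_ev D h.ez
  rw [hx.ev_zero] at e1
  rw [hy.ev_zero] at e2
  have ha : D a = 0 := by
    apply mul_left_cancel₀ (mul_ne_zero (two_ne_zero (α := K)) (sub_ne_zero.2 h.xy))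
    linear_combination e2 - e1
  rw [ha] at e1 e3
  linear_combination e1 - e3

lemma geodesic {D : Derivation k K K} {x : Fin 3 → K} {a g : K} (hd : dt x = 1) (hg : g ≠ 0)
    (h : g ^ 2 = ev x a) (hx : Kills D x) :
    D g = sl x a * g⁻¹ * D a ∧ D (sl x a * g⁻¹) = D a * g⁻¹ ^ 3 := by
  have e1 := der_ev D h
  rw [hx.ev_zero] at e1
  have h1 : D g = sl x a * g⁻¹ * D a := by
    apply mul_left_cancel₀ (mul_ne_zero (two_ne_zero (α := K)) hg)
    field_simp
    linear_combination e1 / 2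
  refine ⟨h1, ?_⟩
  simp only [Derivation.leibniz, Derivation.leibniz_inv, h1, smul_eq_mul, sl, map_add, hx 0, hx 1]
  unfold dt at hd
  unfold ev at h
  field_simp
  linear_combination D a * (x 0 * h + hd)

variable {G : Type} [AddCommGroup G] {Γ : GData G K} {e : G}

/-- The derivation kills the whole row through `x`. -/
def KA (D : Derivation k K K) (X : G → Fin 3 → K) (e x : G) : Prop :=
  ∀ m : ℤ, Kills D (X (x + m • e))

lemma GData.Full.third (h : Γ.Full e) {D : Derivation k K K} {i j l : G} (h0 : i + j + l = 0)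
    (hP : ∀ u : Fin 3, Kills D (Γ.P (i + ((u : ℕ) : ℤ) • e)))
    (hQ : ∀ u : Fin 3, Kills D (Γ.Q (j - ((u : ℕ) : ℤ) • e))) : Kills D (Γ.R l) := by
  have v : ∀ (u : Fin 3) (m : ℤ), m ≠ 0 →
      Γ.Ok e (i + ((u : ℕ) : ℤ) • e) (j - ((u : ℕ) : ℤ) • e) l m :=
    fun u m hm => h _ _ _ _ (by rw [← h0]; abel) hm
  have z := fun u => vertex_fixed (v u 1 one_ne_zero) (hP u) (hQ u)
  refine quad_zero ?_ ?_ ?_ (z 0) (z 1) (z 2)
  · have := (v 0 1 one_ne_zero).n3
    simpa using this
  · have := (v 0 2 two_ne_zero).n3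
    simpa using this
  · have := (v 1 1 one_ne_zero).n3
    convert this using 2
    · simp [two_smul, add_assoc]
    · simp [two_smul, sub_sub]

lemma GData.Full.row (h : Γ.Full e) {D : Derivation k K K} {x y z : G} (h0 : x + y + z = 0)
    (hP : KA D Γ.P e x) (hQ : KA D Γ.Q e y) : KA D Γ.R e z := by
  intro m
  refine h.third (i := x + (-m) • e) (j := y) (by rw [← h0, neg_smul]; abel) (fun u => ?_)
    fun u => ?_
  · have := hP (-m + (u : ℕ))
    rwa [add_smul, ← add_assoc] at this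
  · have := hQ (-(u : ℕ))
    rwa [neg_smul, ← sub_eq_add_neg] at this

lemma GData.Full.window (h : Γ.Full e) {D : Derivation k K K} {x : G} (hQ : KA D Γ.Q e 0)
    (hP : ∀ u : Fin 3, Kills D (Γ.P (x + ((u : ℕ) : ℤ) • e))) : KA D Γ.P e x := by
  refine h.cyc.row (x := 0) (y := -x) (by abel) hQ fun m => ?_
  refine h.third (i := x) (j := (-m) • e) (by rw [neg_smul]; abel) hP fun u => ?_
  have := hQ (-m - (u : ℕ))
  rwa [zero_add, sub_smul] at this

/-- Commuting derivations adapted to the three families kill everything. -/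
lemma GData.Full.flat (h : Γ.Full e) {ξ η : Derivation k K K} (hc : ∀ f, ξ (η f) = η (ξ f))
    {x y z : G} (h0 : x + y + z = 0) (hP : KA η Γ.P e x) (hQ : KA ξ Γ.Q e y)
    (hR : KA (ξ + η) Γ.R e z) : KA ξ Γ.P e x := by
  intro m
  have v : ∀ (u n : ℤ), n ≠ 0 → Γ.Ok e (x + m • e) (y + u • e) (z + (-m - u) • e) n :=
    fun u n hn => h _ _ _ _ (by rw [← h0, sub_smul, neg_smul]; abel) hn
  have z0 : ∀ u : ℤ, ev (fun c => ξ (Γ.P (x + m • e) c))
      (Γ.a (x + m • e) (y + u • e) (z + (-m - u) • e)) = 0 := by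
    intro u
    have w := v u 1 one_ne_zero
    have g1 := geodesic w.dx w.g0 w.ex (hP m)
    have g2 := geodesic w.dy w.g0 w.ey (hQ u)
    have g3 := geodesic w.dz w.g0 w.ez (hR (-m - u))
    have hi := inv_ne_zero w.g0
    have hA : ξ (Γ.a (x + m • e) (y + u • e) (z + (-m - u) • e)) = 0 := by
      by_contra hA
      exact no_web ξ η hc (mul_inv_cancel₀ w.g0) (fun hh => w.xy (mul_right_cancel₀ hi hh))
        (fun hh => w.zx (mul_right_cancel₀ hi hh).symm) (fun hh => w.yz (mul_right_cancel₀ hi hh))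
        hA g1.1 g1.2 g2.1 g2.2 g3.1 g3.2
    have e1 := der_ev ξ w.ex
    rw [g2.1, hA] at e1
    linear_combination -e1
  refine quad_zero ?_ ?_ ?_ (z0 0) (z0 1) (z0 2)
  · convert (v 0 1 one_ne_zero).n1 using 2 <;> module
  · convert (v 0 2 two_ne_zero).n1 using 2 <;> module
  · convert (v 1 1 one_ne_zero).n1 using 2 <;> module

end closure

end Pool.Agent.Lib.MP_596974_co
end

-- part Pool.Agent.Lib.MP_596974_co.NoGrid
section

/-!
# There is no infinite triangular grid, hence no large finite one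
-/

namespace Pool.Agent.Lib.MP_596974_co

variable {k : Type} [Field k] [CharZero k]

/-- The coordinates of three consecutive parabolas of a family. -/
def win (X : ℤ → Fin 3 → k) (w : Fin 3 × Fin 3) (z : ℤ) : k := X (z + ((w.1 : ℕ) : ℤ) • 1) w.2

lemma exists_transc {Γ : GData ℤ k} (h : Γ.Full 1) :
    ∃ f : Fin 1 → Fin 3 × Fin 3, AlgebraicIndependent k (win Γ.P ∘ f) := by
  by_contra hc
  have hfin : ∀ c : Fin 3, (Set.range fun z => Γ.P z c).Finite := by
    intro c
    by_contra hinf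
    refine hc ⟨fun _ => (0, c), algebraicIndependent_unique_type_iff.2 ?_⟩
    rintro ⟨p, hp, h0⟩
    refine hinf ((p.rootSet_finite k).subset ?_)
    rintro _ ⟨z, rfl⟩
    have := congrArg (Pi.evalAlgHom k (fun _ : ℤ => k) z) h0
    rw [← Polynomial.aeval_algHom_apply, map_zero] at this
    rw [Polynomial.mem_rootSet]
    exact ⟨hp, by simpa [win] using this⟩
  have hf : (Set.range Γ.P).Finite :=
    (Set.Finite.pi' hfin).subset (by rintro _ ⟨z, rfl⟩ c; exact ⟨z, rfl⟩)
  have := hf.to_subtype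
  obtain ⟨x, hx⟩ := Finite.exists_infinite_fiber (Set.rangeFactorization Γ.P)
  let i := Infinite.natEmbedding (Set.rangeFactorization Γ.P ⁻¹' {x})
  have hi : ∀ n, Γ.P (i n) = x := fun n => congrArg Subtype.val (i n).2
  have v : ∀ (n : ℕ) (m : ℤ), m ≠ 0 → Γ.Ok 1 (i n) 0 (-(i n)) m :=
    fun n m hm => h _ _ _ _ (by abel) hm
  have z0 : ∀ n, ev (fun c => x.1 c - Γ.Q 0 c) (Γ.a (i n) 0 (-(i n))) = 0 := fun n => by
    have w := v n 1 one_ne_zero
    have e1 := w.ex
    have e2 := w.ey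
    rw [hi] at e1
    unfold ev at *
    linear_combination e2 - e1
  have ne : ∀ n n', n ≠ n' → Γ.a (i n) 0 (-(i n)) ≠ Γ.a (i n') 0 (-(i n')) := fun n n' hn => by
    have := (v n ((i n : ℤ) - i n')
      (sub_ne_zero.2 fun hh => hn (i.injective (Subtype.ext hh)))).n2
    convert this using 2 <;> simp only [smul_eq_mul] <;> ring
  have q := quad_zero (ne 0 1 (by simp)) (ne 0 2 (by simp)) (ne 1 2 (by simp)) (z0 0) (z0 1) (z0 2)
  have := (v 0 1 one_ne_zero).xy
  rw [hi] at this
  apply this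
  simp only [sl, sub_eq_zero.1 (q 0), sub_eq_zero.1 (q 1)]

/-- The grid seen at generic indices. -/
def GData.lift {T K : Type} [Field K] [Algebra k K] (Γ : GData ℤ k) (φ : (T → k) →ₐ[k] K) :
    GData (T → ℤ) K where
  P := fun x c => φ fun t => Γ.P (x t) c
  Q := fun x c => φ fun t => Γ.Q (x t) c
  R := fun x c => φ fun t => Γ.R (x t) c
  a := fun x y z => φ fun t => Γ.a (x t) (y t) (z t)
  g := fun x y z => φ fun t => Γ.g (x t) (y t) (z t)

omit [CharZero k] in
lemma GData.Full.lift {T K : Type} [Field K] [Algebra k K] {Γ : GData ℤ k} (h : Γ.Full 1)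
    (φ : (T → k) →ₐ[k] K) : (Γ.lift φ).Full 1 := by
  intro i j l m h0 hm
  refine VOK.transfer φ.toRingHom ⊤ (fun f f' hf => ?_) (fun f hf => ?_)
    (Filter.eventually_top.2 fun t => h (i t) (j t) (l t) m (congrFun h0 t) hm)
  · rw [show f = f' from funext (Filter.eventually_top.1 hf)]
  · exact ((Pi.isUnit_iff.2 fun t => (Filter.eventually_top.1 hf t).isUnit).map
      φ.toRingHom).ne_zero

/-- Precomposition with an index map. -/
def precomp {T : Type} (x : T → ℤ) : (ℤ → k) →ₐ[k] (T → k) :=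
  AlgHom.pi fun t => Pi.evalAlgHom k (fun _ : ℤ => k) (x t)

lemma lift_kill {T K : Type} [Field K] [Algebra k K] {Γ : GData ℤ k} (h : Γ.Full 1)
    (φ : (T → k) →ₐ[k] K) (x : T → ℤ) {n : ℕ} (f : Fin n → Fin 3 × Fin 3)
    (hf : AlgebraicIndependent k ((fun w => φ fun t => win Γ.P w (x t)) ∘ f))
    (hmax : ∀ f' : Fin (n + 1) → Fin 3 × Fin 3,
      ¬ AlgebraicIndependent k ((fun w => φ fun t => win Γ.P w (x t)) ∘ f'))
    (D : Derivation k K K) (hD : ∀ i, D (φ fun t => win Γ.P (f i) (x t)) = 0) :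
    KA D (Γ.lift φ).P 1 x := by
  have : CharZero K := charZero_of_injective_algebraMap (algebraMap k K).injective
  refine (h.lift φ).window (fun m c => ?_) fun u c => kill_of_max _ f hf hmax D hD (u, c)
  have : (Γ.lift φ).Q (0 + m • 1) c = algebraMap k K (Γ.Q m c) := by
    rw [← φ.commutes]
    simp only [GData.lift]
    congr 1
    ext t
    simp
  rw [this, D.map_algebraMap]

omit [CharZero k] in
lemma indep_down {T K : Type} [Field K] [Algebra k K] (X : ℤ → Fin 3 → k)
    (φ : (T → k) →ₐ[k] K) (x : T → ℤ) {n : ℕ} (f : Fin n → Fin 3 × Fin 3)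
    (hf : AlgebraicIndependent k ((fun w => φ fun t => win X w (x t)) ∘ f)) :
    AlgebraicIndependent k (win X ∘ f) :=
  AlgebraicIndependent.of_comp (φ.comp (precomp x)) hf

lemma no_grid_core {Γ : GData ℤ k} (h : Γ.Full 1) {n : ℕ} (fR : Fin n → Fin 3 × Fin 3)
    (hfR : AlgebraicIndependent k (win Γ.R ∘ fR))
    (hP : ∀ (m : ℕ) (f : Fin m → Fin 3 × Fin 3), AlgebraicIndependent k (win Γ.P ∘ f) → m ≤ n)
    (hQ : ∀ (m : ℕ) (f : Fin m → Fin 3 × Fin 3), AlgebraicIndependent k (win Γ.Q ∘ f) → m ≤ n)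
    (hR : ∀ (m : ℕ) (f : Fin m → Fin 3 × Fin 3), AlgebraicIndependent k (win Γ.R ∘ f) → m ≤ n) :
    False := by
  classical
  obtain ⟨s, ⟨fP, hfP⟩, hs⟩ := exists_rank (k := k) (win Γ.P)
  have hs0 : 0 < s := by
    obtain ⟨f, hf⟩ := exists_transc h
    exact hs 1 f hf
  obtain ⟨K, _, _, φ, hw⟩ := exists_generic (indep_prod hfP (indep_prod hfR (indep_prod hfR hfR)))
  have : CharZero K := charZero_of_injective_algebraMap (algebraMap k K).injective
  obtain ⟨Dd, B, hD1, hD2, hD3⟩ := exists_dual hw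
  set w := φ ∘ _ with hwdef
  let a' : ℤ × ℤ × ℤ × ℤ → ℤ := fun t => t.1
  let c1 : ℤ × ℤ × ℤ × ℤ → ℤ := fun t => t.2.1
  let c2 : ℤ × ℤ × ℤ × ℤ → ℤ := fun t => t.2.2.1
  let c3 : ℤ × ℤ × ℤ × ℤ → ℤ := fun t => t.2.2.2
  have H := h.lift φ
  set Δ := Γ.lift φ with hΔ
  have rR : ∀ {D : Derivation k K K} {x y} (z), KA D Δ.P 1 x → KA D Δ.Q 1 y → x + y + z = 0 →
      KA D Δ.R 1 z := fun z a b c => H.row c a b
  have rP : ∀ {D : Derivation k K K} {y z} (x), KA D Δ.Q 1 y → KA D Δ.R 1 z → y + z + x = 0 →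
      KA D Δ.P 1 x := fun z a b c => H.cyc.row c a b
  have rQ : ∀ {D : Derivation k K K} {z x} (y), KA D Δ.R 1 z → KA D Δ.P 1 x → z + x + y = 0 →
      KA D Δ.Q 1 y := fun z a b c => H.cyc.cyc.row c a b
  have k0 : ∀ D : Derivation k K K, (∀ i, D (w (.inl i)) = 0) → KA D Δ.P 1 a' := fun D hD =>
    lift_kill h φ a' fP (hw.comp Sum.inl Sum.inl_injective)
      (fun f' hf' => by simpa using hs _ _ (indep_down _ φ a' f' hf')) D hD
  have k1 : ∀ D : Derivation k K K, (∀ i, D (w (.inr (.inl i))) = 0) → KA D Δ.R 1 c1 :=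
    fun D hD => lift_kill h.cyc.cyc φ c1 fR
      (hw.comp (Sum.inr ∘ Sum.inl) (Sum.inr_injective.comp Sum.inl_injective))
      (fun f' hf' => by simpa using hR _ _ (indep_down _ φ c1 f' hf')) D hD
  have k2 : ∀ D : Derivation k K K, (∀ i, D (w (.inr (.inr (.inl i)))) = 0) → KA D Δ.R 1 c2 :=
    fun D hD => lift_kill h.cyc.cyc φ c2 fR
      (hw.comp (Sum.inr ∘ Sum.inr ∘ Sum.inl)
        (Sum.inr_injective.comp (Sum.inr_injective.comp Sum.inl_injective)))
      (fun f' hf' => by simpa using hR _ _ (indep_down _ φ c2 f' hf')) D hD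
  have k3 : ∀ D : Derivation k K K, (∀ i, D (w (.inr (.inr (.inr i)))) = 0) → KA D Δ.R 1 c3 :=
    fun D hD => lift_kill h.cyc.cyc φ c3 fR
      (hw.comp (Sum.inr ∘ Sum.inr ∘ Sum.inr)
        (Sum.inr_injective.comp (Sum.inr_injective.comp Sum.inr_injective)))
      (fun f' hf' => by simpa using hR _ _ (indep_down _ φ c3 f' hf')) D hD
  have j0 : ∀ D : Derivation k K K, KA D Δ.P 1 a' → ∀ i, D (w (.inl i)) = 0 :=
    fun D hD i => hD _ (fP i).2
  have j1 : ∀ D : Derivation k K K, KA D Δ.R 1 c1 → ∀ i, D (w (.inr (.inl i))) = 0 :=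
    fun D hD i => hD _ (fR i).2
  have j2 : ∀ D : Derivation k K K, KA D Δ.R 1 c2 → ∀ i, D (w (.inr (.inr (.inl i)))) = 0 :=
    fun D hD i => hD _ (fR i).2
  have j3 : ∀ D : Derivation k K K, KA D Δ.R 1 c3 → ∀ i, D (w (.inr (.inr (.inr i)))) = 0 :=
    fun D hD i => hD _ (fR i).2
  obtain ⟨na, ⟨fa, hfa⟩, hna⟩ :=
    exists_rank (k := k) fun w => φ fun t => win Γ.P w ((a' + c1 - c3) t)
  obtain ⟨nb, ⟨fb, hfb⟩, hnb⟩ :=
    exists_rank (k := k) fun w => φ fun t => win Γ.Q w ((-a' - c2) t)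
  have hna' : na ≤ n := hP _ _ (indep_down _ φ _ fa hfa)
  have hnb' : nb ≤ n := hQ _ _ (indep_down _ φ _ fb hfb)
  let ya : Fin na → K := fun i => φ fun t => win Γ.P (fa i) ((a' + c1 - c3) t)
  let yb : Fin nb → K := fun i => φ fun t => win Γ.Q (fb i) ((-a' - c2) t)
  have ka : ∀ D : Derivation k K K, (∀ i, D (ya i) = 0) → KA D Δ.P 1 (a' + c1 - c3) :=
    fun D hD => lift_kill h φ _ fa hfa (fun f' hf' => by simpa using hna _ _ hf') D hD
  have kb : ∀ D : Derivation k K K, (∀ i, D (yb i) = 0) → KA D Δ.Q 1 (-a' - c2) :=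
    fun D hD => lift_kill h.cyc φ _ fb hfb (fun f' hf' => by simpa using hnb _ _ hf') D hD
  have ja : ∀ D : Derivation k K K, KA D Δ.P 1 (a' + c1 - c3) → ∀ i, D (ya i) = 0 :=
    fun D hD i => hD _ (fa i).2
  have jb : ∀ D : Derivation k K K, KA D Δ.Q 1 (-a' - c2) → ∀ i, D (yb i) = 0 :=
    fun D hD i => hD _ (fb i).2
  let u : Fin s ⊕ Fin n ⊕ Fin na ⊕ Fin nb → K :=
    Sum.elim (fun i => w (.inl i)) (Sum.elim (fun i => w (.inr (.inl i))) (Sum.elim ya yb))
  have span : ∀ D : Derivation k K K, (∀ j, D (u j) = 0) → ∀ i, D (w i) = 0 := by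
    intro D hD
    have p0 := k0 D fun i => hD (.inl i)
    have p1 := k1 D fun i => hD (.inr (.inl i))
    have pa := ka D fun i => hD (.inr (.inr (.inl i)))
    have pb := kb D fun i => hD (.inr (.inr (.inr i)))
    have qb := rQ (-a' - c1) p1 p0 (by abel)
    rintro (i | i | i | i)
    · exact j0 D p0 i
    · exact j1 D p1 i
    · exact j2 D (rR c2 p0 pb (by abel)) i
    · exact j3 D (rR c3 pa qb (by abel)) i
  have solve : ∀ v : Fin s ⊕ Fin n ⊕ Fin na ⊕ Fin nb → K, ∃ ζ : Derivation k K K,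
      (∀ j, ζ (u j) = v j) ∧ ∀ b ∈ B, ζ b = 0 := by
    let Z : (Fin s ⊕ Fin n ⊕ Fin n ⊕ Fin n → K) → Derivation k K K := fun c => ∑ i, c i • Dd i
    have hZ : ∀ c x, Z c x = ∑ i, c i * Dd i x := fun c x => by
      have := map_sum (Derivation.coeFnAddMonoidHom (R := k) (A := K) (M := K))
        (fun i => c i • Dd i) Finset.univ
      have := congrFun this x
      rw [Finset.sum_apply] at this
      exact this
    let L : (Fin s ⊕ Fin n ⊕ Fin n ⊕ Fin n → K) →ₗ[K] (Fin s ⊕ Fin n ⊕ Fin na ⊕ Fin nb → K) :=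
      { toFun := fun c j => Z c (u j)
        map_add' := fun c c' => by ext j; simp [hZ, add_mul, Finset.sum_add_distrib]
        map_smul' := fun r c => by
          ext j
          simp only [hZ, Pi.smul_apply, smul_eq_mul, RingHom.id_apply, Finset.mul_sum, mul_assoc] }
    have hinj : Function.Injective L := by
      rw [injective_iff_map_eq_zero]
      intro c hc
      ext i
      have := span (Z c) (fun j => congrFun hc j) i
      simpa [hZ, hD1] using this
    have hle := LinearMap.finrank_le_finrank_of_injective hinj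
    have hsurj := (LinearMap.injective_iff_surjective_of_finrank_eq_finrank (f := L) (by
      simp only [Module.finrank_fintype_fun_eq_card, Fintype.card_sum, Fintype.card_fin] at hle ⊢
      omega)).1 hinj
    intro v
    obtain ⟨c, hc⟩ := hsurj v
    exact ⟨Z c, fun j => congrFun hc j, fun b hb => by simp [hZ, hD2 _ b hb]⟩
  let D := Dd (.inl ⟨0, hs0⟩)
  have dD : ∀ (ζ : Derivation k K K) i, ζ (w i) = 0 → ⁅ζ, D⁆ (w i) = 0 := fun ζ i hi => by
    rw [Derivation.commutator_apply, hi, hD1]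
    split_ifs <;> simp
  obtain ⟨ξ, hξ, hξB⟩ := solve (Sum.elim 0 (Sum.elim 0 (Sum.elim (fun i => D (ya i)) 0)))
  obtain ⟨η, hη, hηB⟩ := solve (Sum.elim 0 (Sum.elim 0 (Sum.elim 0 fun i => D (yb i))))
  have ξ0 := k0 ξ fun i => hξ (.inl i)
  have ξ1 := k1 ξ fun i => hξ (.inr (.inl i))
  have ξa : ∀ i, ξ (ya i) = D (ya i) := fun i => hξ (.inr (.inr (.inl i)))
  have ξb := kb ξ fun i => hξ (.inr (.inr (.inr i)))
  have η0 := k0 η fun i => hη (.inl i)
  have η1 := k1 η fun i => hη (.inr (.inl i))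
  have ηa := ka η fun i => hη (.inr (.inr (.inl i)))
  have ηb : ∀ i, η (yb i) = D (yb i) := fun i => hη (.inr (.inr (.inr i)))
  have η3 := rR c3 ηa (rQ (-a' - c1) η1 η0 (by abel)) (by abel)
  have ξ2 := rR c2 ξ0 ξb (by abel)
  have e1 : ∀ i, η (D (ya i)) = 0 := fun i => by
    have p0 := k0 _ fun i => dD η _ (j0 η η0 i)
    have p1 := k1 _ fun i => dD η _ (j1 η η1 i)
    have p3 := k3 _ fun i => dD η _ (j3 η η3 i)
    have := ja _ (rP _ (rQ (-a' - c1) p1 p0 (by abel)) p3 (by abel)) i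
    rw [Derivation.commutator_apply, ja η ηa] at this
    simpa using this
  have e2 : ∀ i, ξ (D (yb i)) = 0 := fun i => by
    have p0 := k0 _ fun i => dD ξ _ (j0 ξ ξ0 i)
    have p2 := k2 _ fun i => dD ξ _ (j2 ξ ξ2 i)
    have := jb _ (rQ _ p2 p0 (by abel)) i
    rw [Derivation.commutator_apply, jb ξ ξb] at this
    simpa using this
  have comm : ∀ f, ξ (η f) = η (ξ f) := by
    intro f
    rw [← sub_eq_zero, ← Derivation.commutator_apply]
    refine hD3 _ (span _ ?_) (fun b hb => ?_) f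
    · rintro (i | i | i | i) <;> rw [Derivation.commutator_apply]
      · rw [hξ, hη]; simp
      · rw [hξ, hη]; simp
      · rw [hξ, hη]; simp [e1]
      · rw [hξ, hη]; simp [e2]
    · rw [Derivation.commutator_apply, hξB b hb, hηB b hb]; simp
  have D1 := k1 D fun i => by simp [D, hD1]
  have D2 := k2 D fun i => by simp [D, hD1]
  have D3 := k3 D fun i => by simp [D, hD1]
  have D0 : KA D Δ.P 1 0 := fun m c => by
    have : Δ.P (0 + m • 1) c = algebraMap k K (Γ.P m c) := by
      rw [← φ.commutes]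
      simp only [hΔ, GData.lift]
      congr 1
      ext t
      simp
    rw [this, D.map_algebraMap]
  have D4 := rR (c2 + c3 - c1) (rP (c1 - c2) (rQ (-c1) D1 D0 (by abel)) D2 (by abel))
    (rQ (-c3) D3 D0 (by abel)) (by abel)
  have s4 := rR (c2 + c3 - c1) (ka (ξ + η - D) fun i => by simp [ξa, ja η ηa])
    (kb (ξ + η - D) fun i => by simp [ηb, jb ξ ξb]) (by abel)
  have s5 : KA (ξ + η) Δ.R 1 (c2 + c3 - c1) := fun m c => by
    have := s4 m c
    rwa [Derivation.sub_apply, D4 m c, sub_zero] at this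
  have s6 := H.flat comm (by abel) ηa ξb s5
  have s7 := ka D fun i => by rw [← ξa, ja ξ s6]
  have s8 := j0 D (rP a' (rQ (-a' - c1) D3 s7 (by abel)) D1 (by abel)) ⟨0, hs0⟩
  simp [D, hD1] at s8

/-- No infinite triangular grid. -/
theorem no_grid {Γ : GData ℤ k} (h : Γ.Full 1) : False := by
  obtain ⟨p, ⟨fP, hfP⟩, hp⟩ := exists_rank (k := k) (win Γ.P)
  obtain ⟨q, ⟨fQ, hfQ⟩, hq⟩ := exists_rank (k := k) (win Γ.Q)
  obtain ⟨r, ⟨fR, hfR⟩, hr⟩ := exists_rank (k := k) (win Γ.R)
  by_cases h1 : p ≤ r ∧ q ≤ r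
  · exact no_grid_core h fR hfR (fun m f hf => (hp m f hf).trans h1.1)
      (fun m f hf => (hq m f hf).trans h1.2) hr
  by_cases h2 : q ≤ p
  · exact no_grid_core h.cyc fP hfP (fun m f hf => (hq m f hf).trans h2)
      (fun m f hf => (hr m f hf).trans (by omega)) hp
  · exact no_grid_core h.cyc.cyc fQ hfQ (fun m f hf => (hr m f hf).trans (by omega))
      (fun m f hf => (hp m f hf).trans (by omega)) hq

/-- No real triangular grid of some radius. -/
theorem no_finite_grid : ∃ N : ℕ, ∀ Γ : GData ℤ ℝ, ¬ ∀ i j l m : ℤ, i + j + l = 0 → m ≠ 0 →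
    i.natAbs ≤ N → j.natAbs ≤ N → l.natAbs ≤ N → m.natAbs ≤ N → Γ.Ok 1 i j l m := by
  by_contra hc
  push Not at hc
  choose Γ hΓ using hc
  let φ : (ℕ → ℝ) →+* Hyperreal := Filter.Germ.coeRingHom (Filter.hyperfilter ℕ : Filter ℕ)
  let Δ : GData ℤ Hyperreal :=
    { P := fun x c => φ fun t => (Γ t).P x c
      Q := fun x c => φ fun t => (Γ t).Q x c
      R := fun x c => φ fun t => (Γ t).R x c
      a := fun x y z => φ fun t => (Γ t).a x y z
      g := fun x y z => φ fun t => (Γ t).g x y z }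
  refine no_grid (Γ := Δ) fun i j l m h0 hm => ?_
  refine VOK.transfer φ (Filter.hyperfilter ℕ : Filter ℕ) (fun f f' hf => ?_) (fun f hf h0 => ?_) ?_
  · exact Filter.Germ.coe_eq.2 hf
  · obtain ⟨t, h1, h2⟩ := (hf.and (Filter.Germ.coe_eq.1 h0)).exists
    exact h1 h2
  · refine Filter.hyperfilter_le_cofinite ?_
    rw [Nat.cofinite_eq_atTop]
    filter_upwards [Filter.eventually_ge_atTop (i.natAbs + j.natAbs + l.natAbs + m.natAbs)]
      with t ht
    exact hΓ t i j l m h0 hm (by omega) (by omega) (by omega) (by omega)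

end Pool.Agent.Lib.MP_596974_co
end
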