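import Mathlib
import Pool.Agent.Lib.MP_596974_co.NoGrid

-- part Pool.Agent.Lib.MP_596974_co.Arr
section

/-!
# Arrangements of graphs of functions: almost all faces are triangles
-/

namespace Pool.Agent.Lib.MP_596974_co

open Finset

/-- Finitely many differentiable graphs crossing transversally; every lens contains the marked
abscissa of one of its two curves. -/
structure Arr (ι : Type) where
  F : ι → ℝ → ℝ
  s : ι → ℝ → ℝ
  c : ι → ℝ
  der : ∀ f t, HasDerivAt (F f) (s f t) t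
  trans : ∀ f g t, F f t = F g t → s f t = s g t → f = g
  lens : ∀ f g t1 t2, f ≠ g → t1 < t2 → F f t1 = F g t1 → F f t2 = F g t2 →
    c f ∈ Set.Ioo t1 t2 ∨ c g ∈ Set.Ioo t1 t2
  fin : ∀ f g, f ≠ g → {t | F f t = F g t}.Finite

namespace Arr

variable {ι : Type} (A : Arr ι)

/-- The mirror image. -/
def neg : Arr ι where
  F := fun f t => -A.F f t
  s := fun f t => -A.s f t
  c := A.c
  der := fun f t => (A.der f t).neg
  trans := fun f g t h1 h2 => A.trans f g t (neg_injective h1) (neg_injective h2)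
  lens := fun f g t1 t2 h h1 h2 h3 => A.lens f g t1 t2 h h1 (neg_injective h2) (neg_injective h3)
  fin := fun f g h => by simpa using A.fin f g h

/-- The curve `f` has a vertex over `t`. -/
def V (f : ι) (t : ℝ) : Prop := ∃ g, g ≠ f ∧ A.F g t = A.F f t

/-- Consecutive vertices. -/
structure Nx (f : ι) (t t' : ℝ) : Prop where
  lt : t < t'
  v1 : A.V f t
  v2 : A.V f t'
  mid : ∀ u, t < u → u < t' → ¬ A.V f u

/-- Smallest slope at the point. -/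
def IsMin (f : ι) (t : ℝ) : Prop := ∀ g, A.F g t = A.F f t → A.s f t ≤ A.s g t

/-- Largest slope at the point. -/
def IsMax (f : ι) (t : ℝ) : Prop := ∀ g, A.F g t = A.F f t → A.s g t ≤ A.s f t

/-- Consecutive slopes at a common point. -/
structure Adj (f g : ι) (t : ℝ) : Prop where
  eq : A.F f t = A.F g t
  lt : A.s f t < A.s g t
  mid : ∀ h, A.F h t = A.F g t → A.s h t ≤ A.s f t ∨ A.s g t ≤ A.s h t

/-- A triangular face right above the vertex of `h` over `x`. -/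
def Tri (h : ι) (x : ℝ) : Prop :=
  ∃ f g u w, A.Nx f u x ∧ A.Nx h x w ∧ A.Nx g u w ∧ A.F f x = A.F h x ∧ A.IsMin f x ∧
    A.IsMax h x ∧ A.Adj f g u ∧ A.Adj g h w

variable {A}

lemma neg_V {f t} : A.neg.V f t ↔ A.V f t := by simp [V, neg]

lemma neg_Nx {f t t'} (h : A.neg.Nx f t t') : A.Nx f t t' :=
  ⟨h.lt, neg_V.1 h.v1, neg_V.1 h.v2, fun u h1 h2 h3 => h.mid u h1 h2 (neg_V.2 h3)⟩

lemma neg_IsMin {f t} : A.neg.IsMin f t ↔ A.IsMax f t := by simp [IsMin, IsMax, neg]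

lemma neg_IsMax {f t} : A.neg.IsMax f t ↔ A.IsMin f t := by simp [IsMin, IsMax, neg]

lemma neg_Adj {f g t} (h : A.neg.Adj f g t) : A.Adj g f t := by
  have e : A.F f t = A.F g t := neg_injective h.eq
  refine ⟨e.symm, neg_lt_neg_iff.1 h.lt, fun k hk => ?_⟩
  rcases h.mid k (by simp [neg, hk, e]) with h1 | h1
  · exact Or.inr (neg_le_neg_iff.1 h1)
  · exact Or.inl (neg_le_neg_iff.1 h1)

lemma cont (f : ι) : Continuous (A.F f) :=
  continuous_iff_continuousAt.2 fun t => (A.der f t).continuousAt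

lemma slope_right {f g t t'} (he : A.F f t = A.F g t) (ht : t < t')
    (h : ∀ x ∈ Set.Ioo t t', A.F f x ≤ A.F g x) : A.s f t ≤ A.s g t := by
  rw [← sub_nonneg]
  refine ge_of_tendsto ((A.der g t).sub (A.der f t)).tendsto_slope_zero_right ?_
  filter_upwards [Ioo_mem_nhdsGT (sub_pos.2 ht)] with e hx
  have := h (t + e) ⟨by linarith [hx.1], by linarith [hx.2]⟩
  simp only [Pi.sub_apply, smul_eq_mul]
  exact mul_nonneg (inv_nonneg.2 hx.1.le) (by linarith)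

lemma slope_left {f g t t'} (he : A.F f t = A.F g t) (ht : t' < t)
    (h : ∀ x ∈ Set.Ioo t' t, A.F f x ≤ A.F g x) : A.s g t ≤ A.s f t := by
  rw [← sub_nonpos]
  refine le_of_tendsto ((A.der g t).sub (A.der f t)).tendsto_slope_zero_left ?_
  filter_upwards [Ioo_mem_nhdsLT (sub_neg.2 ht)] with e hx
  have := h (t + e) ⟨by linarith [hx.1], by linarith [hx.2]⟩
  simp only [Pi.sub_apply, smul_eq_mul]
  exact mul_nonpos_of_nonpos_of_nonneg (inv_nonpos.2 hx.2.le) (by linarith)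

lemma stay_below {f g u w x} (h : ∀ t ∈ Set.Ioo u w, A.F f t ≠ A.F g t) (hx : x ∈ Set.Ioo u w)
    (hl : A.F f x ≤ A.F g x) : ∀ t ∈ Set.Ioo u w, A.F f t < A.F g t := by
  intro t ht
  by_contra hc
  obtain ⟨y, hy, e⟩ := isPreconnected_Ioo.intermediate_value₂ hx ht (cont f).continuousOn
    (cont g).continuousOn hl (not_lt.1 hc)
  exact h y hy e

lemma le_closure {f g u w} (huw : u < w) (h : ∀ t ∈ Set.Ioo u w, A.F f t ≤ A.F g t) :
    ∀ t ∈ Set.Icc u w, A.F f t ≤ A.F g t := by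
  rw [← closure_Ioo huw.ne]
  exact fun t ht => (isClosed_le (cont f) (cont g)).closure_subset_iff.2 h ht

lemma below_right {f g u w} (huw : u < w) (h : ∀ t ∈ Set.Ioo u w, A.F f t ≠ A.F g t)
    (he : A.F f u = A.F g u) (hs : A.s f u < A.s g u) : ∀ t ∈ Set.Ioo u w, A.F f t < A.F g t := by
  intro t ht
  by_contra hc
  exact absurd (slope_right he.symm huw fun x hx =>
    (stay_below (fun y hy => (h y hy).symm) ht (not_lt.1 hc) x hx).le) (not_le.2 hs)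

lemma below_left {f g u w} (huw : u < w) (h : ∀ t ∈ Set.Ioo u w, A.F f t ≠ A.F g t)
    (he : A.F f w = A.F g w) (hs : A.s g w < A.s f w) : ∀ t ∈ Set.Ioo u w, A.F f t < A.F g t := by
  intro t ht
  by_contra hc
  exact absurd (slope_left he.symm huw fun x hx =>
    (stay_below (fun y hy => (h y hy).symm) ht (not_lt.1 hc) x hx).le) (not_le.2 hs)

lemma Nx.ne {g u w f} (h : A.Nx g u w) (hf : f ≠ g) : ∀ t ∈ Set.Ioo u w, A.F f t ≠ A.F g t :=
  fun t ht e => h.mid t ht.1 ht.2 ⟨f, hf, e⟩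

lemma Nx.right_unique {g u w w'} (h : A.Nx g u w) (h' : A.Nx g u w') : w = w' := by
  rcases lt_trichotomy w w' with l | l | l
  · exact absurd h.v2 (h'.mid w h.lt l)
  · exact l
  · exact absurd h'.v2 (h.mid w' h'.lt l)

lemma Nx.left_unique {g u u' w} (h : A.Nx g u w) (h' : A.Nx g u' w) : u = u' := by
  rcases lt_trichotomy u u' with l | l | l
  · exact absurd h'.v1 (h.mid u' l h'.lt)
  · exact l
  · exact absurd h.v1 (h'.mid u l h.lt)

lemma Nx.of_mem {g u w u' w' x} (h : A.Nx g u w) (h' : A.Nx g u' w') (hx : x ∈ Set.Ioo u w)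
    (hx' : x ∈ Set.Ioo u' w') : u = u' := by
  rcases lt_trichotomy u u' with l | l | l
  · exact absurd h'.v1 (h.mid u' l (hx'.1.trans hx.2))
  · exact l
  · exact absurd h.v1 (h'.mid u l (hx.1.trans hx'.2))

lemma V.of_eq {f g t} (h : A.V f t) (e : A.F g t = A.F f t) : A.V g t := by
  obtain ⟨k, hk, ek⟩ := h
  by_cases hg : g = f
  · exact ⟨k, hg ▸ hk, ek.trans e.symm⟩
  · exact ⟨f, Ne.symm hg, e.symm⟩

variable [Fintype ι]

lemma exists_max (f : ι) (t : ℝ) : ∃ h, A.F h t = A.F f t ∧ A.IsMax h t := by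
  classical
  obtain ⟨h, h1, h2⟩ := exists_max_image (univ.filter fun g => A.F g t = A.F f t)
    (fun g => A.s g t) ⟨f, by simp⟩
  simp only [mem_filter, mem_univ, true_and] at h1 h2
  exact ⟨h, h1, fun g hg => h2 g (hg.trans h1)⟩

/-- `f` is the highest curve below `g` over `t`. -/
def Top (A : Arr ι) (g f : ι) (t : ℝ) : Prop :=
  A.F f t < A.F g t ∧ ∀ f', A.F f' t < A.F g t → A.F f' t ≤ A.F f t

/-- Away from vertices the highest curve below an edge does not change. -/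
lemma envelope {g u w f0 a b} (h : A.Nx g u w) (h0 : ∀ t ∈ Set.Ioo u w, A.F f0 t < A.F g t)
    (hua : u ≤ a) (hab : a < b) (hbw : b ≤ w)
    (hv : ∀ f, ∀ t ∈ Set.Ioo a b, A.Top g f t → ¬ A.V f t) :
    ∃ f, (∀ t ∈ Set.Ioo u w, A.F f t < A.F g t) ∧ ∀ f', (∀ t ∈ Set.Ioo u w, A.F f' t < A.F g t) →
      ∀ t ∈ Set.Icc a b, A.F f' t ≤ A.F f t := by
  classical
  let Lo : Finset ι := univ.filter fun f => ∀ t ∈ Set.Ioo u w, A.F f t < A.F g t
  have hLo : ∀ f, f ∈ Lo ↔ ∀ t ∈ Set.Ioo u w, A.F f t < A.F g t := fun f => by simp [Lo]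
  let Z : ι → Set ℝ := fun f => ⋂ f' ∈ Lo, {t | A.F f' t ≤ A.F f t}
  have hZ : ∀ f, IsClosed (Z f) := fun f =>
    isClosed_biInter fun f' _ => isClosed_le (cont f') (cont f)
  have hZ' : ∀ f t, t ∈ Z f ↔ ∀ f' ∈ Lo, A.F f' t ≤ A.F f t := fun f t => by simp [Z]
  have hsub : ∀ t ∈ Set.Ioo a b, t ∈ Set.Ioo u w := fun t ht => ⟨hua.trans_lt ht.1, ht.2.trans_le hbw⟩
  have hex : ∀ t, ∃ f ∈ Lo, t ∈ Z f := fun t => by
    obtain ⟨f, h1, h2⟩ := exists_max_image Lo (fun f => A.F f t) ⟨f0, (hLo _).2 h0⟩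
    exact ⟨f, h1, (hZ' _ _).2 h2⟩
  obtain ⟨x, hx⟩ := Set.nonempty_Ioo.2 hab
  obtain ⟨f, hf, hxf⟩ := hex x
  refine ⟨f, (hLo _).1 hf, fun f' hf' => le_closure hab fun t ht => ?_⟩
  by_contra hc
  obtain ⟨y, hy, hy1, hy2⟩ := isPreconnected_closed_iff.1 (isPreconnected_Ioo (a := a) (b := b))
    (Z f) (⋃ k ∈ Lo.erase f, Z k) (hZ f) ((Lo.erase f).finite_toSet.isClosed_biUnion fun k _ => hZ k)
    (fun y _ => by
      obtain ⟨k, hk, hy⟩ := hex y
      by_cases e : k = f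
      · exact Or.inl (e ▸ hy)
      · exact Or.inr (Set.mem_biUnion (mem_erase.2 ⟨e, hk⟩) hy)) ⟨x, hx, hxf⟩ (by
      obtain ⟨k, hk, hy⟩ := hex t
      refine ⟨t, ht, Set.mem_biUnion (mem_erase.2 ⟨?_, hk⟩) hy⟩
      rintro rfl
      exact hc ((hZ' _ _).1 hy f' ((hLo _).2 hf')))
  obtain ⟨k, hk, hyk⟩ := Set.mem_iUnion₂.1 hy2
  rw [mem_erase] at hk
  refine hv f y hy ⟨(hLo _).1 hf y (hsub y hy), fun f2 h2 => (hZ' _ _).1 hy1 f2 ((hLo _).2 ?_)⟩
    ⟨k, hk.1, le_antisymm ((hZ' _ _).1 hy1 k hk.2) ((hZ' _ _).1 hyk f hf)⟩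
  exact stay_below (h.ne (by rintro rfl; exact lt_irrefl _ h2)) (hsub y hy) h2.le

/-- An edge that is the whole upper side of the face below it. -/
structure Roof (A : Arr ι) (g : ι) (u w : ℝ) : Prop where
  nx : A.Nx g u w
  nmin : ¬ A.IsMin g u
  nmax : ¬ A.IsMax g w
  mark : A.c g ∉ Set.Ioo u w

/-- A vertex or a marked point on the lower side of the face below an edge. -/
structure Under (A : Arr ι) (g : ι) (u w : ℝ) (p : ι × ℝ) : Prop where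
  mem : p.2 ∈ Set.Ioo u w
  top : A.Top g p.1 p.2
  mx : A.IsMax p.1 p.2
  v : A.V p.1 p.2 ∨ p.2 = A.c p.1

omit [Fintype ι] in
lemma Roof.left {g u w} (h : A.Roof g u w) :
    ∃ f, A.F f u = A.F g u ∧ ∀ t ∈ Set.Ioo u w, A.F f t < A.F g t := by
  have := h.nmin
  simp only [IsMin, not_forall, not_le] at this
  obtain ⟨f, e, hs⟩ := this
  exact ⟨f, e, below_right h.nx.lt (h.nx.ne (by rintro rfl; exact lt_irrefl _ hs)) e hs⟩

omit [Fintype ι] in
lemma Roof.right {g u w} (h : A.Roof g u w) :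
    ∃ f, A.F f w = A.F g w ∧ ∀ t ∈ Set.Ioo u w, A.F f t < A.F g t := by
  have := h.nmax
  simp only [IsMax, not_forall, not_le] at this
  obtain ⟨f, e, hs⟩ := this
  exact ⟨f, e, below_left h.nx.lt (h.nx.ne (by rintro rfl; exact lt_irrefl _ hs)) e hs⟩

lemma under_of_top {g u w f t} (ht : t ∈ Set.Ioo u w) (h : A.Top g f t) (hv : A.V f t) :
    ∃ k, A.Under g u w (k, t) := by
  obtain ⟨k, e, hk⟩ := exists_max (A := A) f t
  exact ⟨k, ht, ⟨e ▸ h.1, fun f' h' => e ▸ h.2 f' h'⟩, hk, Or.inl (hv.of_eq e)⟩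

omit [Fintype ι] in
lemma top_of_env {g u w f t} (h : A.Nx g u w) (ht : t ∈ Set.Ioo u w)
    (h1 : ∀ t ∈ Set.Ioo u w, A.F f t < A.F g t)
    (h2 : ∀ f', (∀ t ∈ Set.Ioo u w, A.F f' t < A.F g t) → A.F f' t ≤ A.F f t) : A.Top g f t :=
  ⟨h1 t ht, fun f' hf' =>
    h2 f' (stay_below (h.ne (by rintro rfl; exact lt_irrefl _ hf')) ht hf'.le)⟩

lemma Roof.exists_under {g u w} (h : A.Roof g u w) : ∃ p, A.Under g u w p := by
  by_contra hc
  have hv : ∀ f, ∀ t ∈ Set.Ioo u w, A.Top g f t → ¬ A.V f t := fun f t ht h1 h2 => by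
    obtain ⟨k, hk⟩ := under_of_top ht h1 h2
    exact hc ⟨_, hk⟩
  obtain ⟨f0, e0, h0⟩ := h.left
  obtain ⟨f1, e1, h1⟩ := h.right
  obtain ⟨f, hf, hm⟩ := envelope h.nx h0 le_rfl h.nx.lt le_rfl hv
  have hl := le_closure h.nx.lt fun t ht => (hf t ht).le
  have hu : u ∈ Set.Icc u w := ⟨le_rfl, h.nx.lt.le⟩
  have hw : w ∈ Set.Icc u w := ⟨h.nx.lt.le, le_rfl⟩
  obtain ⟨x, hx⟩ := Set.nonempty_Ioo.2 h.nx.lt
  have hc' := (A.lens f g u w (by rintro rfl; exact lt_irrefl _ (hf x hx)) h.nx.lt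
    (le_antisymm (hl u hu) (e0 ▸ hm f0 h0 u hu))
    (le_antisymm (hl w hw) (e1 ▸ hm f1 h1 w hw))).resolve_right h.mark
  have ht := top_of_env h.nx hc' hf fun f' hf' => hm f' hf' _ (Set.Ioo_subset_Icc_self hc')
  refine hc ⟨(f, A.c f), hc', ht, fun k hk => ?_, Or.inr rfl⟩
  by_cases e : k = f
  · rw [e]
  · exact absurd ⟨k, e, hk⟩ (hv f _ hc' ht)

lemma Roof.tri {g u w h x} (r : A.Roof g u w) (hp : A.Under g u w (h, x)) (hv : A.V h x)
    (hu : ∀ q, A.Under g u w q → q = (h, x)) : A.Tri h x := by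
  have hx : x ∈ Set.Ioo u w := hp.mem
  have nv : ∀ f, ∀ t ∈ Set.Ioo u w, t ≠ x → A.Top g f t → ¬ A.V f t := fun f t ht hne h1 h2 => by
    obtain ⟨k, hk⟩ := under_of_top ht h1 h2
    exact hne (congrArg Prod.snd (hu _ hk))
  obtain ⟨f0, e0, h0⟩ := r.left
  obtain ⟨f1, e1, h1⟩ := r.right
  obtain ⟨f, hf, hm⟩ := envelope r.nx h0 le_rfl hx.1 hx.2.le
    fun f t ht => nv f t ⟨ht.1, ht.2.trans hx.2⟩ ht.2.ne
  obtain ⟨k, hk, hn⟩ := envelope r.nx h0 hx.1.le hx.2 le_rfl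
    fun f t ht => nv f t ⟨hx.1.trans ht.1, ht.2⟩ ht.1.ne'
  have lo : ∀ f', A.F f' x < A.F g x → ∀ t ∈ Set.Ioo u w, A.F f' t < A.F g t := fun f' hf' =>
    stay_below (r.nx.ne (by rintro rfl; exact lt_irrefl _ hf')) hx hf'.le
  have hh := lo h hp.top.1
  have efx : A.F f x = A.F h x := le_antisymm (hp.top.2 f (hf x hx)) (hm h hh x ⟨hx.1.le, le_rfl⟩)
  have ekx : A.F k x = A.F h x := le_antisymm (hp.top.2 k (hk x hx)) (hn h hh x ⟨le_rfl, hx.2.le⟩)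
  obtain rfl : k = h := A.trans _ _ _ ekx (le_antisymm (hp.mx k ekx)
    (slope_right ekx.symm hx.2 fun t ht => hn h hh t (Set.Ioo_subset_Icc_self ht)))
  have efu : A.F f u = A.F g u :=
    le_antisymm (le_closure r.nx.lt (fun t ht => (hf t ht).le) u ⟨le_rfl, r.nx.lt.le⟩)
      (e0 ▸ hm f0 h0 u ⟨le_rfl, hx.1.le⟩)
  have ekw : A.F k w = A.F g w :=
    le_antisymm (le_closure r.nx.lt (fun t ht => (hk t ht).le) w ⟨r.nx.lt.le, le_rfl⟩)
      (e1 ▸ hn f1 h1 w ⟨hx.2.le, le_rfl⟩)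
  have fg : f ≠ g := by rintro rfl; exact lt_irrefl _ (hf x hx)
  have kg : k ≠ g := by rintro rfl; exact lt_irrefl _ (hk x hx)
  refine ⟨f, g, u, w, ⟨hx.1, r.nx.v1.of_eq efu, hv.of_eq efx, fun t t1 t2 => ?_⟩,
    ⟨hx.2, hv, r.nx.v2.of_eq ekw, fun t t1 t2 => ?_⟩, r.nx, efx, fun f' e' => ?_, hp.mx,
    ⟨efu, ?_, fun f' e' => ?_⟩, ⟨ekw.symm, ?_, fun f' e' => ?_⟩⟩
  · exact nv f t ⟨t1, t2.trans hx.2⟩ t2.ne (top_of_env r.nx ⟨t1, t2.trans hx.2⟩ hf
      fun f' hf' => hm f' hf' t ⟨t1.le, t2.le⟩)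
  · exact nv k t ⟨hx.1.trans t1, t2⟩ t1.ne' (top_of_env r.nx ⟨hx.1.trans t1, t2⟩ hk
      fun f' hf' => hn f' hf' t ⟨t1.le, t2.le⟩)
  · exact slope_left e' hx.1 fun t ht =>
      hm f' (lo f' (e' ▸ hf x hx)) t (Set.Ioo_subset_Icc_self ht)
  · exact lt_of_le_of_ne (slope_right efu r.nx.lt fun t ht => (hf t ht).le)
      fun e => fg (A.trans _ _ _ efu e)
  · rcases lt_or_ge (A.s f' u) (A.s g u) with l | l
    · exact Or.inl (slope_right (e'.trans efu.symm) hx.1 fun t ht => hm f' (below_right r.nx.lt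
        (r.nx.ne (by rintro rfl; exact lt_irrefl _ l)) e' l) t (Set.Ioo_subset_Icc_self ht))
    · exact Or.inr l
  · exact lt_of_le_of_ne (slope_left ekw r.nx.lt fun t ht => (hk t ht).le)
      fun e => kg (A.trans _ _ _ ekw e.symm)
  · rcases lt_or_ge (A.s g w) (A.s f' w) with l | l
    · exact Or.inr (slope_left e' hx.2 fun t ht => hn f' (below_left r.nx.lt
        (r.nx.ne (by rintro rfl; exact lt_irrefl _ l)) (e'.trans ekw) l) t
        (Set.Ioo_subset_Icc_self ht))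
    · exact Or.inl l

omit [Fintype ι] in
lemma Under.unique {g u w g' u' w' p} (h : A.Nx g u w) (h' : A.Nx g' u' w') (a : A.Under g u w p)
    (b : A.Under g' u' w' p) : g = g' ∧ u = u' := by
  have e : A.F g' p.2 = A.F g p.2 := by
    rcases lt_trichotomy (A.F g' p.2) (A.F g p.2) with l | l | l
    · exact absurd (a.top.2 _ l) (not_le.2 b.top.1)
    · exact l
    · exact absurd (b.top.2 _ l) (not_le.2 a.top.1)
  obtain rfl : g' = g := by_contra fun hne => h.ne hne _ a.mem e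
  exact ⟨rfl, h.of_mem h' a.mem b.mem⟩

end Arr

end Pool.Agent.Lib.MP_596974_co
end

-- part Pool.Agent.Lib.MP_596974_co.Count
section

/-!
# Counting triangular faces
-/

namespace Pool.Agent.Lib.MP_596974_co

open Finset Classical

lemma card_single {E T : Type} (s : Finset E) (t : Finset T) (r : E → T → Prop)
    (hex : ∀ e ∈ s, ∃ x ∈ t, r e x)
    (hun : ∀ e ∈ s, ∀ e' ∈ s, ∀ x, r e x → r e' x → e = e') :
    #s ≤ #t ∧ 2 * #s ≤ #t + #{e ∈ s | ∃ x ∈ t, r e x ∧ ∀ y ∈ t, r e y → y = x} := by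
  have h1 : ∑ e ∈ s, #{x ∈ t | r e x} ≤ #t := by
    rw [← card_biUnion]
    · exact card_le_card (biUnion_subset.2 fun e _ => filter_subset _ _)
    · intro e he e' he' hne
      exact disjoint_left.2 fun x h1 h2 =>
        hne (hun e he e' he' x (mem_filter.1 h1).2 (mem_filter.1 h2).2)
  have h0 : ∀ e ∈ s, 1 ≤ #{x ∈ t | r e x} := fun e he => by
    obtain ⟨x, hx, hr⟩ := hex e he
    exact card_pos.2 ⟨x, mem_filter.2 ⟨hx, hr⟩⟩
  constructor
  · refine le_trans ?_ h1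
    rw [card_eq_sum_ones]
    exact sum_le_sum h0
  · rw [card_filter, mul_comm, ← smul_eq_mul, ← sum_const]
    refine le_trans ?_ (Nat.add_le_add_right h1 _)
    rw [← sum_add_distrib]
    refine sum_le_sum fun e he => ?_
    split_ifs with h
    · exact Nat.succ_le_succ (h0 e he)
    · rw [add_zero]
      by_contra hc
      obtain ⟨x, hx⟩ := card_eq_one.1 (le_antisymm (by omega) (h0 e he))
      have hx' : x ∈ t.filter (r e) := by rw [hx]; simp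
      refine h ⟨x, (mem_filter.1 hx').1, (mem_filter.1 hx').2, fun y hy hr => ?_⟩
      rw [← mem_singleton, ← hx]
      exact mem_filter.2 ⟨hy, hr⟩

namespace Arr

variable {ι : Type} [Fintype ι] (A : Arr ι)

lemma finite_flags : {p : ι × ℝ | A.V p.1 p.2}.Finite := by
  refine (Set.finite_iUnion fun f : ι => Set.finite_iUnion fun g : ι =>
    (Set.Finite.subset (s := if g = f then ∅ else Prod.mk f '' {t | A.F g t = A.F f t}) ?_
      subset_rfl)).subset ?_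
  · split_ifs with h
    · exact Set.finite_empty
    · exact (A.fin g f h).image _
  · rintro ⟨f, t⟩ ⟨g, hg, e⟩
    simp only [Set.mem_iUnion]
    exact ⟨f, g, by rw [if_neg hg]; exact ⟨t, e, rfl⟩⟩

/-- The flags: a curve with a vertex on it. -/
noncomputable def Inc : Finset (ι × ℝ) := A.finite_flags.toFinset

/-- The vertices. -/
noncomputable def Vx : Finset (ℝ × ℝ) := A.Inc.image fun p => (p.2, A.F p.1 p.2)

/-- The number of curves through a point. -/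
noncomputable def mult (v : ℝ × ℝ) : ℕ := #{g | A.F g v.1 = v.2}

/-- The number of simple vertices. -/
noncomputable def t2 : ℕ := #{v ∈ A.Vx | A.mult v = 2}

variable {A}

lemma mem_Inc {p : ι × ℝ} : p ∈ A.Inc ↔ A.V p.1 p.2 := by simp [Inc]

lemma neg_Inc : A.neg.Inc = A.Inc := by ext p; simp [mem_Inc, neg_V]

lemma two_le_mult {v} (h : v ∈ A.Vx) : 2 ≤ A.mult v := by
  obtain ⟨p, hp, rfl⟩ := mem_image.1 h
  obtain ⟨g, hg, e⟩ := mem_Inc.1 hp
  exact one_lt_card.2 ⟨g, by simpa using e, p.1, by simp, hg⟩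

lemma sum_flags (φ : ℝ × ℝ → ℕ) :
    ∑ p ∈ A.Inc, φ (p.2, A.F p.1 p.2) = ∑ v ∈ A.Vx, A.mult v * φ v := by
  rw [← sum_fiberwise_of_maps_to (g := fun p : ι × ℝ => (p.2, A.F p.1 p.2)) (t := A.Vx)
    fun p hp => mem_image_of_mem _ hp]
  refine sum_congr rfl fun v hv => ?_
  rw [sum_congr rfl (g := fun _ => φ v) fun p hp => by rw [(mem_filter.1 hp).2], sum_const,
    smul_eq_mul]
  congr 1
  obtain ⟨q, hq, rfl⟩ := mem_image.1 hv
  refine card_nbij' Prod.fst (fun g => (g, q.2)) (fun p hp => ?_) (fun g hg => ?_)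
    (fun p hp => ?_) fun g _ => rfl
  · simp only [coe_filter, Set.mem_ofPred_eq, Prod.mk.injEq, mem_univ, true_and] at hp ⊢
    rw [← hp.2.2, hp.2.1]
  · simp only [coe_filter, Set.mem_ofPred_eq, Prod.mk.injEq, mem_univ, true_and] at hg ⊢
    exact ⟨mem_Inc.2 ((mem_Inc.1 hq).of_eq hg), hg⟩
  · simp only [coe_filter, Set.mem_ofPred_eq, Prod.mk.injEq] at hp
    simp [← hp.2.1]

lemma card_max : #{p ∈ A.Inc | A.IsMax p.1 p.2} ≤ #A.Vx :=
  card_le_card_of_injOn (fun p => (p.2, A.F p.1 p.2))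
    (fun p hp => mem_image_of_mem _ (mem_filter.1 hp).1) fun p hp q hq e => by
      obtain ⟨f, t⟩ := p
      obtain ⟨g, t'⟩ := q
      simp only [Prod.mk.injEq, coe_filter, Set.mem_ofPred_eq] at *
      obtain ⟨rfl, e⟩ := e
      exact ⟨A.trans _ _ _ e (le_antisymm (hq.2 f e) (hp.2 g e.symm)), rfl⟩

lemma card_min : #{p ∈ A.Inc | A.IsMin p.1 p.2} ≤ #A.Vx :=
  card_le_card_of_injOn (fun p => (p.2, A.F p.1 p.2))
    (fun p hp => mem_image_of_mem _ (mem_filter.1 hp).1) fun p hp q hq e => by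
      obtain ⟨f, t⟩ := p
      obtain ⟨g, t'⟩ := q
      simp only [Prod.mk.injEq, coe_filter, Set.mem_ofPred_eq] at *
      obtain ⟨rfl, e⟩ := e
      exact ⟨A.trans _ _ _ e (le_antisymm (hp.2 g e.symm) (hq.2 f e)), rfl⟩

lemma exists_next {f t t'} (h : A.V f t) (h' : A.V f t') (l : t < t') : ∃ w, A.Nx f t w := by
  obtain ⟨q, hq, hm⟩ := exists_min_image (A.Inc.filter fun q => q.1 = f ∧ t < q.2) Prod.snd
    ⟨(f, t'), mem_filter.2 ⟨mem_Inc.2 h', rfl, l⟩⟩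
  obtain ⟨h1, rfl, h2⟩ := mem_filter.1 hq
  exact ⟨q.2, h2, h, mem_Inc.1 h1, fun u u1 u2 hu =>
    absurd (hm (q.1, u) (mem_filter.2 ⟨mem_Inc.2 hu, rfl, u1⟩)) (not_le.2 u2)⟩

lemma card_roof {m1 m2 : ℕ} (h1 : #{p ∈ A.Inc | A.IsMin p.1 p.2} ≤ m1)
    (h2 : #{p ∈ A.Inc | A.IsMax p.1 p.2} ≤ m2) :
    #A.Inc ≤ #{p ∈ A.Inc | ∃ w, A.Roof p.1 p.2 w} + m1 + m2 + 2 * Fintype.card ι := by
  have s1 : #{p ∈ A.Inc | ¬ ∃ w, A.Nx p.1 p.2 w} ≤ Fintype.card ι := by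
    refine card_le_card_of_injOn Prod.fst (fun p _ => mem_univ _) fun p hp q hq e => ?_
    simp only [coe_filter, Set.mem_ofPred_eq, mem_Inc] at hp hq
    refine Prod.ext e ?_
    rcases lt_trichotomy p.2 q.2 with l | l | l
    · exact absurd (exists_next hp.1 (e ▸ hq.1) l) hp.2
    · exact l
    · exact absurd (exists_next hq.1 (e ▸ hp.1) l) hq.2
  have s2 : #{p ∈ A.Inc | ∃ w, A.Nx p.1 p.2 w ∧ A.IsMax p.1 w} ≤ m2 := by
    refine le_trans (card_le_card_of_forall_subsingleton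
      (fun p q : ι × ℝ => q.1 = p.1 ∧ A.Nx p.1 p.2 q.2) (fun p hp => ?_) fun q _ p hp p' hp' => ?_) h2
    · obtain ⟨w, a, b⟩ := (mem_filter.1 hp).2
      exact ⟨(p.1, w), mem_filter.2 ⟨mem_Inc.2 a.v2, b⟩, rfl, a⟩
    · have e : p.1 = p'.1 := hp.2.1.symm.trans hp'.2.1
      exact Prod.ext e (hp.2.2.left_unique (e ▸ hp'.2.2))
  have s3 : #{p ∈ A.Inc | ∃ w, A.Nx p.1 p.2 w ∧ A.c p.1 ∈ Set.Ioo p.2 w} ≤ Fintype.card ι := by
    refine card_le_card_of_injOn Prod.fst (fun p _ => mem_univ _) fun p hp q hq e => ?_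
    simp only [coe_filter, Set.mem_ofPred_eq] at hp hq
    obtain ⟨-, w, a, b⟩ := hp
    obtain ⟨-, w', a', b'⟩ := hq
    exact Prod.ext e (a.of_mem (e ▸ a') b (e ▸ b'))
  have hsub : A.Inc ⊆ {p ∈ A.Inc | ∃ w, A.Roof p.1 p.2 w} ∪ {p ∈ A.Inc | A.IsMin p.1 p.2} ∪
      {p ∈ A.Inc | ∃ w, A.Nx p.1 p.2 w ∧ A.IsMax p.1 w} ∪ {p ∈ A.Inc | ¬ ∃ w, A.Nx p.1 p.2 w} ∪
      {p ∈ A.Inc | ∃ w, A.Nx p.1 p.2 w ∧ A.c p.1 ∈ Set.Ioo p.2 w} := by
    intro p hp
    simp only [mem_union, mem_filter, hp, true_and]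
    by_contra hc
    simp only [not_or, not_not] at hc
    obtain ⟨⟨⟨⟨c1, c2⟩, c3⟩, w, c4⟩, c5⟩ := hc
    exact c1 ⟨w, c4, c2, fun h => c3 ⟨w, c4, h⟩, fun h => c5 ⟨w, c4, h⟩⟩
  have := (card_le_card hsub).trans ((card_union_le _ _).trans (Nat.add_le_add_right
    ((card_union_le _ _).trans (Nat.add_le_add_right ((card_union_le _ _).trans
      (Nat.add_le_add_right (card_union_le _ _) _)) _)) _))
  omega

/-- Melchior's inequality and the number of triangles. -/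
lemma card_tri {m : ℕ} (h1 : #{p ∈ A.Inc | A.IsMin p.1 p.2} ≤ m)
    (h2 : #{p ∈ A.Inc | A.IsMax p.1 p.2} ≤ m) :
    #A.Inc ≤ 3 * m + 3 * Fintype.card ι ∧
      2 * #A.Inc ≤ #{p ∈ A.Inc | A.Tri p.1 p.2} + 5 * m + 6 * Fintype.card ι := by
  have hr := card_roof h1 h2
  let M : Finset (ι × ℝ) := univ.image fun f => (f, A.c f)
  have hM : #M ≤ Fintype.card ι := card_image_le
  let T := {p ∈ A.Inc | A.IsMax p.1 p.2} ∪ M
  have hT : #T ≤ m + Fintype.card ι := (card_union_le _ _).trans (Nat.add_le_add h2 hM)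
  have hmem : ∀ g u w q, A.Under g u w q → q ∈ T := fun g u w q hq => by
    rcases hq.v with h | h
    · exact mem_union_left _ (mem_filter.2 ⟨mem_Inc.2 h, hq.mx⟩)
    · exact mem_union_right _ (mem_image.2 ⟨q.1, mem_univ _, Prod.ext rfl h.symm⟩)
  have hun : ∀ e e' x : ι × ℝ, (∃ w, A.Roof e.1 e.2 w ∧ A.Under e.1 e.2 w x) →
      (∃ w, A.Roof e'.1 e'.2 w ∧ A.Under e'.1 e'.2 w x) → e = e' := by
    rintro e e' x ⟨w, a, b⟩ ⟨w', a', b'⟩
    exact Prod.ext (b.unique a.nx a'.nx b').1 (b.unique a.nx a'.nx b').2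
  obtain ⟨c1, c2⟩ := card_single {p ∈ A.Inc | ∃ w, A.Roof p.1 p.2 w} T
    (fun e x => ∃ w, A.Roof e.1 e.2 w ∧ A.Under e.1 e.2 w x) (fun e he => by
      obtain ⟨w, hw⟩ := (mem_filter.1 he).2
      obtain ⟨q, hq⟩ := hw.exists_under
      exact ⟨q, hmem _ _ _ _ hq, w, hw, hq⟩) fun e _ e' _ x => hun e e' x
  have c3 := card_le_card_of_forall_subsingleton
    (s := {e ∈ {p ∈ A.Inc | ∃ w, A.Roof p.1 p.2 w} | ∃ x ∈ T,
      (∃ w, A.Roof e.1 e.2 w ∧ A.Under e.1 e.2 w x) ∧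
        ∀ y ∈ T, (∃ w, A.Roof e.1 e.2 w ∧ A.Under e.1 e.2 w y) → y = x})
    (t := {p ∈ A.Inc | A.Tri p.1 p.2} ∪ M)
    (fun e x => ∃ w, A.Roof e.1 e.2 w ∧ A.Under e.1 e.2 w x) (fun e he => by
      obtain ⟨x, -, ⟨w, a, b⟩, hu⟩ := (mem_filter.1 he).2
      refine ⟨x, ?_, w, a, b⟩
      rcases b.v with h | h
      · exact mem_union_left _ (mem_filter.2 ⟨mem_Inc.2 h,
          a.tri b h fun q hq => hu q (hmem _ _ _ _ hq) ⟨w, a, hq⟩⟩)
      · exact mem_union_right _ (mem_image.2 ⟨x.1, mem_univ _, Prod.ext rfl h.symm⟩))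
    fun x _ e he e' he' => hun e e' x he.2 he'.2
  have c4 := c2.trans (Nat.add_le_add_left (m := #{p ∈ A.Inc | A.Tri p.1 p.2} + #M)
    (le_trans (card_le_card fun e he => by simpa using he) (c3.trans (card_union_le _ _))) _)
  constructor <;> omega

lemma card_Inc : #A.Inc = ∑ v ∈ A.Vx, A.mult v := by
  simpa using sum_flags (A := A) fun _ => 1

lemma three_V : 3 * #A.Vx ≤ #A.Inc + A.t2 := by
  rw [card_Inc, t2, card_filter, ← sum_add_distrib, mul_comm, ← smul_eq_mul, ← sum_const]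
  refine sum_le_sum fun v hv => ?_
  have := two_le_mult hv
  split_ifs <;> omega

lemma card_not_three : #{p ∈ A.Inc | A.mult (p.2, A.F p.1 p.2) ≠ 3} + 12 * #A.Vx ≤
    4 * #A.Inc + 6 * A.t2 := by
  rw [card_filter, sum_flags (A := A) fun v => if A.mult v ≠ 3 then 1 else 0, card_Inc, t2,
    card_filter, mul_sum, mul_sum, ← sum_add_distrib, mul_comm 12, ← smul_eq_mul, ← sum_const,
    ← sum_add_distrib]
  refine sum_le_sum fun v hv => ?_
  have := two_le_mult hv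
  split_ifs <;> omega

end Arr

end Pool.Agent.Lib.MP_596974_co
end

-- part Pool.Agent.Lib.MP_596974_co.Planar
section

/-!
# Planar graphs drawn along the curves
-/

namespace Pool.Agent.Lib.MP_596974_co

open Finset Classical

namespace Arr

variable {ι : Type} {A : Arr ι}

lemma stay_left {f g a b} (h : ∀ t ∈ Set.Ioo a b, A.F f t ≠ A.F g t) (hb : A.F f b < A.F g b) :
    ∀ t ∈ Set.Icc a b, A.F f t ≤ A.F g t := by
  intro t ht
  by_contra hc
  obtain ⟨y, hy, e⟩ := isPreconnected_Icc.intermediate_value₂ (Set.right_mem_Icc.2 ht.2)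
    (Set.left_mem_Icc.2 ht.2) (cont f).continuousOn (cont g).continuousOn hb.le (not_le.1 hc).le
  refine h y ⟨ht.1.trans_lt (lt_of_le_of_ne hy.1 ?_), lt_of_le_of_ne hy.2 ?_⟩ e
  · rintro rfl; exact hc e.le
  · rintro rfl; exact hb.ne e

/-- An arc of a curve between consecutive points of `R` that avoids the mark. -/
structure Seg (A : Arr ι) (R : Finset (ℝ × ℝ)) (e : ι × ℝ × ℝ) : Prop where
  lt : e.2.1 < e.2.2
  l : (e.2.1, A.F e.1 e.2.1) ∈ R
  r : (e.2.2, A.F e.1 e.2.2) ∈ R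
  mid : ∀ u ∈ Set.Ioo e.2.1 e.2.2, (u, A.F e.1 u) ∉ R
  mark : A.c e.1 ∉ Set.Ioo e.2.1 e.2.2

/-- Left end point. -/
def lf (A : Arr ι) (e : ι × ℝ × ℝ) : ℝ × ℝ := (e.2.1, A.F e.1 e.2.1)

/-- Right end point. -/
def rt (A : Arr ι) (e : ι × ℝ × ℝ) : ℝ × ℝ := (e.2.2, A.F e.1 e.2.2)

/-- Two arcs cross. -/
def Cross (A : Arr ι) (e e' : ι × ℝ × ℝ) : Prop :=
  e.1 ≠ e'.1 ∧ ∃ u, u ∈ Set.Ioo e.2.1 e.2.2 ∧ u ∈ Set.Ioo e'.2.1 e'.2.2 ∧ A.F e.1 u = A.F e'.1 u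

variable {R : Finset (ℝ × ℝ)}

lemma Seg.eq_of_mem {e e' u} (h : A.Seg R e) (h' : A.Seg R e') (hf : e.1 = e'.1)
    (hu : u ∈ Set.Ioo e.2.1 e.2.2) (hu' : u ∈ Set.Ioo e'.2.1 e'.2.2) : e = e' := by
  refine Prod.ext hf (Prod.ext ?_ ?_)
  · rcases lt_trichotomy e.2.1 e'.2.1 with l | l | l
    · exact absurd (hf ▸ h'.l) (h.mid _ ⟨l, hu'.1.trans hu.2⟩)
    · exact l
    · exact absurd (hf ▸ h.l) (h'.mid _ ⟨l, hu.1.trans hu'.2⟩)
  · rcases lt_trichotomy e.2.2 e'.2.2 with l | l | l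
    · exact absurd (hf ▸ h.r) (h'.mid _ ⟨hu'.1.trans hu.2, l⟩)
    · exact l
    · exact absurd (hf ▸ h'.r) (h.mid _ ⟨hu.1.trans hu'.2, l⟩)

lemma Seg.eq_of_left {e e'} (h : A.Seg R e) (h' : A.Seg R e') (hf : e.1 = e'.1)
    (ht : e.2.1 = e'.2.1) : e = e' := by
  obtain ⟨u, hu⟩ := exists_between (lt_min h.lt (ht ▸ h'.lt))
  exact h.eq_of_mem h' hf ⟨hu.1, hu.2.trans_le (min_le_left _ _)⟩
    ⟨ht ▸ hu.1, hu.2.trans_le (min_le_right _ _)⟩

lemma Seg.eq_of_right {e e'} (h : A.Seg R e) (h' : A.Seg R e') (hf : e.1 = e'.1)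
    (ht : e.2.2 = e'.2.2) : e = e' := by
  obtain ⟨u, hu⟩ := exists_between (max_lt h.lt (ht ▸ h'.lt))
  exact h.eq_of_mem h' hf ⟨(le_max_left _ _).trans_lt hu.1, hu.2⟩
    ⟨(le_max_right _ _).trans_lt hu.1, ht ▸ hu.2⟩

lemma Seg.ne {e e' u} (h : A.Seg R e) (h' : A.Seg R e') (hne : e ≠ e') (hc : ¬ A.Cross e e')
    (hu : u ∈ Set.Ioo e.2.1 e.2.2) (h1 : e'.2.1 ≤ u) (h2 : u ≤ e'.2.2) :
    A.F e.1 u ≠ A.F e'.1 u := by
  intro he
  rcases h1.eq_or_lt with rfl | h1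
  · exact h.mid _ hu (he ▸ h'.l)
  rcases h2.eq_or_lt with rfl | h2
  · exact h.mid _ hu (he ▸ h'.r)
  by_cases hf : e.1 = e'.1
  · exact hne (h.eq_of_mem h' hf hu ⟨h1, h2⟩)
  · exact hc ⟨hf, u, hu, ⟨h1, h2⟩, he⟩

lemma Seg.once {e e' u v} (h : A.Seg R e) (h' : A.Seg R e') (hf : e.1 ≠ e'.1) (huv : u < v)
    (h1 : e.2.1 ≤ u) (h2 : v ≤ e.2.2) (h3 : e'.2.1 ≤ u) (h4 : v ≤ e'.2.2)
    (eu : A.F e.1 u = A.F e'.1 u) (ev : A.F e.1 v = A.F e'.1 v) : False := by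
  rcases A.lens _ _ u v hf huv eu ev with m | m
  · exact h.mark ⟨h1.trans_lt m.1, m.2.trans_le h2⟩
  · exact h'.mark ⟨h3.trans_lt m.1, m.2.trans_le h4⟩

/-- The point `x` sees the arc `e` right above it. -/
def Sees (A : Arr ι) (E : Finset (ι × ℝ × ℝ)) (e : ι × ℝ × ℝ) (x : ℝ × ℝ) : Prop :=
  x.1 ∈ Set.Ioo e.2.1 e.2.2 ∧ x.2 < A.F e.1 x.1 ∧
    ∀ g ∈ E, x.1 ∈ Set.Ioo g.2.1 g.2.2 → x.2 < A.F g.1 x.1 → A.F e.1 x.1 ≤ A.F g.1 x.1

lemma exists_sees {S : Finset (ℝ × ℝ)} {E : Finset (ι × ℝ × ℝ)} (hE : ∀ e ∈ E, A.Seg R e)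
    (hl : ∀ e ∈ E, A.lf e ∈ S) (hr : ∀ e ∈ E, A.rt e ∈ S)
    (hc : ∀ e ∈ E, ∀ e' ∈ E, ¬ A.Cross e e') {e e0 e2} (he : e ∈ E) (he0 : e0 ∈ E)
    (l0 : A.lf e0 = A.lf e) (s0 : A.s e0.1 e.2.1 < A.s e.1 e.2.1) (he2 : e2 ∈ E)
    (r2 : A.rt e2 = A.rt e) (s2 : A.s e.1 e.2.2 < A.s e2.1 e.2.2) : ∃ x ∈ S, A.Sees E e x := by
  obtain ⟨e1, he1', hmax⟩ := exists_max_image
    (E.filter fun g => A.lf g = A.lf e ∧ A.s g.1 e.2.1 < A.s e.1 e.2.1) (fun g => A.s g.1 e.2.1)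
    ⟨e0, mem_filter.2 ⟨he0, l0, s0⟩⟩
  obtain ⟨he1, l1, s1⟩ := mem_filter.1 he1'
  clear he1'
  have ne : ∀ g ∈ E, ∀ g' ∈ E, g ≠ g' → ∀ u ∈ Set.Ioo g.2.1 g.2.2, g'.2.1 ≤ u → u ≤ g'.2.2 →
      A.F g.1 u ≠ A.F g'.1 u := fun g hg g' hg' hne u hu h1 h2 =>
    (hE g hg).ne (hE g' hg') hne (hc g hg g' hg') hu h1 h2
  obtain ⟨f, t, t'⟩ := e
  obtain ⟨f1, t1, t1'⟩ := e1
  obtain ⟨f2, t2, t2'⟩ := e2
  simp only [lf, rt, Prod.mk.injEq] at l1 r2 s1 s2
  obtain ⟨rfl, l1⟩ := l1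
  obtain ⟨rfl, r2⟩ := r2
  have tt : t1 < t2' := (hE _ he).lt
  have f1f : f1 ≠ f := by rintro rfl; exact lt_irrefl _ s1
  have f2f : f2 ≠ f := by rintro rfl; exact lt_irrefl _ s2
  have n1 : (f, t1, t2') ≠ (f1, t1, t1') := fun h => f1f (congrArg Prod.fst h).symm
  have n2 : (f, t1, t2') ≠ (f2, t2, t2') := fun h => f2f (congrArg Prod.fst h).symm
  have hb : ∀ u, t1 < u → u ≤ t2' → u ≤ t1' → A.F f1 u ≤ A.F f u := fun u a b c =>
    le_closure a (fun y hy => (below_right a (fun z hz =>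
      (ne _ he _ he1 n1 z ⟨hz.1, hz.2.trans_le b⟩ hz.1.le (hz.2.le.trans c)).symm) l1 s1 y hy).le)
      u ⟨a.le, le_rfl⟩
  have hb2 : ∀ u, u < t2' → t1 ≤ u → t2 ≤ u → A.F f2 u ≤ A.F f u := fun u a b c =>
    le_closure a (fun y hy => (below_left a (fun z hz =>
      (ne _ he _ he2 n2 z ⟨b.trans_lt hz.1, hz.2⟩ (c.trans hz.1.le) hz.2.le).symm) r2 s2 y hy).le)
      u ⟨le_rfl, a.le⟩
  let X := S.filter fun x => t1 < x.1 ∧ x.1 < t2' ∧ x.1 ≤ t1' ∧ A.F f1 x.1 ≤ x.2 ∧ x.2 < A.F f x.1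
  have hX : X.Nonempty := by
    rcases lt_or_ge t1' t2' with c | c
    · have a : t1 < t1' := (hE _ he1).lt
      exact ⟨_, mem_filter.2 ⟨hr _ he1, a, c, le_rfl, le_rfl, lt_of_le_of_ne (hb _ a c.le le_rfl)
        (ne _ he _ he1 n1 _ ⟨a, c⟩ a.le le_rfl).symm⟩⟩
    · have a : t2 < t2' := (hE _ he2).lt
      have w1 : A.F f1 t2' < A.F f2 t2' := by
        rw [r2]
        exact lt_of_le_of_ne (hb _ tt le_rfl c) fun h =>
          (hE _ he1).once (hE _ he) f1f tt le_rfl c le_rfl le_rfl l1 h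
      have n3 : (f2, t2, t2') ≠ (f1, t1, t1') := fun h => by
        rw [show f2 = f1 from congrArg Prod.fst h] at w1
        exact lt_irrefl _ w1
      have w2 : ∀ u, u < t2' → t1 ≤ u → t2 ≤ u → A.F f1 u ≤ A.F f2 u := fun u a b d =>
        stay_left (fun z hz => (ne _ he2 _ he1 n3 z ⟨d.trans_lt hz.1, hz.2⟩ (b.trans hz.1.le)
          (hz.2.le.trans c)).symm) w1 u ⟨le_rfl, a.le⟩
      have b : t1 < t2 := by
        by_contra b
        have b := not_lt.1 b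
        exact (hE _ he2).once (hE _ he) f2f tt b le_rfl le_rfl le_rfl
          (le_antisymm (hb2 _ tt le_rfl b) (l1 ▸ w2 _ tt le_rfl b)) r2
      exact ⟨_, mem_filter.2 ⟨hl _ he2, b, a, a.le.trans c, w2 _ a b.le le_rfl,
        lt_of_le_of_ne (hb2 _ a b.le le_rfl) (ne _ he _ he2 n2 _ ⟨b, a⟩ le_rfl a.le).symm⟩⟩
  obtain ⟨x, hx, hmin⟩ := exists_min_image X Prod.fst hX
  obtain ⟨hxS, x1, x2, x3, x4, x5⟩ := mem_filter.1 hx
  refine ⟨x, hxS, ⟨x1, x2⟩, x5, fun g hg g1 g2 => ?_⟩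
  by_contra g3
  obtain ⟨f3, t3, t3'⟩ := g
  replace g3 : A.F f3 x.1 < A.F f x.1 := not_le.1 g3
  have g4 : A.F f1 x.1 < A.F f3 x.1 := x4.trans_lt g2
  have f3f : f3 ≠ f := by rintro rfl; exact lt_irrefl _ g3
  have f31 : f3 ≠ f1 := by rintro rfl; exact lt_irrefl _ g4
  have n4 : (f3, t3, t3') ≠ (f, t1, t2') := fun h => f3f (congrArg Prod.fst h)
  have n5 : (f3, t3, t3') ≠ (f1, t1, t1') := fun h => f31 (congrArg Prod.fst h)
  have u1 : ∀ u, u ≤ x.1 → t1 ≤ u → t3 ≤ u → A.F f3 u ≤ A.F f u := fun u a b c =>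
    stay_left (fun z hz => ne _ hg _ he n4 z ⟨c.trans_lt hz.1, hz.2.trans g1.2⟩ (b.trans hz.1.le)
      (hz.2.trans x2).le) g3 u ⟨le_rfl, a⟩
  have u2 : ∀ u, u ≤ x.1 → t1 ≤ u → t3 ≤ u → A.F f1 u ≤ A.F f3 u := fun u a b c =>
    stay_left (fun z hz => (ne _ hg _ he1 n5 z ⟨c.trans_lt hz.1, hz.2.trans g1.2⟩
      (b.trans hz.1.le) (hz.2.le.trans x3)).symm) g4 u ⟨le_rfl, a⟩
  have g5 : t3 < x.1 := g1.1
  rcases lt_trichotomy t1 t3 with c | c | c
  · exact absurd (hmin (A.lf (f3, t3, t3')) (mem_filter.2 ⟨hl _ hg, c, g5.trans x2, g5.le.trans x3,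
      u2 _ g5.le c.le le_rfl, lt_of_le_of_ne (u1 _ g5.le c.le le_rfl)
        (ne _ he _ hg n4.symm _ ⟨c, g5.trans x2⟩ le_rfl (hE _ hg).lt.le).symm⟩)) (not_le.2 g5)
  · subst c
    have e3 : A.F f3 t1 = A.F f t1 :=
      le_antisymm (u1 _ x1.le le_rfl le_rfl) (l1 ▸ u2 _ x1.le le_rfl le_rfl)
    have v1 := slope_right e3 x1 fun z hz => u1 z hz.2.le hz.1.le hz.1.le
    have v2 := slope_right (l1.trans e3.symm) x1 fun z hz => u2 z hz.2.le hz.1.le hz.1.le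
    exact f31 (A.trans _ _ t1 (e3.trans l1.symm) (le_antisymm (hmax (f3, t1, t3')
      (mem_filter.2 ⟨hg, Prod.ext rfl e3,
        lt_of_le_of_ne v1 fun h => f3f (A.trans _ _ _ e3 h)⟩)) v2))
  · exact ne _ hg _ he n4 t1 ⟨c, x1.trans g1.2⟩ le_rfl tt.le
      (le_antisymm (u1 _ x1.le le_rfl c.le) (l1 ▸ u2 _ x1.le le_rfl c.le))

/-- A non-crossing drawing has at most three times as many edges as vertices. -/
lemma planar {S : Finset (ℝ × ℝ)} {E : Finset (ι × ℝ × ℝ)} (hE : ∀ e ∈ E, A.Seg R e)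
    (hl : ∀ e ∈ E, A.lf e ∈ S) (hr : ∀ e ∈ E, A.rt e ∈ S)
    (hc : ∀ e ∈ E, ∀ e' ∈ E, ¬ A.Cross e e') : #E ≤ 3 * #S := by
  have s1 : #{e ∈ E | ∀ g ∈ E, A.lf g = A.lf e → A.s e.1 e.2.1 ≤ A.s g.1 e.2.1} ≤ #S := by
    refine card_le_card_of_injOn A.lf (fun e he => hl e (mem_filter.1 he).1) fun e he g hg h => ?_
    obtain ⟨a, b⟩ := mem_filter.1 he
    obtain ⟨c, d⟩ := mem_filter.1 hg
    have t : e.2.1 = g.2.1 := (Prod.ext_iff.1 h).1
    have y : A.F e.1 e.2.1 = A.F g.1 g.2.1 := (Prod.ext_iff.1 h).2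
    exact (hE e a).eq_of_left (hE g c)
      (A.trans _ _ e.2.1 (t ▸ y) (le_antisymm (b g c h.symm) (t ▸ d e a h))) t
  have s2 : #{e ∈ E | ∀ g ∈ E, A.rt g = A.rt e → A.s g.1 e.2.2 ≤ A.s e.1 e.2.2} ≤ #S := by
    refine card_le_card_of_injOn A.rt (fun e he => hr e (mem_filter.1 he).1) fun e he g hg h => ?_
    obtain ⟨a, b⟩ := mem_filter.1 he
    obtain ⟨c, d⟩ := mem_filter.1 hg
    have t : e.2.2 = g.2.2 := (Prod.ext_iff.1 h).1
    have y : A.F e.1 e.2.2 = A.F g.1 g.2.2 := (Prod.ext_iff.1 h).2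
    exact (hE e a).eq_of_right (hE g c)
      (A.trans _ _ e.2.2 (t ▸ y) (le_antisymm (t ▸ d e a h) (b g c h.symm))) t
  have s3 : #{e ∈ E | ∃ x ∈ S, A.Sees E e x} ≤ #S := by
    refine card_le_card_of_forall_subsingleton (A.Sees E) (fun e he => (mem_filter.1 he).2)
      fun x _ e he g hg => ?_
    have a := (mem_filter.1 he.1).1
    have c := (mem_filter.1 hg.1).1
    by_contra hne
    exact (hE e a).ne (hE g c) hne (hc e a g c) he.2.1 hg.2.1.1.le hg.2.1.2.le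
      (le_antisymm (he.2.2.2 g c hg.2.1 hg.2.2.1) (hg.2.2.2 e a he.2.1 he.2.2.1))
  have hsub : E ⊆ {e ∈ E | ∀ g ∈ E, A.lf g = A.lf e → A.s e.1 e.2.1 ≤ A.s g.1 e.2.1} ∪
      {e ∈ E | ∀ g ∈ E, A.rt g = A.rt e → A.s g.1 e.2.2 ≤ A.s e.1 e.2.2} ∪
      {e ∈ E | ∃ x ∈ S, A.Sees E e x} := by
    intro e he
    simp only [mem_union, mem_filter, he, true_and]
    by_contra h
    simp only [not_or, not_forall, not_le] at h
    obtain ⟨⟨⟨e0, a, b, c⟩, e2, a', b', c'⟩, h⟩ := h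
    exact h (exists_sees hE hl hr hc he a b c a' b' c')
  have := (card_le_card hsub).trans ((card_union_le _ _).trans
    (Nat.add_le_add_right (card_union_le _ _) _))
  omega

end Arr

end Pool.Agent.Lib.MP_596974_co
end

-- part Pool.Agent.Lib.MP_596974_co.ST
section

/-!
# The crossing inequality, the incidence bound and many vertices
-/

namespace Pool.Agent.Lib.MP_596974_co

open Finset Classical

lemma sum_weight {α : Type} [DecidableEq α] (U T : Finset α) (hT : T ⊆ U) (p : ℝ) :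
    ∑ S ∈ U.powerset, (if T ⊆ S then p ^ #S * (1 - p) ^ #(U \ S) else 0) = p ^ #T := by
  have h := prod_add (fun _ : α => p) (fun x => if x ∈ T then 0 else 1 - p) U
  have h1 : ∏ x ∈ U, (p + if x ∈ T then 0 else 1 - p) = p ^ #T := by
    rw [prod_congr rfl (g := fun x => if x ∈ T then p else 1) fun x _ => by split_ifs <;> ring,
      prod_ite_mem, inter_eq_right.2 hT, prod_const]
  rw [← h1, h]
  refine sum_congr rfl fun S _ => ?_
  rw [prod_const]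
  split_ifs with hS
  · rw [prod_congr rfl (g := fun _ => 1 - p) fun x hx =>
      if_neg fun h => (mem_sdiff.1 hx).2 (hS h), prod_const]
  · obtain ⟨x, h1, h2⟩ := not_subset.1 hS
    rw [prod_eq_zero (f := fun x => if x ∈ T then (0 : ℝ) else 1 - p) (mem_sdiff.2 ⟨hT h1, h2⟩)
      (if_pos h1), mul_zero]

lemma sum_weight_card {α β : Type} [DecidableEq α] (U : Finset α) (E : Finset β)
    (T : β → Finset α) (k : ℕ)
    (hT : ∀ e ∈ E, T e ⊆ U ∧ #(T e) = k) (p : ℝ) :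
    ∑ S ∈ U.powerset, p ^ #S * (1 - p) ^ #(U \ S) * #{e ∈ E | T e ⊆ S} = p ^ k * #E := by
  simp only [card_filter, Nat.cast_sum, mul_sum, Nat.cast_ite, Nat.cast_one, Nat.cast_zero,
    mul_ite, mul_one, mul_zero]
  rw [sum_comm, sum_congr rfl (g := fun _ => p ^ k) fun e he => by
    rw [sum_weight U _ (hT e he).1, (hT e he).2], sum_const, nsmul_eq_mul, mul_comm]

namespace Arr

variable {ι : Type} [Fintype ι] {A : Arr ι} {R : Finset (ℝ × ℝ)}

/-- All arcs. -/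
noncomputable def Segs (A : Arr ι) (R : Finset (ℝ × ℝ)) : Finset (ι × ℝ × ℝ) :=
  {e ∈ univ ×ˢ (R.image Prod.fst ×ˢ R.image Prod.fst) | A.Seg R e}

lemma mem_Segs {e} : e ∈ A.Segs R ↔ A.Seg R e := by
  simp only [Segs, mem_filter, mem_product, mem_univ, true_and, and_iff_right_iff_imp]
  exact fun h => ⟨mem_image.2 ⟨_, h.l, rfl⟩, mem_image.2 ⟨_, h.r, rfl⟩⟩

/-- Ordered pairs of curves with a common point. -/
noncomputable def Cr (A : Arr ι) : Finset (ι × ι × ℝ) :=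
  {q ∈ univ ×ˢ A.Inc | q.1 ≠ q.2.1 ∧ A.F q.1 q.2.2 = A.F q.2.1 q.2.2}

lemma mem_Cr {q} : q ∈ A.Cr ↔ q.1 ≠ q.2.1 ∧ A.F q.1 q.2.2 = A.F q.2.1 q.2.2 := by
  simp only [Cr, mem_filter, mem_product, mem_univ, true_and, and_iff_right_iff_imp, mem_Inc]
  exact fun h => ⟨q.1, h.1, h.2⟩

lemma card_segs (J : Finset (ι × ℝ)) (hJ : ∀ p ∈ J, (p.2, A.F p.1 p.2) ∈ R) :
    #J ≤ #(A.Segs R) + 2 * Fintype.card ι := by
  let N : ι × ℝ → ℝ → Prop := fun p w =>
    p.2 < w ∧ (w, A.F p.1 w) ∈ R ∧ ∀ u ∈ Set.Ioo p.2 w, (u, A.F p.1 u) ∉ R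
  have nx : ∀ p q : ι × ℝ, q ∈ J → p.1 = q.1 → p.2 < q.2 → ∃ w, N p w := fun p q hq e l => by
    obtain ⟨v, hv, hm⟩ := exists_min_image (R.filter fun v => p.2 < v.1 ∧ v.2 = A.F p.1 v.1)
      Prod.fst ⟨_, mem_filter.2 ⟨hJ q hq, l, by rw [e]⟩⟩
    obtain ⟨a, b, c⟩ := mem_filter.1 hv
    exact ⟨v.1, b, by rw [← c]; exact a, fun u hu h =>
      absurd (hm _ (mem_filter.2 ⟨h, hu.1, rfl⟩)) (not_le.2 hu.2)⟩
  have s1 : #{p ∈ J | ¬ ∃ w, N p w} ≤ Fintype.card ι := by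
    refine card_le_card_of_injOn Prod.fst (fun p _ => mem_univ _) fun p hp q hq e => ?_
    simp only [coe_filter, Set.mem_ofPred_eq] at hp hq
    refine Prod.ext e ?_
    rcases lt_trichotomy p.2 q.2 with l | l | l
    · exact absurd (nx p q hq.1 e l) hp.2
    · exact l
    · exact absurd (nx q p hp.1 e.symm l) hq.2
  have s2 : #{p ∈ J | ∃ w, N p w ∧ A.c p.1 ∈ Set.Ioo p.2 w} ≤ Fintype.card ι := by
    refine card_le_card_of_injOn Prod.fst (fun p _ => mem_univ _) fun p hp q hq e => ?_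
    simp only [coe_filter, Set.mem_ofPred_eq] at hp hq
    obtain ⟨hp, w, a, b⟩ := hp
    obtain ⟨hq, w', a', b'⟩ := hq
    refine Prod.ext e ?_
    rcases lt_trichotomy p.2 q.2 with l | l | l
    · exact absurd (e ▸ hJ q hq) (a.2.2 q.2 ⟨l, b'.1.trans (e ▸ b.2)⟩)
    · exact l
    · exact absurd (e ▸ hJ p hp) (a'.2.2 p.2 ⟨l, b.1.trans (e ▸ b'.2)⟩)
  have s3 : #{p ∈ J | ∃ w, N p w ∧ A.c p.1 ∉ Set.Ioo p.2 w} ≤ #(A.Segs R) := by
    refine card_le_card_of_forall_subsingleton (fun p (e : ι × ℝ × ℝ) => p = (e.1, e.2.1)) (fun p hp => ?_)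
      fun e _ p hp q hq => hp.2.trans hq.2.symm
    obtain ⟨hp, w, a, b⟩ := mem_filter.1 hp
    exact ⟨(p.1, p.2, w), mem_Segs.2 ⟨a.1, hJ p hp, a.2.1, a.2.2, b⟩, rfl⟩
  have hsub : J ⊆ {p ∈ J | ¬ ∃ w, N p w} ∪ {p ∈ J | ∃ w, N p w ∧ A.c p.1 ∈ Set.Ioo p.2 w} ∪
      {p ∈ J | ∃ w, N p w ∧ A.c p.1 ∉ Set.Ioo p.2 w} := by
    intro p hp
    simp only [mem_union, mem_filter, hp, true_and]
    by_contra h
    simp only [not_or, not_not] at h
    obtain ⟨⟨⟨w, a⟩, b⟩, c⟩ := h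
    exact c ⟨w, a, fun h => b ⟨w, a, h⟩⟩
  have := (card_le_card hsub).trans ((card_union_le _ _).trans
    (Nat.add_le_add_right (card_union_le _ _) _))
  omega

lemma card_cross : #{q ∈ A.Segs R ×ˢ A.Segs R | A.Cross q.1 q.2} ≤ #A.Cr := by
  refine card_le_card_of_forall_subsingleton (fun q c => c.1 = q.1.1 ∧ c.2.1 = q.2.1 ∧
    c.2.2 ∈ Set.Ioo q.1.2.1 q.1.2.2 ∧ c.2.2 ∈ Set.Ioo q.2.2.1 q.2.2.2) (fun q hq => ?_)
    fun c _ q hq q' hq' => ?_
  · obtain ⟨-, a, u, b, c, d⟩ := mem_filter.1 hq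
    exact ⟨(q.1.1, q.2.1, u), mem_Cr.2 ⟨a, d⟩, rfl, rfl, b, c⟩
  · have a := mem_product.1 (mem_filter.1 hq.1).1
    have b := mem_product.1 (mem_filter.1 hq'.1).1
    exact Prod.ext ((mem_Segs.1 a.1).eq_of_mem (mem_Segs.1 b.1) (hq.2.1.symm.trans hq'.2.1)
      hq.2.2.2.1 hq'.2.2.2.1) ((mem_Segs.1 a.2).eq_of_mem (mem_Segs.1 b.2)
        (hq.2.2.1.symm.trans hq'.2.2.1) hq.2.2.2.2 hq'.2.2.2.2)

omit [Fintype ι] in
lemma Cross.card {e e'} (h : A.Seg R e) (h' : A.Seg R e') (c : A.Cross e e') :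
    #({A.lf e, A.rt e, A.lf e', A.rt e'} : Finset (ℝ × ℝ)) = 4 := by
  obtain ⟨hf, u, a, b, eu⟩ := c
  have n1 : A.lf e ≠ A.rt e := fun x => h.lt.ne (Prod.ext_iff.1 x).1
  have n2 : A.lf e' ≠ A.rt e' := fun x => h'.lt.ne (Prod.ext_iff.1 x).1
  have n3 : A.lf e ≠ A.rt e' := fun x => (a.1.trans b.2).ne (Prod.ext_iff.1 x).1
  have n4 : A.rt e ≠ A.lf e' := fun x => (b.1.trans a.2).ne' (Prod.ext_iff.1 x).1
  have n5 : A.lf e ≠ A.lf e' := fun x => by
    have t : e.2.1 = e'.2.1 := (Prod.ext_iff.1 x).1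
    have y : A.F e.1 e.2.1 = A.F e'.1 e'.2.1 := (Prod.ext_iff.1 x).2
    exact h.once h' hf a.1 le_rfl a.2.le t.ge b.2.le (t ▸ y) eu
  have n6 : A.rt e ≠ A.rt e' := fun x => by
    have t : e.2.2 = e'.2.2 := (Prod.ext_iff.1 x).1
    have y : A.F e.1 e.2.2 = A.F e'.1 e'.2.2 := (Prod.ext_iff.1 x).2
    exact h.once h' hf a.2 a.1.le le_rfl b.1.le t.le eu (t ▸ y)
  rw [card_insert_of_notMem (by simp [n1, n3, n5]), card_insert_of_notMem (by simp [n4, n6]),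
    card_pair n2]

lemma crossing_sub {S S' : Finset (ℝ × ℝ)} {E : Finset (ι × ℝ × ℝ)}
    {Q : Finset ((ι × ℝ × ℝ) × (ι × ℝ × ℝ))}
    (hE : ∀ e, e ∈ E ↔ e ∈ A.Segs R ∧ {A.lf e, A.rt e} ⊆ S) (hS : S ⊆ S')
    (hQ : ∀ q ∈ {q ∈ A.Segs R ×ˢ A.Segs R | A.Cross q.1 q.2},
      {A.lf q.1, A.rt q.1, A.lf q.2, A.rt q.2} ⊆ S → q ∈ Q) : #E ≤ 3 * #S' + #Q := by
  have hE' : ∀ e ∈ E, A.Seg R e ∧ A.lf e ∈ S ∧ A.rt e ∈ S := fun e he =>
    ⟨mem_Segs.1 ((hE e).1 he).1, ((hE e).1 he).2 (by simp), ((hE e).1 he).2 (by simp)⟩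
  rw [← card_filter_add_card_filter_not (s := E) fun e => ∀ e' ∈ E, ¬ A.Cross e e']
  refine Nat.add_le_add ((planar (R := R) (S := S) (fun e he => (hE' e (mem_filter.1 he).1).1)
    (fun e he => (hE' e (mem_filter.1 he).1).2.1) (fun e he => (hE' e (mem_filter.1 he).1).2.2)
    fun e he e' he' => (mem_filter (s := E) (p := fun e => ∀ e' ∈ E, ¬ A.Cross e e')).1 he |>.2 e'
      (mem_filter.1 he').1).trans
      (Nat.mul_le_mul_left _ (card_le_card hS)))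
    (card_le_card_of_forall_subsingleton (fun e (q : (ι × ℝ × ℝ) × (ι × ℝ × ℝ)) => e = q.1)
      (fun e he => ?_)
      fun q _ e he e' he' => he.2.trans he'.2.symm)
  obtain ⟨a, b⟩ := mem_filter.1 he
  simp only [not_forall, not_not] at b
  obtain ⟨e', a', c⟩ := b
  exact ⟨(e, e'), hQ _ (mem_filter.2 ⟨mem_product.2 ⟨((hE e).1 a).1, ((hE e').1 a').1⟩, c⟩)
    (insert_subset (hE' e a).2.1 (insert_subset (hE' e a).2.2 (insert_subset (hE' e' a').2.1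
      (singleton_subset_iff.2 (hE' e' a').2.2)))), rfl⟩

lemma crossing (p : ℝ) (h0 : 0 ≤ p) (h1 : p ≤ 1) :
    p ^ 2 * #(A.Segs R) ≤ 3 * (p * #R) + p ^ 4 * #A.Cr := by
  have e1 := sum_weight_card R (A.Segs R) (fun e => {A.lf e, A.rt e}) 2 (fun e he => by
    have h := mem_Segs.1 he
    exact ⟨insert_subset h.l (singleton_subset_iff.2 h.r),
      card_pair fun x => h.lt.ne (Prod.ext_iff.1 x).1⟩) p
  have e2 := sum_weight_card R R (fun x => {x}) 1 (fun x hx => by simpa using hx) p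
  have e3 := sum_weight_card R {q ∈ A.Segs R ×ˢ A.Segs R | A.Cross q.1 q.2}
    (fun q => {A.lf q.1, A.rt q.1, A.lf q.2, A.rt q.2}) 4 (fun q hq => by
      obtain ⟨a, c⟩ := mem_filter.1 hq
      have h := mem_Segs.1 (mem_product.1 a).1
      have h' := mem_Segs.1 (mem_product.1 a).2
      exact ⟨insert_subset h.l (insert_subset h.r (insert_subset h'.l
        (singleton_subset_iff.2 h'.r))), c.card h h'⟩) p
  have e4 : p ^ 4 * (#{q ∈ A.Segs R ×ˢ A.Segs R | A.Cross q.1 q.2} : ℝ) ≤ p ^ 4 * #A.Cr :=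
    mul_le_mul_of_nonneg_left (Nat.cast_le.2 card_cross) (by positivity)
  refine le_trans ?_ (add_le_add_right e4 _)
  rw [pow_one] at e2
  rw [← e1, ← e2, ← e3, mul_sum, ← sum_add_distrib]
  refine sum_le_sum fun S hS => ?_
  rw [mul_left_comm, ← mul_add]
  refine mul_le_mul_of_nonneg_left ?_ (mul_nonneg (pow_nonneg h0 _) (pow_nonneg (by linarith) _))
  norm_cast
  exact crossing_sub (R := R) (S := S) (fun e => mem_filter)
    (fun x hx => mem_filter.2 ⟨mem_powerset.1 hS hx, singleton_subset_iff.2 hx⟩)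
    fun q a b => mem_filter.2 ⟨a, b⟩

/-- The number of flags at points on at least `m` curves. -/
noncomputable def rich (A : Arr ι) (m : ℕ) : ℕ := #{p ∈ A.Inc | m ≤ A.mult (p.2, A.F p.1 p.2)}

lemma rich_le (m : ℕ) (hm : 6 ≤ m) :
    (A.rich m : ℝ) ≤ 4 * Fintype.card ι + 72 * #A.Cr / (m : ℝ) ^ 2 := by
  have hm' : (6 : ℝ) ≤ m := by exact_mod_cast hm
  have hm0 : (0 : ℝ) < m := by linarith
  let R := {v ∈ A.Vx | m ≤ A.mult v}
  have h1 : (A.rich m : ℝ) ≤ #(A.Segs R) + 2 * Fintype.card ι := by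
    exact_mod_cast card_segs (R := R) _ fun p hp =>
      mem_filter.2 ⟨mem_image_of_mem _ (mem_filter.1 hp).1, (mem_filter.1 hp).2⟩
  have h2 : (m : ℝ) * #R ≤ A.rich m := by
    norm_cast
    rw [card_filter, rich, card_filter, sum_flags (A := A) fun v => if m ≤ A.mult v then 1 else 0,
      mul_sum]
    refine sum_le_sum fun v _ => ?_
    split_ifs <;> simp [*]
  have h3 := crossing (A := A) (R := R) (6 / m) (by positivity) ((div_le_one hm0).2 hm')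
  have h4 : (#(A.Segs R) : ℝ) ≤ m * #R / 2 + 36 * #A.Cr / (m : ℝ) ^ 2 := by
    refine le_of_mul_le_mul_left (h3.trans (le_of_eq ?_)) (by positivity)
    field_simp
    ring
  have : 72 * #A.Cr / (m : ℝ) ^ 2 = 2 * (36 * #A.Cr / (m : ℝ) ^ 2) := by ring
  linarith

lemma card_Cr_le (K m : ℕ) (hK : ∀ v ∈ A.Vx, A.mult v ≤ K) :
    #A.Cr ≤ m * #A.Inc + ∑ j ∈ Ioc m K, A.rich j := by
  have h1 : #A.Cr ≤ ∑ p ∈ A.Inc, A.mult (p.2, A.F p.1 p.2) := by
    rw [Cr, card_filter, sum_product_right]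
    refine sum_le_sum fun p _ => ?_
    rw [mult, card_filter]
    refine sum_le_sum fun g _ => ?_
    by_cases h : A.F g p.2 = A.F p.1 p.2 <;> simp [h]
    split_ifs <;> simp
  refine h1.trans ?_
  simp only [rich, card_filter]
  rw [sum_comm, mul_comm, ← smul_eq_mul, ← sum_const, ← sum_add_distrib]
  refine sum_le_sum fun p hp => ?_
  have := hK _ (mem_image_of_mem _ hp)
  rw [← card_filter]
  have h2 : Ioc m (A.mult (p.2, A.F p.1 p.2)) ⊆
      {j ∈ Ioc m K | j ≤ A.mult (p.2, A.F p.1 p.2)} := fun j hj => by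
    simp only [mem_filter, mem_Ioc] at hj ⊢
    omega
  have := card_le_card h2
  rw [Nat.card_Ioc] at this
  omega

/-- Many flags unless one point lies on many curves. -/
theorem beck (K : ℕ) (hK : ∀ v ∈ A.Vx, A.mult v ≤ K) :
    (#A.Cr : ℝ) ≤ 288 * #A.Inc + 8 * Fintype.card ι * K := by
  have h1 : (#A.Cr : ℝ) ≤ 144 * #A.Inc + ∑ j ∈ Ioc 144 K, (A.rich j : ℝ) := by
    exact_mod_cast card_Cr_le K 144 hK
  have h2 : ∑ j ∈ Ioc 144 K, (A.rich j : ℝ) ≤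
      ∑ j ∈ Ioc 144 K, (4 * Fintype.card ι + 72 * #A.Cr * (((j : ℝ) ^ 2)⁻¹)) :=
    sum_le_sum fun j hj => rich_le j (by have := (mem_Ioc.1 hj).1; omega)
  have h3 : ∑ j ∈ Ioc 144 K, (((j : ℝ) ^ 2)⁻¹) ≤ 1 / 144 := by
    rcases le_or_gt 144 K with h | h
    · refine (sum_Ioc_inv_sq_le_sub (by norm_num) h).trans ?_
      have : (0 : ℝ) ≤ (K : ℝ)⁻¹ := by positivity
      norm_num at this ⊢
    · rw [Ioc_eq_empty (by omega), sum_empty]
      norm_num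
  rw [sum_add_distrib, sum_const, ← mul_sum, Nat.card_Ioc, nsmul_eq_mul] at h2
  have h4 : ((K - 144 : ℕ) : ℝ) ≤ K := by exact_mod_cast Nat.sub_le _ _
  have h5 : (0 : ℝ) ≤ #A.Cr := by positivity
  have h6 : (0 : ℝ) ≤ Fintype.card ι := by positivity
  nlinarith

end Arr

end Pool.Agent.Lib.MP_596974_co
end

-- part Pool.Agent.Lib.MP_596974_co.Darts
section

/-!
# The darts of an arrangement
-/

namespace Pool.Agent.Lib.MP_596974_co

open Finset Classical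

namespace Arr

variable {ι : Type} [Fintype ι] (A : Arr ι)

/-- A flag with a direction; `true` points to the right. -/
abbrev Dart : Type := A.Inc × Bool

variable {A}

/-- The dart of a flag. -/
def dart (f : ι) (t : ℝ) (h : A.V f t) (b : Bool) : A.Dart := (⟨(f, t), mem_Inc.2 h⟩, b)

/-- The curve of a dart. -/
def cv (d : A.Dart) : ι := d.1.1.1

/-- The abscissa of a dart. -/
def ps (d : A.Dart) : ℝ := d.1.1.2

lemma dV (d : A.Dart) : A.V (cv d) (ps d) := mem_Inc.1 d.1.2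

lemma dext {d e : A.Dart} (h1 : cv d = cv e) (h2 : ps d = ps e) (h3 : d.2 = e.2) : d = e :=
  Prod.ext (Subtype.ext (Prod.ext h1 h2)) h3

/-- The two darts of an edge. -/
def Edge (d e : A.Dart) : Prop :=
  cv e = cv d ∧ ((d.2 = true ∧ e.2 = false ∧ A.Nx (cv d) (ps d) (ps e)) ∨
    (d.2 = false ∧ e.2 = true ∧ A.Nx (cv d) (ps e) (ps d)))

lemma Edge.symm {d e : A.Dart} (h : Edge d e) : Edge e d := by
  obtain ⟨h1, h2 | h2⟩ := h
  · exact ⟨h1.symm, Or.inr ⟨h2.2.1, h2.1, h1 ▸ h2.2.2⟩⟩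
  · exact ⟨h1.symm, Or.inl ⟨h2.2.1, h2.1, h1 ▸ h2.2.2⟩⟩

lemma Edge.unique {d e e' : A.Dart} (h : Edge d e) (h' : Edge d e') : e = e' := by
  obtain ⟨h1, h2 | h2⟩ := h <;> obtain ⟨h3, h4 | h4⟩ := h'
  · exact dext (h1.trans h3.symm) (h2.2.2.right_unique h4.2.2) (h2.2.1.trans h4.2.1.symm)
  · simp [h2.1] at h4
  · simp [h2.1] at h4
  · exact dext (h1.trans h3.symm) (h2.2.2.left_unique h4.2.2) (h2.2.1.trans h4.2.1.symm)

/-- Edge reversal. -/
noncomputable def rev (d : A.Dart) : A.Dart := if h : ∃ e, Edge d e then h.choose else d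

lemma Edge.rev {d e : A.Dart} (h : Edge d e) : rev d = e := by
  have h' : ∃ e, Edge d e := ⟨e, h⟩
  rw [Arr.rev, dif_pos h']
  exact h'.choose_spec.unique h

lemma rev_cases (d : A.Dart) : Edge d (rev d) ∨ rev d = d := by
  by_cases h : ∃ e, Edge d e
  · obtain ⟨e, h⟩ := h
    exact Or.inl (h.rev ▸ h)
  · exact Or.inr (dif_neg h)

lemma rev_rev (d : A.Dart) : rev (rev d) = d := by
  rcases rev_cases d with h | h
  · exact h.symm.rev
  · rw [h, h]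

/-- The clockwise neighbour. -/
def Rot (d e : A.Dart) : Prop :=
  ps e = ps d ∧ ((e.2 = d.2 ∧ A.Adj (cv e) (cv d) (ps d)) ∨
    (e.2 = !d.2 ∧ A.F (cv e) (ps d) = A.F (cv d) (ps d) ∧ A.IsMin (cv d) (ps d) ∧
      A.IsMax (cv e) (ps d)))

omit [Fintype ι] in
lemma Adj.left_unique {f f' g t} (h : A.Adj f g t) (h' : A.Adj f' g t) : f = f' :=
  A.trans _ _ t (h.eq.trans h'.eq.symm) (le_antisymm
    ((h'.mid f h.eq).resolve_right (not_le.2 h.lt)) ((h.mid f' h'.eq).resolve_right (not_le.2 h'.lt)))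

omit [Fintype ι] in
lemma Adj.right_unique {f g g' t} (h : A.Adj f g t) (h' : A.Adj f g' t) : g = g' :=
  A.trans _ _ t (h.eq.symm.trans h'.eq) (le_antisymm
    ((h.mid g' (h'.eq.symm.trans h.eq)).resolve_left (not_le.2 h'.lt))
    ((h'.mid g (h.eq.symm.trans h'.eq)).resolve_left (not_le.2 h.lt)))

omit [Fintype ι] in
lemma Adj.not_min {f g t} (h : A.Adj f g t) : ¬ A.IsMin g t := fun m => not_le.2 h.lt (m f h.eq)

omit [Fintype ι] in
lemma Adj.not_max {f g t} (h : A.Adj f g t) : ¬ A.IsMax f t :=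
  fun m => not_le.2 h.lt (m g h.eq.symm)

lemma exists_rot (d : A.Dart) : ∃ e, Rot d e := by
  by_cases h : A.IsMin (cv d) (ps d)
  · obtain ⟨k, e, hk⟩ := exists_max (A := A) (cv d) (ps d)
    exact ⟨dart k (ps d) ((dV d).of_eq e) (!d.2), rfl, Or.inr ⟨rfl, e, h, hk⟩⟩
  · simp only [IsMin, not_forall, not_le] at h
    obtain ⟨f, e, hf⟩ := h
    obtain ⟨k, h1, h2⟩ := exists_max_image (univ.filter fun g => A.F g (ps d) = A.F (cv d) (ps d) ∧
      A.s g (ps d) < A.s (cv d) (ps d)) (fun g => A.s g (ps d)) ⟨f, by simp [e, hf]⟩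
    simp only [mem_filter, mem_univ, true_and] at h1 h2
    refine ⟨dart k (ps d) ((dV d).of_eq h1.1) d.2, rfl, Or.inl ⟨rfl, h1.1, h1.2, fun g hg => ?_⟩⟩
    rcases lt_or_ge (A.s g (ps d)) (A.s (cv d) (ps d)) with l | l
    · exact Or.inl (h2 g ⟨hg, l⟩)
    · exact Or.inr l

lemma Rot.right_unique {d e e' : A.Dart} (h : Rot d e) (h' : Rot d e') : e = e' := by
  obtain ⟨h1, h2 | h2⟩ := h <;> obtain ⟨h3, h4 | h4⟩ := h'
  · exact dext (h2.2.left_unique h4.2) (h1.trans h3.symm) (h2.1.trans h4.1.symm)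
  · exact absurd h4.2.2.1 h2.2.not_min
  · exact absurd h2.2.2.1 h4.2.not_min
  · have e := h2.2.1.trans h4.2.1.symm
    exact dext (A.trans _ _ _ e (le_antisymm (h4.2.2.2 _ e) (h2.2.2.2 _ e.symm)))
      (h1.trans h3.symm) (h2.1.trans h4.1.symm)

lemma Rot.left_unique {d d' e : A.Dart} (h : Rot d e) (h' : Rot d' e) : d = d' := by
  obtain ⟨h1, h2⟩ := h
  obtain ⟨h3, h4⟩ := h'
  have p : ps d = ps d' := h1.symm.trans h3
  rw [← p] at h4
  rcases h2 with h2 | h2 <;> rcases h4 with h4 | h4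
  · exact dext (h2.2.right_unique h4.2) p (h2.1.symm.trans h4.1)
  · exact absurd h4.2.2.2 h2.2.not_max
  · exact absurd h2.2.2.2 h4.2.not_max
  · have e := h2.2.1.symm.trans h4.2.1
    exact dext (A.trans _ _ _ e (le_antisymm (h2.2.2.1 _ e.symm) (h4.2.2.1 _ e))) p
      (Bool.not_inj (h2.1.symm.trans h4.1))

/-- Clockwise rotation. -/
noncomputable def rot : Equiv.Perm A.Dart :=
  Equiv.ofBijective (fun d => (exists_rot d).choose) (Finite.injective_iff_bijective.1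
    fun d d' h => (exists_rot d).choose_spec.left_unique (by
      rw [show (exists_rot d).choose = (exists_rot d').choose from h]
      exact (exists_rot d').choose_spec))

lemma rot_spec (d : A.Dart) : Rot d (rot d) := (exists_rot d).choose_spec

lemma Rot.rot {d e : A.Dart} (h : Rot d e) : rot d = e := (rot_spec d).right_unique h

lemma ps_rot (d : A.Dart) : ps (rot d) = ps d := (rot_spec d).1

lemma F_rot (d : A.Dart) : A.F (cv (rot d)) (ps d) = A.F (cv d) (ps d) := by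
  rcases (rot_spec d).2 with h | h
  · exact h.2.eq
  · exact h.2.1

/-- Half turn. -/
def flip (d : A.Dart) : A.Dart := (d.1, !d.2)

lemma flip_flip (d : A.Dart) : flip (flip d) = d := Prod.ext rfl (Bool.not_not d.2)

/-- The dart starts at a triple point. -/
def Tr (d : A.Dart) : Prop := A.mult (ps d, A.F (cv d) (ps d)) = 3

lemma sort3 {v : ℝ × ℝ} (h : A.mult v = 3) : ∃ x y z, A.F x v.1 = v.2 ∧ A.F y v.1 = v.2 ∧
    A.F z v.1 = v.2 ∧ A.s x v.1 < A.s y v.1 ∧ A.s y v.1 < A.s z v.1 ∧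
    ∀ g, A.F g v.1 = v.2 → g = x ∨ g = y ∨ g = z := by
  obtain ⟨x, y, z, xy, xz, yz, hs⟩ := card_eq_three.1 h
  have hm : ∀ g, A.F g v.1 = v.2 ↔ g = x ∨ g = y ∨ g = z := fun g => by
    have := congrArg (g ∈ ·) hs
    simpa using this
  have ex := (hm x).2 (by simp)
  have ey := (hm y).2 (by simp)
  have ez := (hm z).2 (by simp)
  have n1 : A.s x v.1 ≠ A.s y v.1 := fun e => xy (A.trans _ _ _ (ex.trans ey.symm) e)
  have n2 : A.s x v.1 ≠ A.s z v.1 := fun e => xz (A.trans _ _ _ (ex.trans ez.symm) e)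
  have n3 : A.s y v.1 ≠ A.s z v.1 := fun e => yz (A.trans _ _ _ (ey.trans ez.symm) e)
  rcases n1.lt_or_gt with l1 | l1 <;> rcases n2.lt_or_gt with l2 | l2 <;>
    rcases n3.lt_or_gt with l3 | l3
  · exact ⟨x, y, z, ex, ey, ez, l1, l3, fun g hg => by have := (hm g).1 hg; tauto⟩
  · exact ⟨x, z, y, ex, ez, ey, l2, l3, fun g hg => by have := (hm g).1 hg; tauto⟩
  · linarith
  · exact ⟨z, x, y, ez, ex, ey, l2, l1, fun g hg => by have := (hm g).1 hg; tauto⟩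
  · exact ⟨y, x, z, ey, ex, ez, l1, l2, fun g hg => by have := (hm g).1 hg; tauto⟩
  · linarith
  · exact ⟨y, z, x, ey, ez, ex, l3, l2, fun g hg => by have := (hm g).1 hg; tauto⟩
  · exact ⟨z, y, x, ez, ey, ex, l3, l1, fun g hg => by have := (hm g).1 hg; tauto⟩

lemma Tr.spec {d : A.Dart} (h : Tr d) : rot (rot (rot d)) = flip d ∧ cv d ≠ cv (rot d) ∧
    cv (rot d) ≠ cv (rot (rot d)) ∧ cv (rot (rot d)) ≠ cv d := by
  obtain ⟨x, y, z, ex, ey, ez, l1, l2, hm⟩ := sort3 h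
  simp only at ex ey ez l1 l2 hm
  have vx := (dV d).of_eq ex
  have vy := (dV d).of_eq ey
  have vz := (dV d).of_eq ez
  have r1 : ∀ b, rot (dart z _ vz b) = dart y _ vy b := fun b => Rot.rot ⟨rfl, Or.inl ⟨rfl,
    ey.trans ez.symm, l2, fun g hg => by
      rcases hm g (hg.trans ez) with rfl | rfl | rfl
      exacts [Or.inl l1.le, Or.inl le_rfl, Or.inr le_rfl]⟩⟩
  have r2 : ∀ b, rot (dart y _ vy b) = dart x _ vx b := fun b => Rot.rot ⟨rfl, Or.inl ⟨rfl,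
    ex.trans ey.symm, l1, fun g hg => by
      rcases hm g (hg.trans ey) with rfl | rfl | rfl
      exacts [Or.inl le_rfl, Or.inr le_rfl, Or.inr l2.le]⟩⟩
  have r3 : ∀ b, rot (dart x _ vx b) = dart z _ vz (!b) := fun b => Rot.rot ⟨rfl, Or.inr ⟨rfl,
    ez.trans ex.symm, fun g hg => by
      rcases hm g (hg.trans ex) with rfl | rfl | rfl
      exacts [le_rfl, l1.le, (l1.trans l2).le], fun g hg => by
      rcases hm g (hg.trans ez) with rfl | rfl | rfl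
      exacts [(l1.trans l2).le, l2.le, le_rfl]⟩⟩
  have xy : x ≠ y := by rintro rfl; exact lt_irrefl _ l1
  have yz : y ≠ z := by rintro rfl; exact lt_irrefl _ l2
  have xz : x ≠ z := by rintro rfl; exact lt_irrefl _ (l1.trans l2)
  rcases hm (cv d) rfl with e | e | e
  · have hd : d = dart x _ vx d.2 := dext e rfl rfl
    rw [hd, r3, r1, r2]
    exact ⟨rfl, xz, yz.symm, xy.symm⟩
  · have hd : d = dart y _ vy d.2 := dext e rfl rfl
    rw [hd, r2, r3, r1]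
    exact ⟨rfl, xy.symm, xz, yz.symm⟩
  · have hd : d = dart z _ vz d.2 := dext e rfl rfl
    rw [hd, r1, r2, r3]
    exact ⟨rfl, yz.symm, xy.symm, xz⟩

/-- The dart borders a triangle. -/
def Face (d : A.Dart) : Prop := rot (rev (rot (rev (rot (rev d))))) = d ∧ rev d ≠ d

/-- The map of the arrangement. -/
noncomputable def dm (A : Arr ι) : DartMap A.Dart ι where
  ρ := rot
  α := Function.Involutive.toPerm rev rev_rev
  τ := Function.Involutive.toPerm flip flip_flip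
  Tr := Tr
  Good := fun d => Tr d ∧ Face d
  cv := cv
  pos := ps
  sg := fun d => if d.2 then 1 else -1
  αα := rev_rev
  ττ := flip_flip
  tr_ρ := fun d => by simp only [Tr, ps_rot, F_rot]
  ρ3 := fun d h => h.spec.1
  good_tr := fun d h => h.1
  good_face := fun d h => h.2.1
  good_sg := fun d h => by
    change (if (!(rev d).2) = true then (1 : ℝ) else -1) = _
    obtain ⟨-, h2 | h2⟩ := (rev_cases d).resolve_right h.2.2 <;> simp [h2.1, h2.2.1]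
  good_pos := fun d h => by
    change _ < _ * ps (rev d)
    obtain ⟨-, h2 | h2⟩ := (rev_cases d).resolve_right h.2.2
    · simpa [h2.1] using h2.2.2.lt
    · simpa [h2.1] using h2.2.2.lt
  cv_τ := fun d => rfl
  cv_α := fun d => by
    rcases rev_cases d with h | h
    · exact h.1
    · exact congrArg cv h
  pos_ρ := ps_rot

/-- The distinguished dart of a triangle. -/
def Apex (d : A.Dart) : Prop :=
  Face d ∧ Face (rot (rev d)) ∧ Face (rot (rev (rot (rev d)))) ∧ A.IsMax (cv d) (ps d) ∧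
    ¬ A.IsMax (cv (rot (rev d))) (ps (rot (rev d))) ∧
    ¬ A.IsMax (cv (rot (rev (rot (rev d))))) (ps (rot (rev (rot (rev d)))))

lemma apex_of {d1 d2 d3 e1 e2 e3 : A.Dart} (a1 : Edge d1 e1) (b1 : Rot e1 d2) (a2 : Edge d2 e2)
    (b2 : Rot e2 d3) (a3 : Edge d3 e3) (b3 : Rot e3 d1) (m1 : A.IsMax (cv d1) (ps d1))
    (m2 : ¬ A.IsMax (cv d2) (ps d2)) (m3 : ¬ A.IsMax (cv d3) (ps d3)) : Apex d1 := by
  have ne : ∀ {d e : A.Dart}, Edge d e → e ≠ d := by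
    rintro d e ⟨-, h | h⟩ rfl <;> simp [h.1] at h
  simp only [Apex, Face, a1.rev, a2.rev, a3.rev, b1.rot, b2.rot, b3.rot]
  exact ⟨⟨trivial, ne a1⟩, ⟨trivial, ne a2⟩, ⟨trivial, ne a3⟩, m1, m2, m3⟩

lemma apex_up {h x} (hv : A.V h x) (t : A.Tri h x) : Apex (dart h x hv true) := by
  obtain ⟨f, g, u, w, n1, n2, n3, e, m1, m2, a1, a2⟩ := t
  exact apex_of (e1 := dart h w n2.v2 false) (d2 := dart g w n3.v2 false) (e2 := dart g u n3.v1 true)
    (d3 := dart f u n1.v1 true) (e3 := dart f x n1.v2 false) ⟨rfl, Or.inl ⟨rfl, rfl, n2⟩⟩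
    ⟨rfl, Or.inl ⟨rfl, a2⟩⟩ ⟨rfl, Or.inr ⟨rfl, rfl, n3⟩⟩ ⟨rfl, Or.inl ⟨rfl, a1⟩⟩
    ⟨rfl, Or.inl ⟨rfl, rfl, n1⟩⟩ ⟨rfl, Or.inr ⟨rfl, e.symm, m1, m2⟩⟩ m2 a2.not_max a1.not_max

lemma apex_down {h x} (hv : A.V h x) (t : A.neg.Tri h x) :
    Apex (rot (dart h x hv true)) ∧ (rot (dart h x hv true)).2 = false := by
  obtain ⟨f, g, u, w, n1, n2, n3, e, m1, m2, a1, a2⟩ := t
  replace n1 := neg_Nx n1
  replace n2 := neg_Nx n2
  replace n3 := neg_Nx n3
  replace a1 := neg_Adj a1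
  replace a2 := neg_Adj a2
  rw [neg_IsMin] at m1
  rw [neg_IsMax] at m2
  have r : Rot (dart h x hv true) (dart f x n1.v2 false) :=
    ⟨rfl, Or.inr ⟨rfl, neg_injective e, m2, m1⟩⟩
  rw [r.rot]
  exact ⟨apex_of (e1 := dart f u n1.v1 true) (d2 := dart g u n3.v1 true) (e2 := dart g w n3.v2 false)
    (d3 := dart h w n2.v2 false) (e3 := dart h x hv true) ⟨rfl, Or.inr ⟨rfl, rfl, n1⟩⟩
    ⟨rfl, Or.inl ⟨rfl, a1⟩⟩ ⟨rfl, Or.inl ⟨rfl, rfl, n3⟩⟩ ⟨rfl, Or.inl ⟨rfl, a2⟩⟩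
    ⟨rfl, Or.inr ⟨rfl, rfl, n2⟩⟩ r m1 a1.not_max a2.not_max, rfl⟩

lemma card_apex : #{p ∈ A.Inc | A.Tri p.1 p.2} + #{p ∈ A.Inc | A.neg.Tri p.1 p.2} ≤
    #{d : A.Dart | Apex d} := by
  rw [← card_filter_add_card_filter_not (s := univ.filter fun d : A.Dart => Apex d)
    fun d => d.2 = true]
  refine Nat.add_le_add (card_le_card_of_forall_subsingleton (fun p (d : A.Dart) => d.1.1 = p)
    (fun p hp => ?_) fun d _ p hp q hq => hp.2.symm.trans hq.2)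
    (card_le_card_of_forall_subsingleton (fun p (d : A.Dart) => (rot.symm d).1.1 = p)
    (fun p hp => ?_) fun d _ p hp q hq => hp.2.symm.trans hq.2)
  · obtain ⟨h1, h2⟩ := mem_filter.1 hp
    exact ⟨dart p.1 p.2 (mem_Inc.1 h1) true, mem_filter.2 ⟨mem_filter.2 ⟨mem_univ _, apex_up _ h2⟩, rfl⟩, rfl⟩
  · obtain ⟨h1, h2⟩ := mem_filter.1 hp
    refine ⟨rot (dart p.1 p.2 (mem_Inc.1 h1) true), ?_, by simp [dart]⟩
    simp [apex_down _ h2]

lemma card_face : 3 * #{d : A.Dart | Apex d} ≤ #{d : A.Dart | Face d} := by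
  let φ : A.Dart → A.Dart := fun d => rot (rev d)
  have hφ : Function.Injective φ := rot.injective.comp (Function.Involutive.injective rev_rev)
  let B := univ.filter fun d : A.Dart => Apex d
  have hB : ∀ d, d ∈ B ↔ Apex d := fun d => by simp [B]
  have d1 : Disjoint B (B.image φ) := disjoint_left.2 fun d h1 h2 => by
    obtain ⟨e, he, rfl⟩ := mem_image.1 h2
    exact ((hB e).1 he).2.2.2.2.1 ((hB _).1 h1).2.2.2.1
  have d2 : Disjoint B ((B.image φ).image φ) := disjoint_left.2 fun d h1 h2 => by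
    obtain ⟨e', he', rfl⟩ := mem_image.1 h2
    obtain ⟨e, he, rfl⟩ := mem_image.1 he'
    exact ((hB e).1 he).2.2.2.2.2 ((hB _).1 h1).2.2.2.1
  have d3 : Disjoint (B.image φ) ((B.image φ).image φ) := (disjoint_image hφ).2 d1
  have hs : B ∪ (B.image φ ∪ (B.image φ).image φ) ⊆ univ.filter fun d : A.Dart => Face d := by
    intro d hd
    simp only [mem_union, mem_image, hB, mem_filter, mem_univ, true_and] at hd ⊢
    rcases hd with h | ⟨e, he, rfl⟩ | ⟨e', ⟨e, he, rfl⟩, rfl⟩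
    exacts [h.1, he.2.1, he.2.2.1]
  have := card_le_card hs
  rw [card_union_of_disjoint (disjoint_union_right.2 ⟨d1, d2⟩), card_union_of_disjoint d3,
    card_image_of_injective (B.image φ) hφ, card_image_of_injective B hφ] at this
  linarith

lemma card_dart : Fintype.card A.Dart = 2 * #A.Inc := by simp [mul_comm]

/-- Few darts are bad. -/
theorem card_bad : #{d : A.Dart | ¬ A.dm.Good d} ≤ 22 * A.t2 + 60 * Fintype.card ι := by
  obtain ⟨h1, h2⟩ := card_tri (A := A) card_min card_max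
  obtain ⟨-, h3⟩ := card_tri (A := A.neg) (m := #A.Vx)
    (by simpa only [neg_Inc, neg_IsMin] using card_max)
    (by simpa only [neg_Inc, neg_IsMax] using card_min)
  rw [neg_Inc] at h3
  have h4 := card_apex (A := A)
  have h5 := card_face (A := A)
  have h6 := three_V (A := A)
  have h7 := card_not_three (A := A)
  have h8 : #{d : A.Dart | Face d} + #{d : A.Dart | ¬ Face d} = 2 * #A.Inc := by
    rw [← card_dart, ← card_univ]
    exact card_filter_add_card_filter_not _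
  have h9 : #{d : A.Dart | ¬ Tr d} ≤ #{p ∈ A.Inc | A.mult (p.2, A.F p.1 p.2) ≠ 3} * 2 := by
    rw [← Fintype.card_bool, ← card_univ, ← card_product]
    refine card_le_card_of_injOn (fun d => (d.1.1, d.2)) (fun d hd => ?_) fun d _ e _ h => ?_
    · simp only [coe_filter, mem_univ, true_and, Set.mem_ofPred_eq, coe_product, Set.mem_prod,
        coe_univ, Set.mem_univ, and_true] at hd ⊢
      exact ⟨d.1.2, hd⟩
    · exact Prod.ext (Subtype.ext (congrArg Prod.fst h)) (Prod.ext_iff.1 h).2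
  have h10 : #{d : A.Dart | ¬ A.dm.Good d} ≤ #{d : A.Dart | ¬ Tr d} + #{d : A.Dart | ¬ Face d} := by
    refine le_trans (card_le_card fun d hd => ?_) (card_union_le _ _)
    simp only [mem_filter, mem_univ, true_and, mem_union] at hd ⊢
    exact not_and_or.1 hd
  omega

end Arr

end Pool.Agent.Lib.MP_596974_co
end
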