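import Mathlib

/-!
# Ordinary horocycles in the Poincare disk
-/

namespace Pool.Agent.Lib.MP_596974_co

/-- A horocycle of the Poincare disk: a Euclidean circle of radius `ρ < 1` internally tangent to
the unit circle, without the point of tangency. -/
def IsHorocycle (H : Set ℂ) : Prop :=
  ∃ (c : ℂ) (ρ : ℝ), 0 < ρ ∧ ρ < 1 ∧ ‖c‖ = 1 - ρ ∧ H = {z | ‖z‖ < 1 ∧ ‖z - c‖ = ρ}

/-- The horocycles that contain exactly two points of `P`. -/
def ordinary (P : Finset ℂ) : Set (Set ℂ) := {H | IsHorocycle H ∧ (H ∩ ↑P).ncard = 2}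

end Pool.Agent.Lib.MP_596974_co
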