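import Pool.Agent.Lib.MP_596974_co.Darts
import Pool.Agent.Lib.MP_596974_co.NoGrid
import Pool.Agent.Lib.MP_596974_co.Defs

-- part Pool.Agent.Lib.MP_596974_co.Quad
section

/-!
# Parabolas of discriminant `-4` have quadratically many simple crossings
-/

namespace Pool.Agent.Lib.MP_596974_co

open Finset Classical

/-- A positive definite form of determinant one. -/
def Pt (x : Fin 3 → ℝ) : Prop := dt x = 1 ∧ 0 < x 0

/-- The polar form. -/
def bl (x : Fin 3 → ℝ) (a b : ℝ) : ℝ := x 0 * a * b + x 1 * (a + b) + x 2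

lemma Pt.ev_eq {x} (h : Pt x) (a : ℝ) : x 0 * ev x a = sl x a ^ 2 + 1 := by
  have := h.1; unfold dt at this; unfold ev sl; linear_combination this

lemma Pt.ev_pos {x} (h : Pt x) (a : ℝ) : 0 < ev x a :=
  (mul_pos_iff_of_pos_left h.2).1 (by rw [h.ev_eq]; positivity)

lemma fin3_ext {x y : Fin 3 → ℝ} (h0 : x 0 = y 0) (h1 : x 1 = y 1) (h2 : x 2 = y 2) : x = y := by
  ext i; fin_cases i <;> assumption

lemma Pt.eq_of_sl {x y} (hx : Pt x) (hy : Pt y) {a : ℝ} (e : ev x a = ev y a)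
    (s : sl x a = sl y a) : x = y := by
  have h0 : x 0 = y 0 := mul_right_cancel₀ (hx.ev_pos a).ne' (by rw [hx.ev_eq, e, hy.ev_eq, s])
  have h1 : x 1 = y 1 := by unfold sl at s; rw [h0] at s; linarith
  exact fin3_ext h0 h1 (by unfold ev at e; rw [h0, h1] at e; linarith)

lemma eq_of_bl {x y : Fin 3 → ℝ} {a b : ℝ} (hab : a ≠ b) (ea : ev x a = ev y a)
    (eb : ev x b = ev y b) (e : bl x a b = bl y a b) : x = y := by
  unfold ev bl at *
  have h := sub_ne_zero.2 hab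
  have h0 : x 0 = y 0 := by
    apply mul_left_cancel₀ (pow_ne_zero 2 h); linear_combination ea + eb - 2 * e
  have h1 : x 1 = y 1 := by
    apply mul_left_cancel₀ h; rw [h0] at ea e; linear_combination ea - e
  exact fin3_ext h0 h1 (by rw [h0, h1] at ea; linarith)

lemma Pt.bl_neg {x y} (hx : Pt x) (hy : Pt y) (hne : x ≠ y) {a b : ℝ} (hab : a ≠ b)
    (ea : ev x a = ev y a) (eb : ev x b = ev y b) : bl y a b = -bl x a b := by
  have h : (bl y a b - bl x a b) * (bl y a b + bl x a b) = 0 := by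
    have h1 := hx.1
    have h2 := hy.1
    have : ev x a * ev x b = ev y a * ev y b := by rw [ea, eb]
    unfold ev dt bl at *
    linear_combination -this + (a - b) ^ 2 * (h1 - h2)
  rcases mul_eq_zero.1 h with h | h
  · exact absurd (eq_of_bl hab ea eb (by linarith)) hne
  · linarith

lemma Pt.mark {x} (hx : Pt x) {a b : ℝ} (hab : a < b) (h : bl x a b ≤ 0) :
    -x 1 / x 0 ∈ Set.Ioo a b := by
  have h1 : sl x a * sl x b + 1 = x 0 * bl x a b := by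
    have := hx.1; unfold dt at this; unfold bl sl; linear_combination -this
  have h2 : sl x a * sl x b < 0 := by nlinarith [mul_nonneg hx.2.le (neg_nonneg.2 h)]
  have h3 : sl x a < sl x b := by unfold sl; nlinarith [hx.2]
  have h4 : sl x a < 0 := by nlinarith
  have h5 : 0 < sl x b := by nlinarith
  unfold sl at h4 h5
  exact ⟨by rw [lt_div_iff₀ hx.2]; linarith, by rw [div_lt_iff₀ hx.2]; linarith⟩

lemma Pt.disc {x y} (hx : Pt x) (hy : Pt y) (hne : x ≠ y) :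
    (x 0 - y 0) * (x 2 - y 2) < (x 1 - y 1) ^ 2 := by
  have h1 := hx.1
  have h2 := hy.1
  unfold dt at h1 h2
  have h : x 0 * y 0 * ((x 1 - y 1) ^ 2 - (x 0 - y 0) * (x 2 - y 2)) =
      (x 0 - y 0) ^ 2 + (x 0 * y 1 - y 0 * x 1) ^ 2 := by
    linear_combination (y 0 ^ 2 - x 0 * y 0) * h1 + (x 0 ^ 2 - x 0 * y 0) * h2
  by_contra hc
  have h3 : (x 0 - y 0) ^ 2 + (x 0 * y 1 - y 0 * x 1) ^ 2 ≤ 0 := by
    rw [← h]
    exact mul_nonpos_of_nonneg_of_nonpos (mul_pos hx.2 hy.2).le (by linarith)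
  have h4 : x 0 = y 0 := by nlinarith [sq_nonneg (x 0 - y 0), sq_nonneg (x 0 * y 1 - y 0 * x 1)]
  have h5 : x 0 * y 1 - y 0 * x 1 = 0 := by
    nlinarith [sq_nonneg (x 0 - y 0), sq_nonneg (x 0 * y 1 - y 0 * x 1)]
  have h6 : x 1 = y 1 := mul_left_cancel₀ hx.2.ne' (by rw [← h4] at h5; linarith)
  exact hne (fin3_ext h4 h6 (mul_left_cancel₀ hx.2.ne' (by rw [← h4, ← h6] at h2; linarith)))

lemma Pt.cross {x y} (hx : Pt x) (hy : Pt y) (hne : x ≠ y) : ∃ a, ev x a = ev y a := by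
  have h := hx.disc hy hne
  by_cases h0 : x 0 - y 0 = 0
  · have h1 : x 1 - y 1 ≠ 0 := by rintro h1; rw [h0, h1] at h; simp at h
    refine ⟨-(x 2 - y 2) / (2 * (x 1 - y 1)), ?_⟩
    have : 2 * (x 1 - y 1) * (-(x 2 - y 2) / (2 * (x 1 - y 1))) = -(x 2 - y 2) := by field_simp
    unfold ev
    linear_combination this + (-(x 2 - y 2) / (2 * (x 1 - y 1))) ^ 2 * h0
  · obtain ⟨a, ha⟩ := exists_quadratic_eq_zero (b := 2 * (x 1 - y 1)) (c := x 2 - y 2) h0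
      ⟨_, (Real.mul_self_sqrt (by unfold discrim; nlinarith)).symm⟩
    exact ⟨a, by unfold ev; linear_combination ha⟩

lemma Pt.second {x y} (hx : Pt x) (hy : Pt y) (h0 : x 0 ≠ y 0) {a : ℝ} (e : ev x a = ev y a) :
    ∃ b, b ≠ a ∧ ev x b = ev y b := by
  have h := sub_ne_zero.2 h0
  obtain ⟨b, hb⟩ : ∃ b, (x 0 - y 0) * (a + b) = -2 * (x 1 - y 1) :=
    ⟨-2 * (x 1 - y 1) / (x 0 - y 0) - a, by field_simp; ring⟩
  refine ⟨b, fun hh => h0 (congrFun (hx.eq_of_sl hy e ?_) 0), ?_⟩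
  · rw [hh] at hb; unfold sl; linarith
  · unfold ev at *; linear_combination e + (b - a) * hb

variable {ι : Type} {x : ι → Fin 3 → ℝ}

/-- The arrangement of parabolas. -/
noncomputable def arr (hx : ∀ i, Pt (x i)) (hi : Function.Injective x) : Arr ι where
  F := fun f => ev (x f)
  s := fun f t => 2 * sl (x f) t
  c := fun f => -x f 1 / x f 0
  der := fun f t => by
    have := (((hasDerivAt_pow 2 t).const_mul (x f 0)).add
      ((hasDerivAt_id t).const_mul (2 * x f 1))).add_const (x f 2)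
    have e : 2 * sl (x f) t = x f 0 * (((2 : ℕ) : ℝ) * t ^ (2 - 1)) + 2 * x f 1 * 1 := by
      simp only [sl]; push_cast; ring
    rw [e]
    exact this
  trans := fun f g t e s => hi ((hx f).eq_of_sl (hx g) e (by linarith))
  lens := fun f g a b hne hab ea eb => by
    have := (hx f).bl_neg (hx g) (hi.ne hne) hab.ne ea eb
    rcases le_total (bl (x f) a b) 0 with h | h
    · exact Or.inl ((hx f).mark hab h)
    · exact Or.inr ((hx g).mark hab (by linarith))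
  fin := fun f g hne => by
    by_contra h
    let e := Set.Infinite.natEmbedding _ h
    have ne : ∀ a b, a ≠ b → (e a : ℝ) ≠ e b := fun a b hab hh => hab (e.injective (Subtype.ext hh))
    have z : ∀ a, ev (fun c => x f c - x g c) (e a) = 0 := fun a => by
      have : ev (x f) (e a) = ev (x g) (e a) := (e a).2
      unfold ev at *; linear_combination this
    exact hi.ne hne (funext fun c => sub_eq_zero.1
      (quad_zero (ne 0 1 (by simp)) (ne 0 2 (by simp)) (ne 1 2 (by simp)) (z 0) (z 1) (z 2) c))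

variable [Fintype ι] (hx : ∀ i, Pt (x i)) (hi : Function.Injective x)

lemma le_Cr : Fintype.card ι * Fintype.card ι - Fintype.card ι ≤ #(arr hx hi).Cr := by
  rw [← card_univ, ← offDiag_card]
  refine card_le_card_of_forall_subsingleton
    (fun p (q : ι × ι × ℝ) => p = (q.1, q.2.1)) (fun p hp => ?_)
      fun q _ p hp p' hp' => hp.2.trans hp'.2.symm
  have hne := (mem_offDiag.1 hp).2.2
  obtain ⟨a, ha⟩ := (hx p.1).cross (hx p.2) (hi.ne hne)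
  exact ⟨(p.1, p.2, a), Arr.mem_Cr.2 ⟨hne, ha⟩, rfl⟩

lemma mult_sq (v : ℝ × ℝ) :
    (arr hx hi).mult v * (arr hx hi).mult v ≤ #(arr hx hi).Inc + (arr hx hi).mult v * 2 := by
  let S : Finset ι := {g | ev (x g) v.1 = v.2}
  have hS : ∀ g, g ∈ S ↔ ev (x g) v.1 = v.2 := fun g => by simp [S]
  change #S * #S ≤ _ + #S * 2
  rw [← card_product, ← card_filter_add_card_filter_not (s := S ×ˢ S) fun p => x p.1 0 ≠ x p.2 0]
  refine Nat.add_le_add (card_le_card_of_forall_subsingleton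
    (fun p (q : ι × ℝ) => q.1 = p.1 ∧ q.2 ≠ v.1 ∧ ev (x p.1) q.2 = ev (x p.2) q.2)
    (fun p hp => ?_) fun q _ p hp p' hp' => ?_) ?_
  · obtain ⟨a, b⟩ := mem_filter.1 hp
    obtain ⟨a1, a2⟩ := mem_product.1 a
    obtain ⟨t, h1, h2⟩ := (hx p.1).second (hx p.2) b (((hS _).1 a1).trans ((hS _).1 a2).symm)
    exact ⟨(p.1, t), Arr.mem_Inc.2 ⟨p.2, fun h => b (by rw [h]), h2.symm⟩, rfl, h1, h2⟩
  · obtain ⟨a, b⟩ := mem_filter.1 hp.1
    obtain ⟨a1, a2⟩ := mem_product.1 a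
    obtain ⟨c, d⟩ := mem_filter.1 hp'.1
    obtain ⟨c1, c2⟩ := mem_product.1 c
    rw [hS] at a1 a2 c1 c2
    have e : p.1 = p'.1 := hp.2.1.symm.trans hp'.2.1
    have b1 := (hx p.1).bl_neg (hx p.2) (fun h => b (by rw [h])) hp.2.2.1 hp.2.2.2 (a1.trans a2.symm)
    have b2 := (hx p'.1).bl_neg (hx p'.2) (fun h => d (by rw [h])) hp.2.2.1 hp'.2.2.2
      (c1.trans c2.symm)
    exact Prod.ext e (hi (eq_of_bl hp.2.2.1 (by rw [← hp.2.2.2, ← hp'.2.2.2, e])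
      (a2.trans c2.symm) (by rw [b1, b2, e])))
  · rw [card_filter, sum_product, ← smul_eq_mul, ← sum_const]
    refine sum_le_sum fun f hf => ?_
    rw [← card_filter]
    by_contra hc
    obtain ⟨g1, h1, g2, h2, g3, h3, n1, n2, n3⟩ := two_lt_card.1 (not_le.1 hc)
    simp only [mem_filter, hS, not_not] at h1 h2 h3
    have sq : ∀ g g', ev (x g) v.1 = v.2 ∧ x f 0 = x g 0 → ev (x g') v.1 = v.2 ∧ x f 0 = x g' 0 →
        g ≠ g' → sl (x g) v.1 = -sl (x g') v.1 := fun g g' a b n => by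
      have e1 := (hx g).ev_eq v.1
      have e2 := (hx g').ev_eq v.1
      rw [a.1, ← a.2] at e1
      rw [b.1, ← b.2] at e2
      exact (sq_eq_sq_iff_eq_or_eq_neg.1 (by linarith)).resolve_left fun h =>
        n (hi ((hx g).eq_of_sl (hx g') (a.1.trans b.1.symm) h))
    exact n3 (hi ((hx g2).eq_of_sl (hx g3) (h2.1.trans h3.1.symm)
      (by linarith [sq g1 g2 h1 h2 n1, sq g1 g3 h1 h3 n2])))

lemma le_Inc (hn : 64 ≤ Fintype.card ι) :
    (Fintype.card ι : ℝ) ^ 2 ≤ 1024 * #(arr hx hi).Inc := by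
  have hn' : (64 : ℝ) ≤ Fintype.card ι := by exact_mod_cast hn
  by_cases h : ∀ v ∈ (arr hx hi).Vx, (arr hx hi).mult v ≤ Fintype.card ι / 16
  · have h1 := Arr.beck _ h
    have h2 : ((Fintype.card ι / 16 : ℕ) : ℝ) ≤ Fintype.card ι / 16 := Nat.cast_div_le
    have h3 : (Fintype.card ι : ℝ) * Fintype.card ι ≤ #(arr hx hi).Cr + Fintype.card ι := by
      have := le_Cr hx hi
      exact_mod_cast (by omega : Fintype.card ι * Fintype.card ι ≤ #(arr hx hi).Cr + Fintype.card ι)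
    nlinarith
  · push Not at h
    obtain ⟨v, -, hv⟩ := h
    have h1 : ((arr hx hi).mult v : ℝ) * (arr hx hi).mult v ≤
        #(arr hx hi).Inc + (arr hx hi).mult v * 2 := by exact_mod_cast mult_sq hx hi v
    have h2 : (Fintype.card ι : ℝ) ≤ 16 * (arr hx hi).mult v := by
      exact_mod_cast (by omega : Fintype.card ι ≤ 16 * (arr hx hi).mult v)
    nlinarith

lemma Inc_le (N : ℕ) (hN : ∀ Γ : GData ℤ ℝ, ¬ ∀ i j l m : ℤ, i + j + l = 0 → m ≠ 0 →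
    i.natAbs ≤ N → j.natAbs ≤ N → l.natAbs ≤ N → m.natAbs ≤ N → Γ.Ok 1 i j l m) :
    2 * #(arr hx hi).Inc ≤ 7 * (4 * N + 1) ^ 2 * (22 * (arr hx hi).t2 + 60 * Fintype.card ι) := by
  by_contra hc
  obtain ⟨v, p, q, r, h⟩ := (arr hx hi).dm.lattice N (by
    rw [Arr.card_dart]
    refine lt_of_le_of_lt (Nat.mul_le_mul_left _ ?_) (not_le.1 hc)
    convert Arr.card_bad (A := arr hx hi))
  refine hN ⟨fun i => x (p i), fun i => x (q i), fun i => x (r i), fun i j _ => Arr.ps (v i j),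
    fun i j _ => √(ev (x (q j)) (Arr.ps (v i j)))⟩ fun i j l m h0 hm a b c d => ?_
  obtain ⟨t, e1, e2, e3, n1, n2, n3⟩ := h i j l m h0 hm a b c d
  obtain ⟨-, d1, d2, d3⟩ := Arr.Tr.spec t
  have f1 := Arr.F_rot (v i j)
  have f2 := Arr.F_rot (Arr.rot (v i j))
  rw [Arr.ps_rot] at f2
  change Arr.cv (Arr.rot (Arr.rot (v i j))) = _ at e1
  change Arr.cv (v i j) = _ at e2
  change Arr.cv (Arr.rot (v i j)) = _ at e3
  rw [e2, e3] at d1 f1
  rw [e1, e3] at d2 f2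
  rw [e1, e2] at d3
  change Arr.ps _ ≠ Arr.ps _ at n1 n2 n3
  change ev (x _) _ = ev (x _) _ at f1 f2
  have pos := (hx (q j)).ev_pos (Arr.ps (v i j))
  have sq := Real.sq_sqrt pos.le
  exact ⟨(hx _).1, (hx _).1, (hx _).1, (Real.sqrt_pos.2 pos).ne', sq.trans (f2.trans f1).symm, sq,
    sq.trans f1.symm, fun s => d3 (hi ((hx _).eq_of_sl (hx _) (f2.trans f1) s)),
    fun s => d1 (hi ((hx _).eq_of_sl (hx _) f1.symm s)),
    fun s => d2 (hi ((hx _).eq_of_sl (hx _) f2.symm s)),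
    by simpa using n1, by simpa using n2, by simpa using n3⟩

omit hx hi in
/-- Quadratically many simple crossings. -/
theorem many_simple : ∃ c : ℝ, 0 < c ∧ ∃ n0 : ℕ, ∀ (ι : Type) [Fintype ι] (x : ι → Fin 3 → ℝ)
    (hx : ∀ i, Pt (x i)) (hi : Function.Injective x), n0 ≤ Fintype.card ι →
      c * (Fintype.card ι : ℝ) ^ 2 ≤ (arr hx hi).t2 := by
  obtain ⟨N, hN⟩ := no_finite_grid
  obtain ⟨L, hL⟩ : ∃ L : ℕ, L = 7 * (4 * N + 1) ^ 2 := ⟨_, rfl⟩
  have L0 : (0 : ℝ) < L := by rw [hL]; positivity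
  refine ⟨1 / (22528 * L), by positivity, 64 + 61440 * L, fun ι _ x hx hi hn => ?_⟩
  have h1 := le_Inc hx hi (by omega)
  have h2 : (2 : ℝ) * #(arr hx hi).Inc ≤ L * (22 * (arr hx hi).t2 + 60 * Fintype.card ι) := by
    have := Inc_le hx hi N hN
    rw [← hL] at this
    exact_mod_cast this
  have h3 : (64 : ℝ) + 61440 * L ≤ Fintype.card ι := by exact_mod_cast hn
  rw [one_div, inv_mul_le_iff₀ (by positivity)]
  nlinarith

end Pool.Agent.Lib.MP_596974_co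
end

-- part Pool.Agent.Lib.MP_596974_co.Disc
section

/-!
# Points as quadratic forms, horocycles as vectors
-/

namespace Pool.Agent.Lib.MP_596974_co

open Finset Classical

/-- The value of a form at a vector. -/
def Qf (x : Fin 3 → ℝ) (v : ℝ × ℝ) : ℝ := x 0 * v.1 ^ 2 + 2 * x 1 * v.1 * v.2 + x 2 * v.2 ^ 2

/-- The form of a point of the disk. -/
noncomputable def frm (z : ℂ) : Fin 3 → ℝ :=
  ![((1 - z.re) ^ 2 + z.im ^ 2) / (1 - z.re ^ 2 - z.im ^ 2), -2 * z.im / (1 - z.re ^ 2 - z.im ^ 2),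
    ((1 + z.re) ^ 2 + z.im ^ 2) / (1 - z.re ^ 2 - z.im ^ 2)]

/-- The point of a form. -/
noncomputable def pnt (x : Fin 3 → ℝ) : ℂ :=
  ⟨(x 2 - x 0) / (x 0 + x 2 + 2), -2 * x 1 / (x 0 + x 2 + 2)⟩

/-- The horocycle of a vector. -/
def hor (v : ℝ × ℝ) : Set ℂ := {z | ‖z‖ < 1 ∧ Qf (frm z) v = 1}

lemma norm_eq_iff (z : ℂ) {r : ℝ} (hr : 0 ≤ r) : ‖z‖ = r ↔ z.re ^ 2 + z.im ^ 2 = r ^ 2 := by
  rw [← pow_left_inj₀ (norm_nonneg z) hr two_ne_zero, Complex.sq_norm, Complex.normSq_apply,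
    sq z.re, sq z.im]

lemma norm_lt_iff (z : ℂ) : ‖z‖ < 1 ↔ 0 < 1 - z.re ^ 2 - z.im ^ 2 := by
  rw [← sq_lt_one_iff₀ (norm_nonneg z), Complex.sq_norm, Complex.normSq_apply]
  constructor <;> intro h <;> nlinarith

lemma frm_pt {z : ℂ} (h : ‖z‖ < 1) : Pt (frm z) := by
  rw [norm_lt_iff] at h
  constructor
  · simp only [dt, frm, Matrix.cons_val_zero, Matrix.cons_val_one, Matrix.cons_val]
    field_simp
    ring
  · simp only [frm, Matrix.cons_val_zero]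
    exact div_pos (by nlinarith [sq_nonneg z.im]) h

lemma pnt_frm {z : ℂ} (h : ‖z‖ < 1) : pnt (frm z) = z := by
  rw [norm_lt_iff] at h
  have e : frm z 0 + frm z 2 + 2 = 4 / (1 - z.re ^ 2 - z.im ^ 2) := by
    simp only [frm, Matrix.cons_val_zero, Matrix.cons_val]
    field_simp
    ring
  apply Complex.ext <;> simp only [pnt, e] <;>
    simp only [frm, Matrix.cons_val_zero, Matrix.cons_val_one, Matrix.cons_val] <;> field_simp <;>
    ring

lemma frm_inj {z w : ℂ} (hz : ‖z‖ < 1) (hw : ‖w‖ < 1) (h : frm z = frm w) : z = w := by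
  rw [← pnt_frm hz, h, pnt_frm hw]

lemma Pt.pos2 {x} (h : Pt x) : 0 < x 2 := by simpa [ev] using h.ev_pos 0

lemma Pt.den {x} (h : Pt x) : 1 - (pnt x).re ^ 2 - (pnt x).im ^ 2 = 4 / (x 0 + x 2 + 2) := by
  have h1 := h.1
  have h2 : 0 < x 0 + x 2 + 2 := by linarith [h.2, h.pos2]
  unfold dt at h1
  simp only [pnt]
  field_simp
  linear_combination 4 * h1

lemma Pt.norm_pnt {x} (h : Pt x) : ‖pnt x‖ < 1 := by
  rw [norm_lt_iff, h.den]
  exact div_pos four_pos (by linarith [h.2, h.pos2])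

lemma Pt.frm_pnt {x} (h : Pt x) : frm (pnt x) = x := by
  have h1 := h.1
  have h2 : 0 < x 0 + x 2 + 2 := by linarith [h.2, h.pos2]
  unfold dt at h1
  refine fin3_ext ?_ ?_ ?_ <;>
    simp only [frm, Matrix.cons_val_zero, Matrix.cons_val_one, Matrix.cons_val, h.den] <;>
    simp only [pnt] <;> field_simp
  · linear_combination (-4) * h1
  · ring
  · linear_combination (-4) * h1

lemma hor_eq (v : ℝ × ℝ) {c : ℂ} {ρ : ℝ} (h0 : ρ * (1 + v.1 ^ 2 + v.2 ^ 2) = 1)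
    (h1 : c.re = ρ * (v.1 ^ 2 - v.2 ^ 2)) (h2 : c.im = ρ * (2 * v.1 * v.2)) :
    {z | ‖z‖ < 1 ∧ ‖z - c‖ = ρ} = hor v := by
  have hN : 0 < 1 + v.1 ^ 2 + v.2 ^ 2 := by positivity
  have hρ : 0 < ρ := (mul_pos_iff_of_pos_right hN).1 (by rw [h0]; exact one_pos)
  ext z
  refine and_congr_right fun hz => ?_
  rw [norm_lt_iff] at hz
  have e : Qf (frm z) v = (((1 - z.re) ^ 2 + z.im ^ 2) * v.1 ^ 2 - 4 * z.im * v.1 * v.2 +
      ((1 + z.re) ^ 2 + z.im ^ 2) * v.2 ^ 2) / (1 - z.re ^ 2 - z.im ^ 2) := by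
    simp only [Qf, frm, Matrix.cons_val_zero, Matrix.cons_val_one, Matrix.cons_val]
    field_simp
    ring
  rw [norm_eq_iff _ hρ.le, e, div_eq_one_iff_eq hz.ne', Complex.sub_re, Complex.sub_im, h1, h2]
  constructor
  · intro h
    apply mul_left_cancel₀ hρ.ne'
    linear_combination h + (z.re ^ 2 + z.im ^ 2 - ρ * (v.1 ^ 2 + v.2 ^ 2 - 1)) * h0
  · intro h
    linear_combination ρ * h - (z.re ^ 2 + z.im ^ 2 - ρ * (v.1 ^ 2 + v.2 ^ 2 - 1)) * h0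

lemma hor_isHorocycle {v : ℝ × ℝ} {z} (hz : z ∈ hor v) : IsHorocycle (hor v) := by
  have hv : 0 < v.1 ^ 2 + v.2 ^ 2 := by
    by_contra h
    have h1 : v.1 = 0 := by nlinarith [sq_nonneg v.1, sq_nonneg v.2]
    have h2 : v.2 = 0 := by nlinarith [sq_nonneg v.1, sq_nonneg v.2]
    have := hz.2
    simp [Qf, h1, h2] at this
  have hN : 0 < 1 + v.1 ^ 2 + v.2 ^ 2 := by positivity
  obtain ⟨ρ, h0⟩ : ∃ ρ, ρ * (1 + v.1 ^ 2 + v.2 ^ 2) = 1 := ⟨_, inv_mul_cancel₀ hN.ne'⟩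
  have hρ : 0 < ρ := (mul_pos_iff_of_pos_right hN).1 (by rw [h0]; exact one_pos)
  have h1 : ρ < 1 := by nlinarith
  refine ⟨⟨ρ * (v.1 ^ 2 - v.2 ^ 2), ρ * (2 * v.1 * v.2)⟩, ρ, hρ, h1, ?_, (hor_eq v h0 rfl rfl).symm⟩
  rw [norm_eq_iff _ (by linarith)]
  linear_combination (ρ * (v.1 ^ 2 + v.2 ^ 2) + 1 - ρ) * h0

lemma IsHorocycle.exists_vec {H} (h : IsHorocycle H) : ∃ v, H = hor v := by
  obtain ⟨c, ρ, h0, h1, h2, rfl⟩ := h
  obtain ⟨ζ, hζ⟩ := IsAlgClosed.exists_pow_nat_eq (c / ρ) two_pos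
  have e : c = ρ * ζ ^ 2 := by
    rw [hζ, mul_div_cancel₀ _ (by exact_mod_cast h0.ne')]
  refine ⟨(ζ.re, ζ.im), hor_eq _ ?_ (by rw [e]; simp [sq]) (by rw [e]; simp [sq]; left; ring)⟩
  rw [e, norm_mul, norm_pow, Complex.sq_norm, Complex.normSq_apply, Complex.norm_real,
    Real.norm_of_nonneg h0.le] at h2
  linear_combination h2

lemma hor_neg (v : ℝ × ℝ) : hor (-v) = hor v := by simp [hor, Qf]

lemma pair_vec {x y} (hne : x ≠ y) : ∃ u w : ℝ × ℝ, ∀ v, Qf x v = 1 → Qf y v = 1 →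
    v = u ∨ v = -u ∨ v = w ∨ v = -w := by
  have par : ∀ u v : ℝ × ℝ, Qf x u = 1 → Qf x v = 1 → u.1 * v.2 - u.2 * v.1 = 0 →
      v = u ∨ v = -u := by
    intro u v hu hv h
    unfold Qf at hu hv
    obtain ⟨b, hb⟩ : ∃ b, b = x 0 * u.1 * v.1 + x 1 * (u.1 * v.2 + u.2 * v.1) + x 2 * u.2 * v.2 :=
      ⟨_, rfl⟩
    have e1 : v.1 = b * u.1 := by
      rw [hb]; linear_combination (-v.1) * hu - (x 1 * u.1 + x 2 * u.2) * h
    have e2 : v.2 = b * u.2 := by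
      rw [hb]; linear_combination (-v.2) * hu + (x 0 * u.1 + x 1 * u.2) * h
    have e3 : (b - 1) * (b + 1) = 0 := by
      rw [e1, e2] at hv; linear_combination hv - b ^ 2 * hu
    rcases mul_eq_zero.1 e3 with e | e
    · left; exact Prod.ext (by rw [e1]; linear_combination u.1 * e)
        (by rw [e2]; linear_combination u.2 * e)
    · right; exact Prod.ext (by rw [e1, Prod.fst_neg]; linear_combination u.1 * e)
        (by rw [e2, Prod.snd_neg]; linear_combination u.2 * e)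
  by_cases h1 : ∃ u, Qf x u = 1 ∧ Qf y u = 1
  swap
  · exact ⟨0, 0, fun v a b => absurd ⟨v, a, b⟩ h1⟩
  obtain ⟨u, a1, b1⟩ := h1
  by_cases h2 : ∃ w, Qf x w = 1 ∧ Qf y w = 1 ∧ u.1 * w.2 - u.2 * w.1 ≠ 0
  swap
  · refine ⟨u, u, fun v a b => ?_⟩
    have := par u v a1 a (by_contra fun h => h2 ⟨v, a, b, h⟩)
    tauto
  obtain ⟨w, a2, b2, d⟩ := h2
  refine ⟨u, w, fun v a b => ?_⟩
  by_cases d1 : u.1 * v.2 - u.2 * v.1 = 0
  · have := par u v a1 a d1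
    tauto
  by_cases d2 : w.1 * v.2 - w.2 * v.1 = 0
  · have := par w v a2 a d2
    tauto
  exfalso
  unfold Qf at *
  have hB : (x 0 - y 0) * u.1 * w.1 + (x 1 - y 1) * (u.1 * w.2 + u.2 * w.1) +
      (x 2 - y 2) * u.2 * w.2 = 0 := by
    apply mul_left_cancel₀ (mul_ne_zero two_ne_zero (mul_ne_zero d1 d2))
    linear_combination (w.1 * v.2 - w.2 * v.1) ^ 2 * (a1 - b1) +
      (u.1 * v.2 - u.2 * v.1) ^ 2 * (a2 - b2) - (u.1 * w.2 - u.2 * w.1) ^ 2 * (a - b)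
  refine hne (fin3_ext ?_ ?_ ?_) <;> apply mul_left_cancel₀ (pow_ne_zero 2 d)
  · linear_combination w.2 ^ 2 * (a1 - b1) - 2 * u.2 * w.2 * hB + u.2 ^ 2 * (a2 - b2)
  · linear_combination (-w.1 * w.2) * (a1 - b1) + (u.1 * w.2 + u.2 * w.1) * hB -
      u.1 * u.2 * (a2 - b2)
  · linear_combination w.1 ^ 2 * (a1 - b1) - 2 * u.1 * w.1 * hB + u.1 ^ 2 * (a2 - b2)

lemma pair_hor {z w : ℂ} (hne : z ≠ w) :
    ∃ H1 H2 : Set ℂ, ∀ H, IsHorocycle H → z ∈ H → w ∈ H → H = H1 ∨ H = H2 := by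
  by_cases h : ‖z‖ < 1 ∧ ‖w‖ < 1
  · obtain ⟨u, u', hu⟩ := pair_vec fun e => hne (frm_inj h.1 h.2 e)
    refine ⟨hor u, hor u', fun H hH a b => ?_⟩
    obtain ⟨v, rfl⟩ := hH.exists_vec
    rcases hu v a.2 b.2 with rfl | rfl | rfl | rfl <;> simp [hor_neg]
  · refine ⟨∅, ∅, fun H hH a b => ?_⟩
    obtain ⟨v, rfl⟩ := hH.exists_vec
    exact absurd ⟨a.1, b.1⟩ h

lemma ncard_inter (H : Set ℂ) (P : Finset ℂ) : (H ∩ ↑P).ncard = #{z ∈ P | z ∈ H} := by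
  rw [← Set.ncard_coe_finset]
  congr 1
  ext z
  simp [and_comm]

lemma ordinary_finite (P : Finset ℂ) : (ordinary P).Finite := by
  refine (P.offDiag.finite_toSet.biUnion
    (t := fun p => {H | IsHorocycle H ∧ p.1 ∈ H ∧ p.2 ∈ H}) fun p hp => ?_).subset ?_
  · obtain ⟨H1, H2, h⟩ := pair_hor (mem_offDiag.1 hp).2.2
    exact (Set.toFinite {H1, H2}).subset fun H hH => h H hH.1 hH.2.1 hH.2.2
  · rintro H ⟨h1, h2⟩
    rw [ncard_inter] at h2
    obtain ⟨z, hz, w, hw, hne⟩ := one_lt_card.1 (h2 ▸ one_lt_two)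
    exact Set.mem_biUnion (x := (z, w))
      (mem_coe.2 (mem_offDiag.2 ⟨(mem_filter.1 hz).1, (mem_filter.1 hw).1, hne⟩))
      ⟨h1, (mem_filter.1 hz).2, (mem_filter.1 hw).2⟩

lemma sum_pairs (P : Finset ℂ) (T : Finset (Set ℂ)) (hT : ∀ H ∈ T, IsHorocycle H) :
    ∑ H ∈ T, (#{z ∈ P | z ∈ H} * #{z ∈ P | z ∈ H} - #{z ∈ P | z ∈ H}) ≤ (#P * #P - #P) * 2 := by
  rw [← offDiag_card, ← smul_eq_mul, ← sum_const,
    sum_congr rfl (g := fun H => ∑ p ∈ P.offDiag, if p.1 ∈ H ∧ p.2 ∈ H then 1 else 0) fun H _ => by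
      rw [← offDiag_card, ← card_filter]
      congr 1
      ext p
      simp only [mem_offDiag, mem_filter]
      tauto, sum_comm]
  refine sum_le_sum fun p hp => ?_
  obtain ⟨H1, H2, h⟩ := pair_hor (mem_offDiag.1 hp).2.2
  rw [← card_filter]
  refine (card_le_card (t := {H1, H2}) fun H hH => ?_).trans card_le_two
  obtain ⟨a, b, c⟩ := mem_filter.1 hH
  simpa using h H (hT H a) b c

lemma Qf_scale (x : Fin 3 → ℝ) (t : ℝ) {y : ℝ} (hy : 0 < y) :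
    Qf x (t / √y, 1 / √y) = 1 ↔ ev x t = y := by
  have : Qf x (t / √y, 1 / √y) = ev x t / √y ^ 2 := by
    have := (Real.sqrt_pos.2 hy).ne'
    simp only [Qf, ev]
    field_simp
  rw [this, Real.sq_sqrt hy.le, div_eq_one_iff_eq hy.ne']

lemma filter_hor (P : Finset ℂ) (hP : ∀ z ∈ P, ‖z‖ < 1) (v : ℝ × ℝ) :
    #{z ∈ P | z ∈ hor v} = #{i : P | Qf (frm i) v = 1} := by
  refine (card_bij (fun (i : P) _ => (i : ℂ)) (fun i hi => ?_) (fun i _ j _ h => Subtype.ext h)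
    fun z hz => ?_).symm
  · exact mem_filter.2 ⟨i.2, hP _ i.2, (mem_filter.1 hi).2⟩
  · exact ⟨⟨z, (mem_filter.1 hz).1⟩, mem_filter.2 ⟨mem_univ _, (mem_filter.1 hz).2.2⟩, rfl⟩

lemma hor_mem_ordinary (P : Finset ℂ) (hP : ∀ z ∈ P, ‖z‖ < 1) (v : ℝ × ℝ)
    (h : #{i : P | Qf (frm i) v = 1} = 2) : hor v ∈ ordinary P := by
  rw [← filter_hor P hP] at h
  obtain ⟨z, hz⟩ := card_pos.1 (h ▸ two_pos)
  exact ⟨hor_isHorocycle (mem_filter.1 hz).2, by rw [ncard_inter, h]⟩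

/-- Quadratically many ordinary horocycles for large sets. -/
theorem many_ordinary : ∃ c : ℝ, 0 < c ∧ ∃ n0 : ℕ, ∀ P : Finset ℂ, (∀ z ∈ P, ‖z‖ < 1) →
    n0 ≤ #P → c * (#P : ℝ) ^ 2 ≤ (ordinary P).ncard := by
  obtain ⟨c, hc, n0, h⟩ := many_simple
  refine ⟨c / 2, half_pos hc, n0, fun P hP hn => ?_⟩
  have hx : ∀ i : P, Pt (frm i) := fun i => frm_pt (hP _ i.2)
  have hi : Function.Injective fun i : P => frm i :=
    fun i j e => Subtype.ext (frm_inj (hP _ i.2) (hP _ j.2) e)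
  have h1 := h P _ hx hi (by simpa using hn)
  have pos : ∀ v ∈ (arr hx hi).Vx, 0 < v.2 := fun v hv => by
    obtain ⟨p, -, rfl⟩ := mem_image.1 hv
    exact (hx p.1).ev_pos _
  have h2 : (arr hx hi).t2 ≤ 2 * #(ordinary_finite P).toFinset := by
    refine card_le_mul_card_image_of_maps_to (f := fun v : ℝ × ℝ => hor (v.1 / √v.2, 1 / √v.2))
      (fun v hv => ?_) 2 fun H hH => ?_
    · obtain ⟨a, b⟩ := mem_filter.1 hv
      refine (Set.Finite.mem_toFinset _).2 (hor_mem_ordinary P hP _ ?_)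
      simp only [Qf_scale _ _ (pos v a)]
      exact b
    · have h3 := ((Set.Finite.mem_toFinset _).1 hH).2
      rw [ncard_inter] at h3
      obtain ⟨z, hz, w, hw, hne⟩ := one_lt_card.1 (h3 ▸ one_lt_two)
      have key : ∀ v ∈ {v ∈ {v ∈ (arr hx hi).Vx | (arr hx hi).mult v = 2} |
          hor (v.1 / √v.2, 1 / √v.2) = H}, ev (frm z) v.1 = v.2 ∧
            ev (fun c => frm z c - frm w c) v.1 = 0 := fun v hv => by
        obtain ⟨a, rfl⟩ := mem_filter.1 hv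
        have p := pos v (mem_filter.1 a).1
        have e1 := (Qf_scale _ _ p).1 (mem_filter.1 hz).2.2
        have e2 := (Qf_scale _ _ p).1 (mem_filter.1 hw).2.2
        exact ⟨e1, by unfold ev at *; linear_combination e1 - e2⟩
      by_contra hc
      obtain ⟨v1, a1, v2, a2, v3, a3, n1, n2, n3⟩ := two_lt_card.1 (not_le.1 hc)
      have ne : ∀ v v' : ℝ × ℝ, ev (frm z) v.1 = v.2 → ev (frm z) v'.1 = v'.2 → v ≠ v' →
          v.1 ≠ v'.1 := fun v v' a b n e => n (Prod.ext e (by rw [← a, ← b, e]))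
      exact hne (frm_inj (hP _ (mem_filter.1 hz).1) (hP _ (mem_filter.1 hw).1) (funext fun c =>
        sub_eq_zero.1 (quad_zero (ne _ _ (key _ a1).1 (key _ a2).1 n1)
          (ne _ _ (key _ a1).1 (key _ a3).1 n2) (ne _ _ (key _ a2).1 (key _ a3).1 n3)
          (key _ a1).2 (key _ a2).2 (key _ a3).2 c)))
  rw [← Set.ncard_eq_toFinset_card _ (ordinary_finite P)] at h2
  have h3 : ((arr hx hi).t2 : ℝ) ≤ 2 * (ordinary P).ncard := by exact_mod_cast h2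
  rw [Fintype.card_coe] at h1
  linarith

end Pool.Agent.Lib.MP_596974_co
end

-- part Pool.Agent.Lib.MP_596974_co.Kelly
section

/-!
# There is always an ordinary horocycle
-/

namespace Pool.Agent.Lib.MP_596974_co

open Finset Classical

/-- The polar form on vectors. -/
def Bf (x : Fin 3 → ℝ) (v w : ℝ × ℝ) : ℝ :=
  x 0 * v.1 * w.1 + x 1 * (v.1 * w.2 + v.2 * w.1) + x 2 * v.2 * w.2

lemma Pt.Qf_pos {x y} (h : Pt x) {v : ℝ × ℝ} (hv : Qf y v = 1) : 0 < Qf x v := by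
  have h1 := h.1
  unfold dt at h1
  have e : x 0 * Qf x v = (x 0 * v.1 + x 1 * v.2) ^ 2 + v.2 ^ 2 := by
    unfold Qf; linear_combination v.2 ^ 2 * h1
  refine (mul_pos_iff_of_pos_left h.2).1 ?_
  rw [e]
  by_cases h2 : v.2 = 0
  · have h3 : v.1 ≠ 0 := fun h3 => by simp [Qf, h2, h3] at hv
    rw [h2]
    simpa using sq_pos_of_ne_zero (mul_ne_zero h.2.ne' h3)
  · positivity

lemma chart {x} (h : Pt x) {v w : ℝ × ℝ} (hd : v.1 * w.2 - v.2 * w.1 = 1) (a r : ℝ) :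
    Qf x v * Qf x (r • (a • v + w)) = r ^ 2 * ((Qf x v * a + Bf x v w) ^ 2 + 1) := by
  have h1 := h.1
  unfold dt at h1
  simp only [Qf, Bf, Prod.smul_fst, Prod.smul_snd, Prod.fst_add, Prod.snd_add, smul_eq_mul]
  linear_combination r ^ 2 * ((v.1 * w.2 - v.2 * w.1) ^ 2 * h1 + (v.1 * w.2 - v.2 * w.1 + 1) * hd)

lemma chart_inj {x y} (hx : Pt x) (hy : Pt y) {v w : ℝ × ℝ} (hd : v.1 * w.2 - v.2 * w.1 = 1)
    (a : Qf x v = 1) (b : Qf y v = 1) (e : Bf x v w = Bf y v w) : x = y := by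
  have h1 := chart hx hd 0 1
  have h2 := chart hy hd 0 1
  simp only [a, b, e, zero_smul, zero_add, one_smul, one_mul, mul_zero] at h1 h2
  have c : Qf x w = Qf y w := h1.trans h2.symm
  have d : Qf x v = Qf y v := a.trans b.symm
  unfold Qf Bf at *
  refine fin3_ext ?_ ?_ ?_
  · linear_combination w.2 ^ 2 * d - 2 * v.2 * w.2 * e + v.2 ^ 2 * c -
      (x 0 - y 0) * (v.1 * w.2 - v.2 * w.1 + 1) * hd
  · linear_combination (-w.1 * w.2) * d + (v.1 * w.2 + v.2 * w.1) * e - v.1 * v.2 * c -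
      (x 1 - y 1) * (v.1 * w.2 - v.2 * w.1 + 1) * hd
  · linear_combination w.1 ^ 2 * d - 2 * v.1 * w.1 * e + v.1 ^ 2 * c -
      (x 2 - y 2) * (v.1 * w.2 - v.2 * w.1 + 1) * hd

lemma kelly_pos {k p q : ℝ} (hk : 0 < k) (h1 : k ≠ 1) (hp : 0 ≤ p) (hq : p < q) :
    ∃ a, k * ((a - q) ^ 2 + 1) = (k * a) ^ 2 + 1 ∧ (a - p) ^ 2 ≠ (a - q) ^ 2 ∧
      ((a - p) ^ 2 + 1 - k * ((a - q) ^ 2 + 1)) *
        (k * ((a - p) ^ 2 + 1) - ((a - q) ^ 2 + 1)) < 0 := by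
  have hs : 0 ≤ k * q ^ 2 + (1 - k) ^ 2 / k := by positivity
  have h2 : 1 - k ≠ 0 := sub_ne_zero.2 h1.symm
  obtain ⟨s, s0, s1⟩ : ∃ s, 0 ≤ s ∧ k * s ^ 2 = k ^ 2 * q ^ 2 + (1 - k) ^ 2 :=
    ⟨_, Real.sqrt_nonneg _, by rw [Real.sq_sqrt hs]; field_simp⟩
  obtain ⟨a, ha⟩ : ∃ a, (1 - k) * a = q + s := ⟨(q + s) / (1 - k), by field_simp⟩
  have e : k * ((a - q) ^ 2 + 1) = (k * a) ^ 2 + 1 := by
    apply mul_left_cancel₀ h2
    have : s = (1 - k) * a - q := by linarith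
    rw [this] at s1
    linear_combination s1
  rcases h1.lt_or_gt with l | l
  · have a1 : q < a := by nlinarith
    have a2 : (a - q) ^ 2 < (a - p) ^ 2 := by nlinarith
    have a3 : (a - p) ^ 2 ≤ a ^ 2 := by nlinarith
    refine ⟨a, e, a2.ne', mul_neg_of_pos_of_neg (by nlinarith [sq_nonneg (a - q)]) ?_⟩
    refine (mul_lt_mul_iff_right₀ hk).1 ?_
    rw [mul_sub, e]
    nlinarith [mul_le_mul_of_nonneg_left a3 (sq_nonneg k)]
  · have a1 : a < 0 := by nlinarith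
    have a2 : (a - p) ^ 2 < (a - q) ^ 2 := by nlinarith
    have a3 : a ^ 2 ≤ (a - p) ^ 2 := by nlinarith
    refine ⟨a, e, a2.ne, mul_neg_of_neg_of_pos (by nlinarith [sq_nonneg (a - q)]) ?_⟩
    refine (mul_lt_mul_iff_right₀ hk).1 ?_
    rw [mul_sub, e]
    nlinarith [mul_le_mul_of_nonneg_left a3 (sq_nonneg k)]

lemma kelly_step {k p q : ℝ} (hk : 0 < k) (h1 : k ≠ 1) (h : 0 ≤ p ∧ p < q ∨ q < p ∧ p ≤ 0) :
    ∃ a r, r ^ 2 * ((a + q) ^ 2 + 1) = 1 ∧ r ^ 2 * ((k * a) ^ 2 + 1) = k ∧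
      r ^ 2 * ((a + p) ^ 2 + 1) ≠ 1 ∧
      r ^ 2 * ((a + p) ^ 2 + 1) + (r ^ 2 * ((a + p) ^ 2 + 1))⁻¹ < k + k⁻¹ := by
  obtain ⟨a, e1, e2, e3⟩ : ∃ a, k * ((a + q) ^ 2 + 1) = (k * a) ^ 2 + 1 ∧
      (a + p) ^ 2 ≠ (a + q) ^ 2 ∧ ((a + p) ^ 2 + 1 - k * ((a + q) ^ 2 + 1)) *
        (k * ((a + p) ^ 2 + 1) - ((a + q) ^ 2 + 1)) < 0 := by
    rcases h with h | h
    · obtain ⟨a, e1, e2, e3⟩ := kelly_pos hk h1 h.1 h.2
      exact ⟨-a, by linear_combination e1, fun h => e2 (by linear_combination h),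
        by linarith [e3]⟩
    · obtain ⟨a, e⟩ := kelly_pos (p := -p) (q := -q) hk h1 (by linarith) (by linarith)
      exact ⟨a, by simpa using e⟩
  have hF : 0 < (a + q) ^ 2 + 1 := by positivity
  have hG : 0 < (a + p) ^ 2 + 1 := by positivity
  have hr : (√((a + q) ^ 2 + 1))⁻¹ ^ 2 = ((a + q) ^ 2 + 1)⁻¹ := by
    rw [inv_pow, Real.sq_sqrt hF.le]
  refine ⟨a, (√((a + q) ^ 2 + 1))⁻¹, ?_⟩
  rw [hr, ← e1]
  refine ⟨by field_simp, by field_simp, fun h => e2 ?_, ?_⟩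
  · field_simp at h
    linarith
  · rw [← sub_neg]
    have : ((a + q) ^ 2 + 1)⁻¹ * ((a + p) ^ 2 + 1) + (((a + q) ^ 2 + 1)⁻¹ * ((a + p) ^ 2 + 1))⁻¹ -
        (k + k⁻¹) = ((a + p) ^ 2 + 1 - k * ((a + q) ^ 2 + 1)) *
        (k * ((a + p) ^ 2 + 1) - ((a + q) ^ 2 + 1)) /
          (k * (((a + q) ^ 2 + 1) * ((a + p) ^ 2 + 1))) := by
      field_simp
      ring
    rw [this]
    exact div_neg_of_neg_of_pos e3 (by positivity)

lemma same_side {ι : Type} (b : ι → ℝ) {i j l : ι} (h1 : b i ≠ b j) (h2 : b i ≠ b l)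
    (h3 : b j ≠ b l) : ∃ p ∈ ({i, j, l} : Set ι), ∃ q ∈ ({i, j, l} : Set ι),
      0 ≤ b p ∧ b p < b q ∨ b q < b p ∧ b p ≤ 0 := by
  have key : ∀ p q, b p ≠ b q → (0 ≤ b p ↔ 0 ≤ b q) → p ∈ ({i, j, l} : Set ι) →
      q ∈ ({i, j, l} : Set ι) → ∃ p ∈ ({i, j, l} : Set ι), ∃ q ∈ ({i, j, l} : Set ι),
        0 ≤ b p ∧ b p < b q ∨ b q < b p ∧ b p ≤ 0 := by
    intro p q n s hp hq
    rcases n.lt_or_gt with c | c <;> by_cases d : 0 ≤ b p
    · exact ⟨p, hp, q, hq, Or.inl ⟨d, c⟩⟩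
    · exact ⟨q, hq, p, hp, Or.inr ⟨c, (not_le.1 (mt s.2 d)).le⟩⟩
    · exact ⟨q, hq, p, hp, Or.inl ⟨s.1 d, c⟩⟩
    · exact ⟨p, hp, q, hq, Or.inr ⟨c, (not_le.1 d).le⟩⟩
  by_cases a : 0 ≤ b i ↔ 0 ≤ b j
  · exact key i j h1 a (by simp) (by simp)
  by_cases c : 0 ≤ b i ↔ 0 ≤ b l
  · exact key i l h2 c (by simp) (by simp)
  · exact key j l h3 (by tauto) (by simp) (by simp)

theorem exists_two {ι : Type} [Fintype ι] {x : ι → Fin 3 → ℝ} (hx : ∀ i, Pt (x i))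
    (hi : Function.Injective x) (hn : 2 ≤ Fintype.card ι) : ∃ v, #{i | Qf (x i) v = 1} = 2 := by
  by_contra hc
  push Not at hc
  let Sp : Set (ℝ × ℝ) := {v | ∃ j l, j ≠ l ∧ Qf (x j) v = 1 ∧ Qf (x l) v = 1}
  have three : ∀ v ∈ Sp, ∃ i j l, i ≠ j ∧ i ≠ l ∧ j ≠ l ∧ Qf (x i) v = 1 ∧ Qf (x j) v = 1 ∧
      Qf (x l) v = 1 := by
    rintro v ⟨j, l, n, a, b⟩
    have h1 : 1 < #{i | Qf (x i) v = 1} := one_lt_card.2 ⟨j, by simpa using a, l, by simpa using b, n⟩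
    obtain ⟨i, h1, j, h2, l, h3, n1, n2, n3⟩ := two_lt_card.1 (lt_of_le_of_ne h1 (hc v).symm)
    exact ⟨i, j, l, n1, n2, n3, (mem_filter.1 h1).2, (mem_filter.1 h2).2, (mem_filter.1 h3).2⟩
  have hfin : Sp.Finite := by
    refine (Set.finite_iUnion fun j : ι => Set.finite_iUnion fun l : ι => (?_ :
      {v | j ≠ l ∧ Qf (x j) v = 1 ∧ Qf (x l) v = 1}.Finite)).subset fun v hv => by
        simpa [Sp] using hv
    by_cases h : j = l
    · simp [h]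
    · obtain ⟨u, w, huw⟩ := pair_vec (hi.ne h)
      exact (Set.toFinite {u, -u, w, -w}).subset fun v hv => huw v hv.2.1 hv.2.2
  have hne : ((Sp ×ˢ (Set.univ : Set ι)) ∩ {p | Qf (x p.2) p.1 ≠ 1}).Nonempty := by
    obtain ⟨j, l, n⟩ := Fintype.exists_pair_of_one_lt_card hn
    obtain ⟨t, ht⟩ := (hx j).cross (hx l) (hi.ne n)
    have p := (hx j).ev_pos t
    obtain ⟨v, hv⟩ : ∃ v, v ∈ Sp := ⟨_, j, l, n, (Qf_scale _ t p).2 rfl, (Qf_scale _ t p).2 ht.symm⟩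
    obtain ⟨i, j, l, n1, n2, n3, a, b, c⟩ := three v hv
    let w : ℝ × ℝ := (-(x i 1 * v.1 + x i 2 * v.2), x i 0 * v.1 + x i 1 * v.2)
    have hd : v.1 * w.2 - v.2 * w.1 = 1 := by simp only [w]; unfold Qf at a; linear_combination a
    obtain ⟨s, hs⟩ : ∃ s, s = -(Bf (x i) v w + Bf (x j) v w) / 2 := ⟨_, rfl⟩
    have hF : 0 < (s + Bf (x i) v w) ^ 2 + 1 := by positivity
    obtain ⟨r, hr⟩ : ∃ r : ℝ, r ^ 2 * ((s + Bf (x i) v w) ^ 2 + 1) = 1 :=
      ⟨(√_)⁻¹, by rw [inv_pow, Real.sq_sqrt hF.le, inv_mul_cancel₀ hF.ne']⟩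
    have e1 := chart (hx i) hd s r
    have e2 := chart (hx j) hd s r
    have e3 := chart (hx l) hd s r
    simp only [a, b, c, one_mul] at e1 e2 e3
    refine ⟨(r • (s • v + w), l), ⟨⟨i, j, n1, e1.trans hr, e2.trans ?_⟩, trivial⟩, fun h => ?_⟩
    · refine Eq.trans ?_ hr
      rw [hs]; ring
    · have r0 : r ^ 2 ≠ 0 := left_ne_zero_of_mul_eq_one hr
      have h2 : (Bf (x l) v w - Bf (x i) v w) * (Bf (x l) v w - Bf (x j) v w) = 0 := by
        apply mul_left_cancel₀ r0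
        rw [e3] at h
        rw [hs] at h hr
        linear_combination h - hr
      rcases mul_eq_zero.1 h2 with h2 | h2
      · exact n2 (hi (chart_inj (hx i) (hx l) hd a c (by linarith)))
      · exact n3 (hi (chart_inj (hx j) (hx l) hd b c (by linarith)))
  obtain ⟨⟨v, z⟩, ⟨⟨hv, -⟩, hz⟩, hmin⟩ := Set.exists_min_image _
    (fun p : (ℝ × ℝ) × ι => Qf (x p.2) p.1 + (Qf (x p.2) p.1)⁻¹)
    ((hfin.prod Set.finite_univ).inter_of_left _) hne
  obtain ⟨i, j, l, n1, n2, n3, a, b, c⟩ := three v hv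
  change Qf (x z) v ≠ 1 at hz
  have hk := (hx z).Qf_pos a
  let w : ℝ × ℝ := (-(x z 1 * v.1 + x z 2 * v.2) / Qf (x z) v,
    (x z 0 * v.1 + x z 1 * v.2) / Qf (x z) v)
  have hd : v.1 * w.2 - v.2 * w.1 = 1 := by
    simp only [w]; field_simp; unfold Qf; ring
  have h0 : Bf (x z) v w = 0 := by
    simp only [Bf, w]; field_simp; ring
  obtain ⟨p, hp, q, hq, hpq⟩ := same_side (fun i => Bf (x i) v w)
    (fun e => n1 (hi (chart_inj (hx i) (hx j) hd a b e)))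
    (fun e => n2 (hi (chart_inj (hx i) (hx l) hd a c e)))
    (fun e => n3 (hi (chart_inj (hx j) (hx l) hd b c e)))
  have p1 : Qf (x p) v = 1 := by rcases hp with rfl | rfl | rfl <;> assumption
  have q1 : Qf (x q) v = 1 := by rcases hq with rfl | rfl | rfl <;> assumption
  obtain ⟨s, r, k1, k2, k3, k4⟩ := kelly_step hk hz hpq
  have e1 := chart (hx p) hd s r
  have e2 := chart (hx q) hd s r
  have e3 := chart (hx z) hd s r
  simp only [p1, q1, one_mul] at e1 e2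
  rw [h0, add_zero, k2] at e3
  have := hmin (r • (s • v + w), p) ⟨⟨⟨q, z, fun h => hz (h ▸ q1), e2.trans k1,
    mul_left_cancel₀ hk.ne' (by rw [e3, mul_one])⟩, trivial⟩, fun h => k3 (e1.symm.trans h)⟩
  simp only [e1] at this
  exact absurd k4 (not_lt.2 this)

/-- Sylvester-Gallai theorem for horocycles. -/
theorem one_le_ordinary (P : Finset ℂ) (hP : ∀ z ∈ P, ‖z‖ < 1) (hn : 2 ≤ #P) :
    1 ≤ (ordinary P).ncard := by
  obtain ⟨v, hv⟩ := exists_two (x := fun i : P => frm i) (fun i => frm_pt (hP _ i.2))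
    (fun i j e => Subtype.ext (frm_inj (hP _ i.2) (hP _ j.2) e)) (by simpa using hn)
  exact (Set.ncard_pos (ordinary_finite P)).2 ⟨_, hor_mem_ordinary P hP v hv⟩

end Pool.Agent.Lib.MP_596974_co
end
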