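import Pool.Agent.Lib.MP_596974_co.Small
import Pool.Agent.Lib.MP_596974_co.Cells

/-!
# Sets with many points on one or two horocycles
-/

namespace Pool.Agent.Lib.MP_596974_co

open Finset Classical

/-- The two branches attached to a point with chart values `k`, `β`. -/
noncomputable def lt {k : ℝ} (h0 : 0 < k) (h1 : k ≠ 1) (β : ℝ) (σ : Bool) : Lt where
  c := β / k
  l := (1 + k) / (1 - k)
  n := (if σ then 2 else -2) * √k / (1 - k)
  w := |1 - k| / k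
  h := by
    have := sub_ne_zero.2 h1.symm
    have e := Real.sq_sqrt h0.le
    split_ifs <;> field_simp <;> linear_combination 4 * e
  hn := by
    have := sub_ne_zero.2 h1.symm
    have := (Real.sqrt_pos.2 h0).ne'
    split_ifs <;> positivity
  hw := div_pos (abs_pos.2 (sub_ne_zero.2 h1.symm)) h0

lemma lt_F {k : ℝ} (h0 : 0 < k) (h1 : k ≠ 1) {β s t a r : ℝ} (hst : s ≠ t)
    (e1 : 1 = r ^ 2 * ((a + s) ^ 2 + 1)) (e2 : 1 = r ^ 2 * ((a + t) ^ 2 + 1))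
    (e3 : k = r ^ 2 * ((k * a + β) ^ 2 + 1)) : ∃ σ, (lt h0 h1 β σ).F s = t := by
  have r0 : r ^ 2 ≠ 0 := fun e => by simp [e] at e1
  have e4 : a = -(s + t) / 2 := mul_left_cancel₀ (mul_ne_zero r0 (sub_ne_zero.2 hst))
    (by linear_combination (e2 - e1) / 2)
  have e5 : (k * a + β) ^ 2 + 1 = k * ((a + s) ^ 2 + 1) :=
    mul_left_cancel₀ r0 (by linear_combination k * e1 - e3)
  have g : (lt h0 h1 β true).G s t := by
    have := sub_ne_zero.2 h1.symm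
    simp only [Lt.G, lt, if_true, div_pow, mul_pow, Real.sq_sqrt h0.le, sq_abs]
    rw [e4] at e5
    field_simp
    linear_combination (4 * k * (k - 1)) * e5
  rw [Lt.G, ← Real.sq_sqrt (show 0 ≤ (s - _) ^ 2 + _ ^ 2 by positivity), ← mul_pow] at g
  rcases sq_eq_sq_iff_eq_or_eq_neg.1 g with g | g
  · exact ⟨true, by unfold Lt.F; linear_combination -g⟩
  · refine ⟨false, ?_⟩
    simp only [Lt.F, lt, if_true, Bool.false_eq_true, if_false] at g ⊢
    linear_combination -g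

lemma chart_inj2 {x y} (hx : Pt x) (hy : Pt y) {v w : ℝ × ℝ} (hd : v.1 * w.2 - v.2 * w.1 = 1)
    (k : Qf x v ≠ 0) (d : Qf x v = Qf y v) (e : Bf x v w = Bf y v w) : x = y := by
  have h1 := chart hx hd 0 1
  have h2 := chart hy hd 0 1
  simp only [← d, e, zero_smul, zero_add, one_smul, mul_zero] at h1 h2
  have c : Qf x w = Qf y w := mul_left_cancel₀ k (h1.trans h2.symm)
  unfold Qf Bf at *
  refine fin3_ext ?_ ?_ ?_
  · linear_combination w.2 ^ 2 * d - 2 * v.2 * w.2 * e + v.2 ^ 2 * c -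
      (x 0 - y 0) * (v.1 * w.2 - v.2 * w.1 + 1) * hd
  · linear_combination (-w.1 * w.2) * d + (v.1 * w.2 + v.2 * w.1) * e - v.1 * v.2 * c -
      (x 1 - y 1) * (v.1 * w.2 - v.2 * w.1 + 1) * hd
  · linear_combination w.1 ^ 2 * d - 2 * v.1 * w.1 * e + v.1 ^ 2 * c -
      (x 2 - y 2) * (v.1 * w.2 - v.2 * w.1 + 1) * hd

lemma sum_two {α : Type} (D E : Finset α) (f g : α → ℂ) (hD : ∀ d ∈ D, f d ≠ g d)
    (T : Finset (Set ℂ)) (hT : ∀ H ∈ T, IsHorocycle H) (R : α → Set ℂ → Prop)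
    [∀ d H, Decidable (R d H)] (hR : ∀ d ∈ D, ∀ H ∈ T, R d H → d ∈ E ∧ f d ∈ H ∧ g d ∈ H) :
    ∑ H ∈ T, card {d ∈ D | R d H} ≤ E.card * 2 := by
  simp only [card_filter (R · _)]
  rw [sum_comm]
  refine (sum_le_sum (g := fun d => if d ∈ E then 2 else 0) fun d hd => ?_).trans ?_
  · rw [← card_filter]
    split_ifs with c
    · obtain ⟨H1, H2, h⟩ := pair_hor (hD d hd)
      refine (card_le_card (t := {H1, H2}) fun H hH => ?_).trans card_le_two
      obtain ⟨a, b⟩ := mem_filter.1 hH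
      simpa using h H (hT H a) (hR d hd H a b).2.1 (hR d hd H a b).2.2
    · rw [filter_eq_empty_iff.2 fun H a b => c (hR d hd H a b).1, card_empty]
  · rw [← sum_filter, sum_const, smul_eq_mul]
    exact Nat.mul_le_mul_right _ (card_le_card fun d hd => (mem_filter.1 hd).2)

theorem tri {ε : ℝ} (hε : 0 < ε) : ∃ n0 : ℕ, ∀ n : ℕ, n0 ≤ n → ∀ (H0 : Set ℂ) (X Y : Finset ℂ)
    (T : Finset (Set ℂ)), IsHorocycle H0 → X.card ≤ n → Y.card ≤ n → (∀ z ∈ X, z ∈ H0) →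
    (∀ z ∈ Y, ‖z‖ < 1 ∧ z ∉ H0) → (∀ H ∈ T, IsHorocycle H ∧ H ≠ H0) →
    ((∑ H ∈ T, (card {z ∈ X | z ∈ H} * card {z ∈ X | z ∈ H} - card {z ∈ X | z ∈ H}) *
      card {z ∈ Y | z ∈ H} : ℕ) : ℝ) ≤ ε * n ^ 2 := by
  obtain ⟨n0, h⟩ := inc (half_pos hε)
  refine ⟨n0, fun n hn H0 X Y T h0 cX cY hX hY hT => ?_⟩
  obtain ⟨v, rfl⟩ := h0.exists_vec
  rcases X.eq_empty_or_nonempty with rfl | ⟨z0, hz0⟩
  · simp
    positivity
  have q0 := (hX z0 hz0).2
  obtain ⟨w, hd⟩ : ∃ c : ℝ × ℝ, v.1 * c.2 - v.2 * c.1 = 1 :=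
    ⟨(-(frm z0 1 * v.1 + frm z0 2 * v.2), frm z0 0 * v.1 + frm z0 1 * v.2), by
      unfold Qf at q0; linear_combination q0⟩
  have k0 : ∀ p : Y, 0 < Qf (frm p) v := fun p => (frm_pt (hY _ p.2).1).Qf_pos q0
  have k1 : ∀ p : Y, Qf (frm p) v ≠ 1 := fun p e => (hY _ p.2).2 ⟨(hY _ p.2).1, e⟩
  let s : ℂ → ℝ := fun z => Bf (frm z) v w
  have si : Set.InjOn s X := fun z hz y hy e => frm_inj (hX z hz).1 (hX y hy).1
    (chart_inj (frm_pt (hX z hz).1) (frm_pt (hX y hy).1) hd (hX z hz).2 (hX y hy).2 e)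
  let p : Y × Bool → Lt := fun i => lt (k0 i.1) (k1 i.1) (s i.1) i.2
  have h1 := h n hn (Y × Bool) univ p (X.image s) (card_image_le.trans cX) (by simp; omega)
    fun κ => (card_le_card_of_injOn (t := univ) (fun i => (decide (Qf (frm i.1) v < 1), i.2))
      (fun _ _ => mem_univ _) fun i hi j hj e => ?_).trans (by simp)
  swap
  · obtain ⟨e1, e2⟩ := Prod.ext_iff.1 ((mem_filter.1 hi).2.trans (mem_filter.1 hj).2.symm)
    obtain ⟨e3, e4⟩ := Prod.ext_iff.1 e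
    simp only [p, lt, decide_eq_decide] at e1 e2 e3
    have a := k0 i.1
    have b := k0 j.1
    have e5 : Qf (frm i.1) v = Qf (frm j.1) v := by
      rw [div_eq_div_iff a.ne' b.ne'] at e2
      by_cases c : Qf (frm i.1) v < 1
      · rw [abs_of_pos (sub_pos.2 c), abs_of_pos (sub_pos.2 (e3.1 c))] at e2
        linear_combination -e2
      · rw [abs_of_nonpos (by linarith), abs_of_nonpos (by linarith [mt e3.2 c])] at e2
        linear_combination e2
    rw [e5, div_left_inj' b.ne'] at e1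
    exact Prod.ext (Subtype.ext (frm_inj (hY _ i.1.2).1 (hY _ j.1.2).1 (chart_inj2
      (frm_pt (hY _ i.1.2).1) (frm_pt (hY _ j.1.2).1) hd a.ne' e5 e1))) e4
  have h2 := sum_two (X.offDiag ×ˢ Y)
    {d ∈ X.offDiag ×ˢ Y | ∃ H ∈ T, (d.1.1 ∈ H ∧ d.1.2 ∈ H) ∧ d.2 ∈ H} (·.1.1) (·.1.2)
    (fun d hd => (mem_offDiag.1 (mem_product.1 hd).1).2.2) T (fun H a => (hT H a).1)
    (fun d H => (d.1.1 ∈ H ∧ d.1.2 ∈ H) ∧ d.2 ∈ H)
    fun _ b H c a => ⟨mem_filter.2 ⟨b, H, c, a⟩, a.1⟩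
  have h3 : card {d ∈ X.offDiag ×ˢ Y | ∃ H ∈ T, (d.1.1 ∈ H ∧ d.1.2 ∈ H) ∧ d.2 ∈ H} ≤
      ∑ i, card {a ∈ X.image s | (p i).F a ∈ X.image s} := by
    refine (card_le_card (t := univ.biUnion fun i : Y × Bool =>
      {a ∈ X.image s | (p i).F a ∈ X.image s}.image fun a => ((Function.invFunOn s X a,
        Function.invFunOn s X ((p i).F a)), (i.1 : ℂ))) fun d hd' => ?_).trans
      (card_biUnion_le.trans (sum_le_sum fun _ _ => card_image_le))
    obtain ⟨d1, H, hH, ⟨m1, m2⟩, m3⟩ := mem_filter.1 hd'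
    obtain ⟨d2, d3⟩ := mem_product.1 d1
    obtain ⟨x1, x2, x3⟩ := mem_offDiag.1 d2
    obtain ⟨u, rfl⟩ := (hT H hH).1.exists_vec
    have r0 : v.1 * u.2 - v.2 * u.1 ≠ 0 := fun e => (hT _ hH).2 (hor_par (hX _ x1).2 m1.2 e)
    obtain ⟨r, a, rfl⟩ : ∃ r a : ℝ, u = r • (a • v + w) :=
      ⟨v.1 * u.2 - v.2 * u.1, (u.1 * w.2 - u.2 * w.1) / (v.1 * u.2 - v.2 * u.1), by
        rw [smul_add, smul_smul, mul_div_cancel₀ _ r0]
        ext <;> simp only [Prod.smul_fst, Prod.smul_snd, Prod.fst_add, Prod.snd_add, smul_eq_mul]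
        · linear_combination (-u.1) * hd
        · linear_combination (-u.2) * hd⟩
    have c1 := chart (frm_pt m1.1) hd a r
    have c2 := chart (frm_pt m2.1) hd a r
    have c3 := chart (frm_pt m3.1) hd a r
    rw [m1.2, (hX _ x1).2, one_mul, one_mul] at c1
    rw [m2.2, (hX _ x2).2, one_mul, one_mul] at c2
    rw [m3.2, mul_one] at c3
    obtain ⟨σ, e⟩ := lt_F (k0 ⟨_, d3⟩) (k1 ⟨_, d3⟩) (fun e => x3 (si x1 x2 e)) c1 c2 c3
    have e' : (p (⟨_, d3⟩, σ)).F (s d.1.1) = s d.1.2 := e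
    refine mem_biUnion.2 ⟨(⟨_, d3⟩, σ), mem_univ _, mem_image.2 ⟨s d.1.1, mem_filter.2
      ⟨mem_image_of_mem _ x1, e' ▸ mem_image_of_mem _ x2⟩, ?_⟩⟩
    rw [e', si.leftInvOn_invFunOn x1, si.leftInvOn_invFunOn x2]
  rw [sum_congr rfl (g := fun H => card {d ∈ X.offDiag ×ˢ Y | (d.1.1 ∈ H ∧ d.1.2 ∈ H) ∧ d.2 ∈ H})
    fun H _ => by
      rw [← offDiag_card, ← card_product]
      congr 1
      ext d
      simp only [mem_product, mem_offDiag, mem_filter]
      tauto]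
  refine (Nat.cast_le.2 (h2.trans (Nat.mul_le_mul_right 2 h3))).trans ?_
  rw [Nat.cast_mul, Nat.cast_ofNat]
  linarith

lemma point_le {a b j y : ℕ} (ha : a ≤ 2) (hb : b ≤ 2) (hy : b = 2 → a + j ≤ y) :
    (a + b + j) * (a + b + j) - (a + b + j) ≤ (if a + b + j = 2 then 2 else 0) +
      (3 * (j * j - j) + 6 * (b * j)) + 3 * ((a * a - a) * (b + j)) + 3 * ((b * b - b) * y) := by
  have := Nat.le_mul_self j
  have h2 : 2 ≤ j → 2 * j ≤ j * j := fun h => Nat.mul_le_mul_right j h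
  have h1 : j = 1 → j * j = 1 := fun h => by rw [h]
  have h0 : j = 0 → j * j = 0 := fun h => by rw [h]
  have e : (a + b + j) * (a + b + j) = (a + b) * (a + b) + 2 * (a + b) * j + j * j := by ring
  rw [e]
  generalize j * j = q at *
  interval_cases a <;> interval_cases b <;> split_ifs <;> omega

theorem two_rich {ε : ℝ} (hε : 0 < ε) : ∃ n0 : ℕ, ∀ (P : Finset ℂ) (H1 H2 : Set ℂ),
    (∀ z ∈ P, ‖z‖ < 1) → n0 ≤ P.card → IsHorocycle H1 → IsHorocycle H2 →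
    (P.card : ℝ) ^ 2 - ((card {z ∈ P | z ∈ H1} : ℝ) ^ 2 + (card {z ∈ P | z ∈ H2 \ H1} : ℝ) ^ 2) / 2 -
      3 * (card {z ∈ P | z ∉ H1 ∪ H2} : ℝ) *
        (card {z ∈ P | z ∉ H1 ∪ H2} + 2 * card {z ∈ P | z ∈ H2 \ H1}) -
      ε * (P.card : ℝ) ^ 2 ≤ (ordinary P).ncard := by
  obtain ⟨n0, h⟩ := tri (show 0 < ε / 6 by positivity)
  obtain ⟨n1, hn⟩ := exists_nat_gt (10 / ε)
  refine ⟨n0 + n1, fun P H1 H2 hP h0 h1 h2 => ?_⟩
  obtain ⟨T, hT⟩ := exists_rich P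
  have ho : (ordinary P).ncard = card {H ∈ T | card {z ∈ P | z ∈ H} = 2} := by
    rw [← Set.ncard_coe_finset]
    congr 1
    ext H
    simp only [ordinary, ncard_inter, Set.mem_ofPred_eq, coe_filter, hT]
    exact ⟨fun h => ⟨⟨h.1, h.2.ge⟩, h.2⟩, fun h => ⟨h.1.1, h.2⟩⟩
  have s1 := pairs_le P hP T fun H a b => (hT H).2 ⟨a, b⟩
  set A := {z ∈ P | z ∈ H1} with hA
  set B := {z ∈ P | z ∈ H2 \ H1} with hB
  set K := {z ∈ P | z ∉ H1 ∪ H2} with hK
  let T' := {H ∈ T | H ≠ H1 ∧ H ≠ H2}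
  have t0 : ∀ H ∈ T', IsHorocycle H := fun H a => ((hT H).1 (mem_filter.1 a).1).1
  have s2 := sum_pairs K T' t0
  have s3 : ∑ H ∈ T', card {z ∈ B | z ∈ H} * card {z ∈ K | z ∈ H} ≤ B.card * K.card * 2 := by
    simp only [← card_product, ← filter_product]
    exact sum_two (B ×ˢ K) _ (·.1) (·.2) (fun d hd e => (mem_filter.1 (mem_product.1 hd).2).2
      (.inr (e ▸ (mem_filter.1 (mem_product.1 hd).1).2.1))) T' t0 (fun d H => d.1 ∈ H ∧ d.2 ∈ H)
      fun _ b _ _ a => ⟨b, a⟩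
  have s4 := h P.card (by omega) H1 A {z ∈ P | z ∉ H1} T' h1 (card_filter_le _ _)
    (card_filter_le _ _) (fun z a => (mem_filter.1 a).2)
    (fun z a => ⟨hP z (mem_filter.1 a).1, (mem_filter.1 a).2⟩)
    fun H a => ⟨t0 H a, (mem_filter.1 a).2.1⟩
  have s5 := h P.card (by omega) H2 B {z ∈ P | z ∉ H2} T' h2 (card_filter_le _ _)
    (card_filter_le _ _) (fun z a => (mem_filter.1 a).2.1)
    (fun z a => ⟨hP z (mem_filter.1 a).1, (mem_filter.1 a).2⟩)
    fun H a => ⟨t0 H a, (mem_filter.1 a).2.2⟩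
  have c1 : ∀ H : Set ℂ, card {z ∈ {z ∈ P | z ∉ H1} | z ∈ H} =
      card {z ∈ B | z ∈ H} + card {z ∈ K | z ∈ H} := fun H => by
    rw [← card_filter_add_card_filter_not (s := {z ∈ {z ∈ P | z ∉ H1} | z ∈ H}) (· ∈ H2)]
    congr 2 <;> ext z <;> simp only [hB, hK, mem_filter, Set.mem_sdiff, Set.mem_union] <;> tauto
  have c2 : ∀ H : Set ℂ, card {z ∈ P | z ∈ H} =
      card {z ∈ A | z ∈ H} + card {z ∈ B | z ∈ H} + card {z ∈ K | z ∈ H} := fun H => by
    rw [add_assoc, ← c1, ← card_filter_add_card_filter_not (s := {z ∈ P | z ∈ H}) (· ∈ H1)]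
    congr 2 <;> ext z <;> simp only [hA, mem_filter] <;> tauto
  have s6 := sum_le_sum (s := T')
    (f := fun H => card {z ∈ P | z ∈ H} * card {z ∈ P | z ∈ H} - card {z ∈ P | z ∈ H})
    (g := fun H => (if card {z ∈ P | z ∈ H} = 2 then 2 else 0) +
      (3 * (card {z ∈ K | z ∈ H} * card {z ∈ K | z ∈ H} - card {z ∈ K | z ∈ H}) +
        6 * (card {z ∈ B | z ∈ H} * card {z ∈ K | z ∈ H})) +
      3 * ((card {z ∈ A | z ∈ H} * card {z ∈ A | z ∈ H} - card {z ∈ A | z ∈ H}) *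
        card {z ∈ {z ∈ P | z ∉ H1} | z ∈ H}) +
      3 * ((card {z ∈ B | z ∈ H} * card {z ∈ B | z ∈ H} - card {z ∈ B | z ∈ H}) *
        card {z ∈ {z ∈ P | z ∉ H2} | z ∈ H})) fun H hH => by
      have n := (mem_filter.1 hH).2
      rw [c2, c1]
      refine point_le (y := card {z ∈ {z ∈ P | z ∉ H2} | z ∈ H})
        (three_pts h1 (t0 H hH) n.1.symm A fun z a => (mem_filter.1 a).2)
        (three_pts h2 (t0 H hH) n.2.symm B fun z a => (mem_filter.1 a).2.1) fun e => ?_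
      have e1 := c2 H
      have e2 := three_pts h2 (t0 H hH) n.2.symm {z ∈ P | z ∈ H2} fun z a => (mem_filter.1 a).2
      rw [← card_filter_add_card_filter_not (s := {z ∈ P | z ∈ H}) (· ∈ H2), filter_comm,
        filter_comm (· ∈ H)] at e1
      omega
  simp only [sum_add_distrib, ← mul_sum] at s6
  rw [← sum_filter, sum_const, smul_eq_mul] at s6
  have s7 : card {H ∈ T' | card {z ∈ P | z ∈ H} = 2} ≤ (ordinary P).ncard :=
    ho ▸ card_le_card (filter_subset_filter _ (filter_subset _ _))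
  have s8 : ∑ H ∈ T with ¬ (H ≠ H1 ∧ H ≠ H2), (card {z ∈ P | z ∈ H} * card {z ∈ P | z ∈ H} -
      card {z ∈ P | z ∈ H}) ≤ A.card * A.card + (B.card + 2) * (B.card + 2) := by
    refine (sum_le_sum_of_subset (t := {H1, H2}) fun H a => ?_).trans ?_
    · have := (mem_filter.1 a).2
      simp only [mem_insert, mem_singleton]
      tauto
    rcases eq_or_ne H1 H2 with rfl | e
    · rw [pair_eq_singleton, sum_singleton]
      exact le_add_right (Nat.sub_le _ _)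
    · rw [sum_pair e]
      have e1 : card {z ∈ P | z ∈ H2} ≤ B.card + 2 := by
        have e2 := three_pts h1 h2 e A fun z a => (mem_filter.1 a).2
        have e3 : card {z ∈ K | z ∈ H2} = 0 :=
          card_eq_zero.2 (filter_eq_empty_iff.2 fun z a b => (mem_filter.1 a).2 (.inr b))
        have e4 := card_filter_le B (· ∈ H2)
        rw [c2]
        omega
      exact add_le_add (Nat.sub_le _ _) ((Nat.sub_le _ _).trans (Nat.mul_le_mul e1 e1))
  rw [← sum_filter_add_sum_filter_not T fun H => H ≠ H1 ∧ H ≠ H2] at s1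
  have s9 := s1.trans (add_le_add s6 s8)
  generalize ∑ H ∈ T', _ * card {z ∈ {z ∈ P | z ∉ H1} | z ∈ H} = S1 at *
  generalize ∑ H ∈ T', _ * card {z ∈ {z ∈ P | z ∉ H2} | z ∈ H} = S2 at *
  have b1 : B.card ≤ P.card := card_filter_le _ _
  have s10 : 2 * (P.card * P.card) ≤ 2 * (ordinary P).ncard + 6 * (K.card * K.card) +
      12 * (B.card * K.card) + 3 * S1 + 3 * S2 + A.card * A.card + B.card * B.card +
      6 * P.card + 4 := by
    have : (B.card + 2) * (B.card + 2) = B.card * B.card + 4 * B.card + 4 := by ring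
    omega
  have s11 : ((_ : ℕ) : ℝ) ≤ (_ : ℕ) := Nat.cast_le.2 s10
  push_cast at s11
  have n2 : (n1 : ℝ) ≤ P.card := by exact_mod_cast (by omega : n1 ≤ P.card)
  have n3 : (1 : ℝ) ≤ P.card := by
    have : (0 : ℝ) < P.card := (lt_trans (by positivity) hn).trans_le n2
    exact_mod_cast this
  rw [div_lt_iff₀ hε] at hn
  nlinarith [mul_le_mul_of_nonneg_left (hn.le.trans (mul_le_mul_of_nonneg_right n2 hε.le))
    (zero_le_one.trans n3)]

end Pool.Agent.Lib.MP_596974_co
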