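import Pool.Agent.Lib.MP_596974_co.Upper

/-!
# The least number of ordinary horocycles for at most six points
-/

namespace Pool.Agent.Lib.MP_596974_co

open Finset Classical

lemma hor_par {x} {u v : ℝ × ℝ} (hu : Qf x u = 1) (hv : Qf x v = 1)
    (h : u.1 * v.2 - u.2 * v.1 = 0) : hor v = hor u := by
  unfold Qf at hu hv
  obtain ⟨b, hb⟩ : ∃ b, b = x 0 * u.1 * v.1 + x 1 * (u.1 * v.2 + u.2 * v.1) + x 2 * u.2 * v.2 :=
    ⟨_, rfl⟩
  have e1 : v.1 = b * u.1 := by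
    rw [hb]; linear_combination (-v.1) * hu - (x 1 * u.1 + x 2 * u.2) * h
  have e2 : v.2 = b * u.2 := by
    rw [hb]; linear_combination (-v.2) * hu + (x 0 * u.1 + x 1 * u.2) * h
  have e3 : (b - 1) * (b + 1) = 0 := by
    rw [e1, e2] at hv; linear_combination hv - b ^ 2 * hu
  rcases mul_eq_zero.1 e3 with e | e
  · rw [show v = u from Prod.ext (by rw [e1]; linear_combination u.1 * e)
      (by rw [e2]; linear_combination u.2 * e)]
  · rw [show v = -u from Prod.ext (by rw [e1, Prod.fst_neg]; linear_combination u.1 * e)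
      (by rw [e2, Prod.snd_neg]; linear_combination u.2 * e), hor_neg]

lemma hor_ne {x} {u w : ℝ × ℝ} (hx : Qf x u = 1) (d : u.1 * w.2 - u.2 * w.1 ≠ 0) :
    hor u ≠ hor w := by
  intro h
  obtain ⟨c, hc⟩ : ∃ c : ℝ × ℝ, u.1 * c.2 - u.2 * c.1 = 1 :=
    ⟨(-(x 1 * u.1 + x 2 * u.2), x 0 * u.1 + x 1 * u.2), by unfold Qf at hx; linear_combination hx⟩
  have key : ∀ b : ℝ, (w.1 * c.2 - w.2 * c.1 + b * (u.1 * w.2 - u.2 * w.1)) ^ 2 +
      (u.1 * w.2 - u.2 * w.1) ^ 2 = 1 := fun b => by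
    let y : Fin 3 → ℝ := ![(c.2 - b * u.2) ^ 2 + u.2 ^ 2, (c.2 - b * u.2) * (b * u.1 - c.1) -
      u.1 * u.2, (b * u.1 - c.1) ^ 2 + u.1 ^ 2]
    have d1 : dt y = 1 := by
      simp only [dt, y, Matrix.cons_val_zero, Matrix.cons_val_one, Matrix.cons_val]
      linear_combination (u.1 * c.2 - u.2 * c.1 + 1) * hc
    have py : Pt y := ⟨d1, lt_of_le_of_ne (by simp only [y, Matrix.cons_val_zero]; positivity)
      fun e => by
        unfold dt at d1
        rw [← e] at d1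
        nlinarith [sq_nonneg (y 1)]⟩
    have m : Qf y u = 1 := by
      simp only [Qf, y, Matrix.cons_val_zero, Matrix.cons_val_one, Matrix.cons_val]
      linear_combination (u.1 * c.2 - u.2 * c.1 + 1) * hc
    have m2 : Qf y w = 1 := by rwa [← mem_hor py, ← h, mem_hor py]
    simp only [Qf, y, Matrix.cons_val_zero, Matrix.cons_val_one, Matrix.cons_val] at m2
    linear_combination m2
  refine d (pow_eq_zero_iff (n := 2) two_ne_zero |>.1 ?_)
  linear_combination (key 1 + key (-1)) / 2 - key 0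

lemma two_hor {z w : ℂ} (hz : ‖z‖ < 1) (hw : ‖w‖ < 1) (hne : z ≠ w) : ∃ H1 H2 : Set ℂ, H1 ≠ H2 ∧
    (IsHorocycle H1 ∧ z ∈ H1 ∧ w ∈ H1) ∧ IsHorocycle H2 ∧ z ∈ H2 ∧ w ∈ H2 := by
  have hx := frm_pt hz
  have hy := frm_pt hw
  have key : ∀ u v : ℝ × ℝ, u.1 * v.2 - u.2 * v.1 ≠ 0 → Qf (frm z) u = 1 → Qf (frm w) u = 1 →
      Qf (frm z) v = 1 → Qf (frm w) v = 1 → ∃ H1 H2 : Set ℂ, H1 ≠ H2 ∧
      (IsHorocycle H1 ∧ z ∈ H1 ∧ w ∈ H1) ∧ IsHorocycle H2 ∧ z ∈ H2 ∧ w ∈ H2 :=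
    fun u v d a b c e => ⟨hor u, hor v, hor_ne a d,
      ⟨hor_isHorocycle (z := z) ⟨hz, a⟩, ⟨hz, a⟩, hw, b⟩, hor_isHorocycle (z := z) ⟨hz, c⟩,
        ⟨hz, c⟩, hw, e⟩
  obtain ⟨a, ha⟩ := hx.cross hy fun e => hne (frm_inj hz hw e)
  have pa := hx.ev_pos a
  have sa := (Real.sqrt_pos.2 pa).ne'
  by_cases h0 : frm z 0 = frm w 0
  · have s0 := (Real.sqrt_pos.2 hx.2).ne'
    have q : frm z 0 * (1 / √(frm z 0)) ^ 2 = 1 := by
      rw [div_pow, Real.sq_sqrt hx.2.le]; field_simp [hx.2.ne']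
    refine key _ (1 / √(frm z 0), 0) ?_ ((Qf_scale _ a pa).2 rfl) ((Qf_scale _ a pa).2 ha.symm)
      (by simpa [Qf] using q) (by rw [h0] at q ⊢; simpa [Qf] using q)
    simp [sa, s0]
  · obtain ⟨b, hb, e⟩ := hx.second hy h0 ha
    have pb := hx.ev_pos b
    have sb := (Real.sqrt_pos.2 pb).ne'
    refine key _ _ ?_ ((Qf_scale _ a pa).2 rfl) ((Qf_scale _ a pa).2 ha.symm)
      ((Qf_scale _ b pb).2 rfl) ((Qf_scale _ b pb).2 e.symm)
    intro h
    apply hb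
    field_simp at h
    linarith

lemma pairs_le (P : Finset ℂ) (hP : ∀ z ∈ P, ‖z‖ < 1) (T : Finset (Set ℂ))
    (hT : ∀ H, IsHorocycle H → 2 ≤ #{z ∈ P | z ∈ H} → H ∈ T) :
    (#P * #P - #P) * 2 ≤ ∑ H ∈ T, (#{z ∈ P | z ∈ H} * #{z ∈ P | z ∈ H} - #{z ∈ P | z ∈ H}) := by
  rw [← offDiag_card, ← smul_eq_mul, ← sum_const,
    sum_congr rfl (s₁ := T)
      (g := fun H => ∑ p ∈ P.offDiag, if p.1 ∈ H ∧ p.2 ∈ H then 1 else 0) fun H _ => by
      rw [← offDiag_card, ← card_filter]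
      congr 1
      ext p
      simp only [mem_offDiag, mem_filter]
      tauto, sum_comm]
  refine sum_le_sum fun p hp => ?_
  obtain ⟨a, b, c⟩ := mem_offDiag.1 hp
  obtain ⟨H1, H2, n, h1, h2⟩ := two_hor (hP _ a) (hP _ b) c
  have k : ∀ H, IsHorocycle H ∧ p.1 ∈ H ∧ p.2 ∈ H → H ∈ {H ∈ T | p.1 ∈ H ∧ p.2 ∈ H} := fun H h =>
    mem_filter.2 ⟨hT H h.1 (one_lt_card.2 ⟨_, mem_filter.2 ⟨a, h.2.1⟩, _, mem_filter.2 ⟨b, h.2.2⟩,
      c⟩), h.2⟩
  rw [← card_filter]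
  exact one_lt_card.2 ⟨_, k _ h1, _, k _ h2, n⟩

lemma three_pts {H1 H2 : Set ℂ} (h1 : IsHorocycle H1) (h2 : IsHorocycle H2) (hne : H1 ≠ H2)
    (P : Finset ℂ) (hP : ∀ z ∈ P, z ∈ H1) : #{z ∈ P | z ∈ H2} ≤ 2 := by
  obtain ⟨u, rfl⟩ := h1.exists_vec
  obtain ⟨w, rfl⟩ := h2.exists_vec
  by_contra hc
  obtain ⟨a, ha, b, hb, c, hc, n1, n2, n3⟩ := two_lt_card.1 (not_le.1 hc)
  simp only [mem_filter] at ha hb hc
  have d : u.1 * w.2 - u.2 * w.1 ≠ 0 := fun d => hne (hor_par (hP _ ha.1).2 ha.2.2 d).symm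
  have sq : ∀ z, z ∈ P ∧ z ∈ hor w → Bf (frm z) u w ^ 2 = 1 - (u.1 * w.2 - u.2 * w.1) ^ 2 :=
    fun z hz => by
      have e1 := (hP _ hz.1).2
      have e2 := hz.2.2
      have e3 := (frm_pt hz.2.1).1
      unfold Qf dt Bf at *
      linear_combination e2 + (frm z 0 * w.1 ^ 2 + 2 * frm z 1 * w.1 * w.2 + frm z 2 * w.2 ^ 2) * e1
        - (u.1 * w.2 - u.2 * w.1) ^ 2 * e3
  have ng : ∀ z z', z ∈ P ∧ z ∈ hor w → z' ∈ P ∧ z' ∈ hor w → z ≠ z' →
      Bf (frm z) u w = -Bf (frm z') u w := fun z z' hz hz' n => by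
    refine (sq_eq_sq_iff_eq_or_eq_neg.1 ((sq z hz).trans (sq z' hz').symm)).resolve_left fun hB => ?_
    have a1 := (hP _ hz.1).2
    have b1 := (hP _ hz'.1).2
    have a2 := hz.2.2
    have b2 := hz'.2.2
    unfold Qf Bf at *
    refine n (frm_inj hz.2.1 hz'.2.1 (fin3_ext ?_ ?_ ?_)) <;>
      apply mul_left_cancel₀ (pow_ne_zero 2 d)
    · linear_combination w.2 ^ 2 * (a1 - b1) - 2 * u.2 * w.2 * hB + u.2 ^ 2 * (a2 - b2)
    · linear_combination (-w.1 * w.2) * (a1 - b1) + (u.1 * w.2 + u.2 * w.1) * hB -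
        u.1 * u.2 * (a2 - b2)
    · linear_combination w.1 ^ 2 * (a1 - b1) - 2 * u.1 * w.1 * hB + u.1 ^ 2 * (a2 - b2)
  have e1 := ng a b ha hb n1
  have e2 := ng a c ha hc n2
  have e3 := ng b c hb hc n3
  have e4 : Bf (frm a) u w = 0 := by linarith
  have e5 : Bf (frm b) u w = 0 := by linarith
  have e6 : Bf (frm a) u w = Bf (frm b) u w := e4.trans e5.symm
  have a1 := (hP _ ha.1).2
  have b1 := (hP _ hb.1).2
  have a2 := ha.2.2
  have b2 := hb.2.2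
  unfold Qf Bf at *
  refine n1 (frm_inj ha.2.1 hb.2.1 (fin3_ext ?_ ?_ ?_)) <;>
    apply mul_left_cancel₀ (pow_ne_zero 2 d)
  · linear_combination w.2 ^ 2 * (a1 - b1) - 2 * u.2 * w.2 * e6 + u.2 ^ 2 * (a2 - b2)
  · linear_combination (-w.1 * w.2) * (a1 - b1) + (u.1 * w.2 + u.2 * w.1) * e6 -
      u.1 * u.2 * (a2 - b2)
  · linear_combination w.1 ^ 2 * (a1 - b1) - 2 * u.1 * w.1 * e6 + u.1 ^ 2 * (a2 - b2)

lemma exists_rich (P : Finset ℂ) :
    ∃ T : Finset (Set ℂ), ∀ H, H ∈ T ↔ IsHorocycle H ∧ 2 ≤ #{z ∈ P | z ∈ H} := by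
  have : {H | IsHorocycle H ∧ 2 ≤ #{z ∈ P | z ∈ H}}.Finite := by
    refine (P.offDiag.finite_toSet.biUnion
      (t := fun p => {H | IsHorocycle H ∧ p.1 ∈ H ∧ p.2 ∈ H}) fun p hp => ?_).subset ?_
    · obtain ⟨H1, H2, h⟩ := pair_hor (mem_offDiag.1 hp).2.2
      exact (Set.toFinite {H1, H2}).subset fun H hH => h H hH.1 hH.2.1 hH.2.2
    · rintro H ⟨h1, h2⟩
      obtain ⟨z, hz, w, hw, hne⟩ := one_lt_card.1 h2
      exact Set.mem_biUnion (x := (z, w))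
        (mem_coe.2 (mem_offDiag.2 ⟨(mem_filter.1 hz).1, (mem_filter.1 hw).1, hne⟩))
        ⟨h1, (mem_filter.1 hz).2, (mem_filter.1 hw).2⟩
  exact ⟨this.toFinset, fun H => this.mem_toFinset⟩

theorem small_lower (P : Finset ℂ) (hP : ∀ z ∈ P, ‖z‖ < 1) (h3 : 3 ≤ #P) (h6 : #P ≤ 6) :
    (if #P = 5 then 2 else 3) ≤ (ordinary P).ncard := by
  obtain ⟨T, hT⟩ := exists_rich P
  have ho : (ordinary P).ncard = #{H ∈ T | #{z ∈ P | z ∈ H} = 2} := by
    rw [← Set.ncard_coe_finset]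
    congr 1
    ext H
    simp only [ordinary, ncard_inter, Set.mem_ofPred_eq, coe_filter, hT]
    exact ⟨fun h => ⟨⟨h.1, h.2.ge⟩, h.2⟩, fun h => ⟨h.1.1, h.2⟩⟩
  have s1 := sum_pairs P T fun H h => ((hT H).1 h).1
  have s2 := pairs_le P hP T fun H a b => (hT H).2 ⟨a, b⟩
  have s3 : ∑ H ∈ T with #{z ∈ P | z ∈ H} = 2,
      (#{z ∈ P | z ∈ H} * #{z ∈ P | z ∈ H} - #{z ∈ P | z ∈ H}) = (ordinary P).ncard * 2 := by
    rw [ho, ← smul_eq_mul, ← sum_const]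
    exact sum_congr rfl fun H h => by rw [(mem_filter.1 h).2]
  rw [← sum_filter_add_sum_filter_not T fun H => #{z ∈ P | z ∈ H} = 2, s3] at s1 s2
  have o1 := one_le_ordinary P hP (by omega)
  have k3 : ∀ H ∈ {H ∈ T | ¬ #{z ∈ P | z ∈ H} = 2}, 3 ≤ #{z ∈ P | z ∈ H} := fun H h => by
    have := ((hT H).1 (mem_filter.1 h).1).2
    have := (mem_filter.1 h).2
    omega
  by_cases h5 : ∃ H ∈ T, #{z ∈ P | z ∈ H} = 5
  · obtain ⟨H0, a, b⟩ := h5
    have t1 := pairs_le {z ∈ P | z ∈ H0} (fun z hz => hP z (mem_filter.1 hz).1) T fun H c d =>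
      (hT H).2 ⟨c, d.trans (card_le_card fun z hz => mem_filter.2
        ⟨(mem_filter.1 (mem_filter.1 hz).1).1, (mem_filter.1 hz).2⟩)⟩
    have t2 : ∑ H ∈ T.erase H0, (#{z ∈ {z ∈ P | z ∈ H0} | z ∈ H} * #{z ∈ {z ∈ P | z ∈ H0} | z ∈ H} -
        #{z ∈ {z ∈ P | z ∈ H0} | z ∈ H}) ≤ #(T.erase H0) * 2 :=
      sum_le_card_nsmul _ _ 2 fun H h => by
        have := three_pts ((hT _).1 a).1 ((hT _).1 (mem_of_mem_erase h)).1 (ne_of_mem_erase h).symm
          {z ∈ P | z ∈ H0} fun z hz => (mem_filter.1 hz).2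
        generalize #{z ∈ {z ∈ P | z ∈ H0} | z ∈ H} = k at this ⊢
        interval_cases k <;> simp
    have t3 : #{z ∈ {z ∈ P | z ∈ H0} | z ∈ H0} = 5 := by
      rw [filter_filter]; simpa using b
    rw [← add_sum_erase _ _ a, t3, b] at t1
    have m : H0 ∈ {H ∈ T | ¬ #{z ∈ P | z ∈ H} = 2} := mem_filter.2 ⟨a, by omega⟩
    have t4 : #(({H ∈ T | ¬ #{z ∈ P | z ∈ H} = 2} : Finset _).erase H0) * 6 ≤
        ∑ H ∈ ({H ∈ T | ¬ #{z ∈ P | z ∈ H} = 2} : Finset _).erase H0,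
          (#{z ∈ P | z ∈ H} * #{z ∈ P | z ∈ H} - #{z ∈ P | z ∈ H}) :=
      card_nsmul_le_sum _ _ 6 fun H h =>
        Nat.le_sub_of_add_le (by nlinarith [k3 H (mem_of_mem_erase h)])
    rw [← add_sum_erase _ _ m, b] at s1
    have t5 := card_erase_add_one m
    have t6 := card_erase_add_one a
    have t7 := card_filter_add_card_filter_not (s := T) fun H => #{z ∈ P | z ∈ H} = 2
    rw [← ho] at t7
    have t8 : #P * #P - #P ≤ 30 := by
      generalize #P = n at *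
      interval_cases n <;> simp
    split_ifs <;> omega
  · have t1 : 6 ∣ ∑ H ∈ T with ¬ #{z ∈ P | z ∈ H} = 2,
        (#{z ∈ P | z ∈ H} * #{z ∈ P | z ∈ H} - #{z ∈ P | z ∈ H}) := dvd_sum fun H h => by
      have a := k3 H h
      have b : #{z ∈ P | z ∈ H} ≤ 6 := (card_filter_le _ _).trans h6
      have c : #{z ∈ P | z ∈ H} ≠ 5 := fun c => h5 ⟨H, (mem_filter.1 h).1, c⟩
      generalize #{z ∈ P | z ∈ H} = k at *
      interval_cases k <;> simp at c ⊢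
    obtain ⟨m, hm⟩ := t1
    rw [hm] at s1 s2
    generalize #P = n at *
    interval_cases n <;> simp at s1 s2 ⊢ <;> omega

/-- Points `X i + k i √e` times the imaginary unit of the upper half plane, and horocycles with
ideal point `p j / q j` through the points indexed by `S j`. -/
theorem config {n m : ℕ} {e : ℝ} (he : 0 < e) (X k : Fin n → ℝ) (hk : ∀ i, 0 < k i)
    (hi : ∀ i j, X i = X j → k i = k j → i = j) (p q D : Fin m → ℝ) (hD : ∀ j, 0 < D j)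
    (hc : ∀ j l, j < l → p j * q l - q j * p l < 0) (S : Fin m → Finset (Fin n))
    (h3 : ∀ j, 3 ≤ #(S j))
    (hS : ∀ j, ∀ i ∈ S j, (p j - X i * q j) ^ 2 + k i ^ 2 * e * q j ^ 2 = D j * k i) :
    ∃ P : Finset ℂ, (∀ z ∈ P, ‖z‖ < 1) ∧ #P = n ∧
      (ordinary P).ncard * 2 + ∑ j, (#(S j) * #(S j) - #(S j)) ≤ (n * n - n) * 2 := by
  obtain ⟨r, r0, hr⟩ : ∃ r : ℝ, 0 < r ∧ r ^ 2 = e := ⟨√e, Real.sqrt_pos.2 he, Real.sq_sqrt he.le⟩
  let x : Fin n → Fin 3 → ℝ := fun i =>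
    ![1 / (k i * r), -X i / (k i * r), (X i ^ 2 + k i ^ 2 * e) / (k i * r)]
  have px : ∀ i, Pt (x i) := fun i => by
    have := hk i
    constructor
    · simp only [dt, x, Matrix.cons_val_zero, Matrix.cons_val_one, Matrix.cons_val, ← hr]
      field_simp
      ring
    · simp only [x, Matrix.cons_val_zero]
      positivity
  have inj : Function.Injective fun i => pnt (x i) := fun i j h => by
    have e := pnt_inj (px i) (px j) h
    have e0 := congrFun e 0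
    have e1 := congrFun e 1
    have := hk i
    have := hk j
    simp only [x, Matrix.cons_val_zero, Matrix.cons_val_one] at e0 e1
    have a : k i = k j := by field_simp at e0; linarith
    rw [a] at e1
    exact hi i j (by field_simp at e1; linarith) a
  let v : Fin m → ℝ × ℝ := fun j => (√(r / D j) * p j, √(r / D j) * q j)
  have hv : ∀ j, ∀ i ∈ S j, Qf (x i) (v j) = 1 := fun j i h => by
    have := hk i
    have := hD j
    have s : √(r / D j) ^ 2 = r / D j := Real.sq_sqrt (by positivity)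
    have : Qf (x i) (v j) = √(r / D j) ^ 2 *
        ((p j - X i * q j) ^ 2 + k i ^ 2 * e * q j ^ 2) / (k i * r) := by
      simp only [Qf, x, v, Matrix.cons_val_zero, Matrix.cons_val_one, Matrix.cons_val]
      field_simp
      ring
    rw [this, s, hS j i h]
    field_simp
  have ex : ∀ j, ∃ i, i ∈ S j := fun j => card_pos.1 (by have := h3 j; omega)
  have hne : ∀ j l, j < l → hor (v j) ≠ hor (v l) := fun j l h => by
    obtain ⟨i, a⟩ := ex j
    refine hor_ne (hv j i a) ?_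
    have a1 : 0 < √(r / D j) := Real.sqrt_pos.2 (div_pos r0 (hD j))
    have a2 : 0 < √(r / D l) := Real.sqrt_pos.2 (div_pos r0 (hD l))
    have := mul_neg_of_pos_of_neg (mul_pos a1 a2) (hc j l h)
    simp only [v]
    intro c
    linarith
  have hinj : Function.Injective fun j => hor (v j) := fun j l h => by
    rcases lt_trichotomy j l with a | a | a
    exacts [absurd h (hne j l a), a, absurd h.symm (hne l j a)]
  let P := univ.image fun i => pnt (x i)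
  have hP : #P = n := by rw [card_image_of_injective _ inj, card_univ, Fintype.card_fin]
  have kS : ∀ j, #(S j) ≤ #{z ∈ P | z ∈ hor (v j)} := fun j => by
    rw [← card_image_of_injective (S j) inj]
    refine card_le_card fun z hz => ?_
    obtain ⟨i, a, rfl⟩ := mem_image.1 hz
    exact mem_filter.2 ⟨mem_image_of_mem _ (mem_univ i), (mem_hor (px i) _).2 (hv j i a)⟩
  refine ⟨P, fun z hz => ?_, hP, ?_⟩
  · obtain ⟨i, -, rfl⟩ := mem_image.1 hz
    exact (px i).norm_pnt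
  let O := (ordinary_finite P).toFinset
  have kO : ∀ H ∈ O, IsHorocycle H ∧ #{z ∈ P | z ∈ H} = 2 := fun H hH => by
    have := (Set.Finite.mem_toFinset _).1 hH
    exact ⟨this.1, by rw [← ncard_inter]; exact this.2⟩
  have s := sum_pairs P (O ∪ univ.image fun j => hor (v j)) fun H hH => by
    rcases mem_union.1 hH with h | h
    · exact (kO H h).1
    · obtain ⟨j, -, rfl⟩ := mem_image.1 h
      obtain ⟨i, a⟩ := ex j
      exact hor_isHorocycle ((mem_hor (px i) _).2 (hv j i a))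
  rw [sum_union (disjoint_left.2 fun H b c => by
    obtain ⟨j, -, rfl⟩ := mem_image.1 c
    have := (kO _ b).2
    have := kS j
    have := h3 j
    omega), sum_image fun j _ l _ h => hinj h, hP] at s
  have s1 : #O * 2 ≤ ∑ H ∈ O, (#{z ∈ P | z ∈ H} * #{z ∈ P | z ∈ H} - #{z ∈ P | z ∈ H}) :=
    card_nsmul_le_sum _ _ 2 fun H hH => by rw [(kO H hH).2]
  have s2 : ∑ j, (#(S j) * #(S j) - #(S j)) ≤ ∑ j, (#{z ∈ P | z ∈ hor (v j)} *
      #{z ∈ P | z ∈ hor (v j)} - #{z ∈ P | z ∈ hor (v j)}) := sum_le_sum fun j _ => by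
    rw [← Nat.mul_sub_one, ← Nat.mul_sub_one]
    exact Nat.mul_le_mul (kS j) (Nat.sub_le_sub_right (kS j) 1)
  rw [Set.ncard_eq_toFinset_card _ (ordinary_finite P)]
  change #O * 2 + _ ≤ _
  omega

lemma config3 : ∃ P : Finset ℂ, (∀ z ∈ P, ‖z‖ < 1) ∧ #P = 3 ∧ (ordinary P).ncard ≤ 3 := by
  obtain ⟨P, h1, h2, h3⟩ := config (n := 3) (m := 1) one_pos ![0, 1, 2] ![1, 1, 1]
    (fun i => by fin_cases i <;> simp) (fun i j => by fin_cases i <;> fin_cases j <;> simp)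
    ![1] ![0] ![1] (fun j => by fin_cases j; simp) (fun j l h => by omega) ![{0, 1, 2}]
    (by decide) (fun j i => by fin_cases j; fin_cases i <;> simp)
  have : ∑ j : Fin 1, (#((![{0, 1, 2}] : Fin 1 → Finset (Fin 3)) j) *
    #((![{0, 1, 2}] : Fin 1 → Finset (Fin 3)) j) -
    #((![{0, 1, 2}] : Fin 1 → Finset (Fin 3)) j)) = 6 := by decide
  exact ⟨P, h1, h2, by omega⟩

lemma config4 : ∃ P : Finset ℂ, (∀ z ∈ P, ‖z‖ < 1) ∧ #P = 4 ∧ (ordinary P).ncard ≤ 3 := by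
  obtain ⟨P, h1, h2, h3⟩ := config (n := 4) (m := 3) one_pos ![-1, 0, 1, 0] ![1, 1, 1, 1 / 4]
    (fun i => by fin_cases i <;> simp) (fun i j => by fin_cases i <;> fin_cases j <;> norm_num)
    ![-1 / 2, 1 / 2, 1] ![1, 1, 0] ![5 / 4, 5 / 4, 1] (fun j => by fin_cases j <;> simp)
    (fun j l => by fin_cases j <;> fin_cases l <;> norm_num) ![{0, 1, 3}, {1, 2, 3}, {0, 1, 2}]
    (by decide) (fun j i => by fin_cases j <;> fin_cases i <;> simp <;> norm_num)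
  have : ∑ j : Fin 3, (#((![{0, 1, 3}, {1, 2, 3}, {0, 1, 2}] : Fin 3 → Finset (Fin 4)) j) *
    #((![{0, 1, 3}, {1, 2, 3}, {0, 1, 2}] : Fin 3 → Finset (Fin 4)) j) -
    #((![{0, 1, 3}, {1, 2, 3}, {0, 1, 2}] : Fin 3 → Finset (Fin 4)) j)) = 18 := by decide
  exact ⟨P, h1, h2, by omega⟩

/-- The rich horocycles of the five point configuration. -/
def S5 : Fin 6 → Finset (Fin 5) :=
  ![{0, 2, 4}, {1, 3, 4}, {0, 2, 3}, {1, 2, 3}, {0, 3, 4}, {1, 2, 4}]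

lemma config5 : ∃ P : Finset ℂ, (∀ z ∈ P, ‖z‖ < 1) ∧ #P = 5 ∧ (ordinary P).ncard ≤ 2 := by
  obtain ⟨r, r1, r2, hr⟩ : ∃ r : ℝ, 3 < r ∧ r < 13 / 4 ∧ r ^ 2 = 10 :=
    ⟨√10, Real.lt_sqrt_of_sq_lt (by norm_num), (Real.sqrt_lt' (by norm_num)).2 (by norm_num),
      Real.sq_sqrt (by norm_num)⟩
  obtain ⟨P, h1, h2, h3⟩ := config (n := 5) (m := 6) one_pos ![-2, 2, 0, 0, 0]
    ![1, 1, 2, 13 - 4 * r, 13 + 4 * r]
    (fun i => by fin_cases i <;> simp <;> linarith)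
    (fun i j => by fin_cases i <;> fin_cases j <;> norm_num <;> intro h <;> linarith)
    ![-r - 4, -3, r - 4, 4 - r, 3, r + 4] ![1, 1, 1, 1, 1, 1]
    ![15 + 4 * r, 26, 15 - 4 * r, 15 - 4 * r, 26, 15 + 4 * r]
    (fun j => by fin_cases j <;> simp <;> linarith)
    (fun j l h => by fin_cases j <;> fin_cases l <;> simp at h ⊢ <;> linarith) S5
    (by decide) (fun j i => by fin_cases j <;> fin_cases i <;> simp [S5] <;> nlinarith)
  have : ∑ j, (#(S5 j) * #(S5 j) - #(S5 j)) = 36 := by decide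
  exact ⟨P, h1, h2, by omega⟩

/-- The rich horocycles of the six point configuration. -/
def S6 : Fin 8 → Finset (Fin 6) :=
  ![{0, 4, 5}, {0, 1, 4}, {0, 2, 5}, {1, 2, 4}, {1, 3, 5}, {2, 3, 4}, {3, 4, 5}, {0, 1, 2, 3}]

lemma config6 : ∃ P : Finset ℂ, (∀ z ∈ P, ‖z‖ < 1) ∧ #P = 6 ∧ (ordinary P).ncard ≤ 3 := by
  obtain ⟨s, s0, hs⟩ : ∃ s : ℝ, 0 < s ∧ s ^ 3 + 6 * s ^ 2 + 6 * s - 7 = 0 := by
    obtain ⟨s, a, b⟩ := intermediate_value_Ioo (zero_le_one' ℝ)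
      (f := fun s => s ^ 3 + 6 * s ^ 2 + 6 * s - 7) (by fun_prop)
      (show (0 : ℝ) ∈ _ by constructor <;> norm_num)
    exact ⟨s, a.1, b⟩
  have s2 : 0 < s ^ 2 := by positivity
  obtain ⟨P, h1, h2, h3⟩ := config (n := 6) (m := 8) (e := s / 4) (by positivity)
    ![-(3 + s), -1, 1, 3 + s, 0, 0]
    ![1, 1, 1, 1, (4 * s ^ 2 + 24 * s + 31) / 7, 2 * s ^ 2 + 14 * s + 23]
    (fun i => by fin_cases i <;> simp <;> linarith)
    (fun i j => by fin_cases i <;> fin_cases j <;> norm_num <;> intro h <;> linarith)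
    ![-(4 + 3 * s + s ^ 2 / 2), -(2 + s / 2), -(1 + s / 2), 0, 1 + s / 2, 2 + s / 2,
      4 + 3 * s + s ^ 2 / 2, 1] ![1, 1, 1, 1, 1, 1, 1, 0]
    ![9 / 2 + 3 * s + s ^ 2 / 2, (1 + s / 2) ^ 2 + s / 4, (2 + s / 2) ^ 2 + s / 4, 1 + s / 4,
      (2 + s / 2) ^ 2 + s / 4, (1 + s / 2) ^ 2 + s / 4, 9 / 2 + 3 * s + s ^ 2 / 2, 1]
    (fun j => by fin_cases j <;> simp <;> positivity)
    (fun j l h => by fin_cases j <;> fin_cases l <;> simp at h ⊢ <;> linarith) S6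
    (by decide) (fun j i => by
      fin_cases j <;> fin_cases i <;> simp [S6] <;>
      first
        | ring1
        | linear_combination (1 / 2 + s / 4) * hs
        | linear_combination (55 / 98 + 89 * s / 196 + 4 * s ^ 2 / 49) * hs
        | linear_combination (25 / 2 + 29 * s / 4 + s ^ 2) * hs
        | linear_combination (3 / 49 + 17 * s / 49 + 4 * s ^ 2 / 49) * hs
        | linear_combination (13 + 15 * s / 2 + s ^ 2) * hs
        | linear_combination (31 / 49 + 24 * s / 49 + 4 * s ^ 2 / 49) * hs)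
  have : ∑ j, (#(S6 j) * #(S6 j) - #(S6 j)) = 54 := by decide
  exact ⟨P, h1, h2, by omega⟩

end Pool.Agent.Lib.MP_596974_co
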