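import Pool.Agent.Lib.MP_596974_co.Kelly

/-!
# A set with few ordinary horocycles
-/

namespace Pool.Agent.Lib.MP_596974_co

open Finset Classical

lemma exists_seq : ∃ e : ℤ → ℝ, StrictMono e ∧
    (∀ j, e j ^ 2 + e (j + 2) ^ 2 - 7 * e j * e (j + 2) = 45) ∧
    (∀ j, e j ^ 2 + e (1 - j) ^ 2 + 3 * e j * e (1 - j) = 5) ∧
    ∀ j, e j ^ 2 + e (-1 - j) ^ 2 + 3 * e j * e (-1 - j) = 5 := by
  obtain ⟨l, l1, l2⟩ : ∃ l : ℝ, 1 < l ∧ l ^ 2 = 3 * l - 1 := by
    have h := Real.sq_sqrt (show (0 : ℝ) ≤ 5 by norm_num)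
    exact ⟨(3 + √5) / 2, by linarith [Real.sqrt_nonneg 5], by linear_combination h / 4⟩
  have l0 : l ≠ 0 := by linarith
  have inv : l⁻¹ = 3 - l := by field_simp; linarith
  have z : ∀ j : ℤ, l ^ j * l ^ (-j) = 1 := fun j => by rw [← zpow_add₀ l0]; simp
  refine ⟨fun j => l ^ j - l ^ (-j), fun i j h => sub_lt_sub (zpow_lt_zpow_right₀ l1 h)
    (zpow_lt_zpow_right₀ l1 (neg_lt_neg h)), fun j => ?_, fun j => ?_, fun j => ?_⟩
  · have a : l ^ (j + 2) = l ^ j * (3 * l - 1) := by rw [zpow_add₀ l0, ← l2]; norm_cast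
    have b : l ^ (-(j + 2)) = l ^ (-j) * (8 - 3 * l) := by
      rw [neg_add, zpow_add₀ l0, zpow_neg l 2, ← inv_zpow, inv]
      congr 1
      norm_cast
      linear_combination l2
    simp only [a, b]
    linear_combination (9 * (l ^ j) ^ 2 + 9 * (l ^ (-j)) ^ 2 + 18 * (l ^ j * l ^ (-j))) * l2 +
      45 * z j
  · have a : l ^ (1 - j) = l ^ (-j) * l := by rw [sub_eq_neg_add, zpow_add₀ l0, zpow_one]
    have b : l ^ (-(1 - j)) = l ^ j * (3 - l) := by rw [neg_sub, zpow_sub_one₀ l0, inv]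
    simp only [a, b]
    linear_combination ((l ^ j) ^ 2 + (l ^ (-j)) ^ 2 + 2 * (l ^ j * l ^ (-j))) * l2 + 5 * z j
  · have a : l ^ (-1 - j) = l ^ (-j) * (3 - l) := by
      rw [show -1 - j = -j - 1 by ring, zpow_sub_one₀ l0, inv]
    have b : l ^ (-(-1 - j)) = l ^ j * l := by
      rw [show -(-1 - j) = j + 1 by ring, zpow_add_one₀ l0]
    simp only [a, b]
    linear_combination ((l ^ j) ^ 2 + (l ^ (-j)) ^ 2 + 2 * (l ^ j * l ^ (-j))) * l2 + 5 * z j

/-- The point of the upper half plane with abscissa `2 s / 5` and height one. -/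
noncomputable def fA (s : ℝ) : Fin 3 → ℝ := ![1, -(2 * s / 5), (2 * s / 5) ^ 2 + 1]

/-- The point at height `k` over the origin. -/
noncomputable def fB (k : ℝ) : Fin 3 → ℝ := ![k⁻¹, 0, k]

lemma pt_fA (s : ℝ) : Pt (fA s) := ⟨by simp [dt, fA], by simp [fA]⟩

lemma pt_fB {k : ℝ} (h : 0 < k) : Pt (fB k) := ⟨by simp [dt, fB, h.ne'], by simpa [fB] using h⟩

lemma mem_hor {x} (h : Pt x) (v : ℝ × ℝ) : pnt x ∈ hor v ↔ Qf x v = 1 := by
  simp [hor, h.norm_pnt, h.frm_pnt]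

lemma pnt_inj {x y} (hx : Pt x) (hy : Pt y) (h : pnt x = pnt y) : x = y := by
  rw [← hx.frm_pnt, h, hy.frm_pnt]

/-- The second horocycle through two points of height one. -/
noncomputable def sec (s t : ℝ) : Set ℂ :=
  hor (((s + t) / 5) / √(((t - s) / 5) ^ 2 + 1), 1 / √(((t - s) / 5) ^ 2 + 1))

lemma mem_sec {x} (h : Pt x) (s t : ℝ) :
    pnt x ∈ sec s t ↔ ev x ((s + t) / 5) = ((t - s) / 5) ^ 2 + 1 := by
  rw [sec, mem_hor h, Qf_scale _ _ (by positivity)]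

lemma fA_mem_sec (r s t : ℝ) : pnt (fA r) ∈ sec s t ↔ r = s ∨ r = t := by
  rw [mem_sec (pt_fA r), ← sub_eq_zero (a := r) (b := s), ← sub_eq_zero (a := r), ← mul_eq_zero]
  simp only [ev, fA, Matrix.cons_val_zero, Matrix.cons_val_one, Matrix.cons_val]
  constructor <;> intro h
  · linear_combination 25 / 4 * h
  · linear_combination 4 / 25 * h

theorem exists_few (N : ℕ) (hN : 3 ≤ N) : ∃ P : Finset ℂ, (∀ z ∈ P, ‖z‖ < 1) ∧ #P = N + 2 ∧
    2 * (ordinary P).ncard + 5 * N ≤ N ^ 2 + 22 := by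
  obtain ⟨e, he, e1, e2, e3⟩ := exists_seq
  obtain ⟨M, K, hMK, h1, h2⟩ : ∃ M K : ℕ, N = M + K + 1 ∧ M ≤ K ∧ K ≤ M + 1 :=
    ⟨(N - 1) / 2, N - 1 - (N - 1) / 2, by omega, by omega, by omega⟩
  let a : ℤ → ℂ := fun j => pnt (fA (e j))
  have ha : Function.Injective a := fun i j h => he.injective (by
    have := congrFun (pnt_inj (pt_fA _) (pt_fA _) h) 1
    simp only [fA, Matrix.cons_val_one, Matrix.cons_val_zero] at this
    linarith)
  have p1 : Pt (fB (9 / 5)) := pt_fB (by norm_num)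
  have p2 : Pt (fB (1 / 5)) := pt_fB (by norm_num)
  have n1 : ∀ j, pnt (fB (9 / 5)) ≠ a j := fun j h => by
    have := congrFun (pnt_inj p1 (pt_fA _) h) 0
    norm_num [fA, fB] at this
  have n2 : ∀ j, pnt (fB (1 / 5)) ≠ a j := fun j h => by
    have := congrFun (pnt_inj p2 (pt_fA _) h) 0
    norm_num [fA, fB] at this
  have n3 : pnt (fB (9 / 5)) ≠ pnt (fB (1 / 5)) := fun h => by
    have := congrFun (pnt_inj p1 p2 h) 0
    norm_num [fB] at this
  let J : Finset ℤ := Icc (-(M : ℤ)) K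
  have hJ : #(J.image a) = N := by
    rw [card_image_of_injective _ ha, Int.card_Icc]; omega
  let P := insert (pnt (fB (9 / 5))) (insert (pnt (fB (1 / 5))) (J.image a))
  have hP : #P = N + 2 := by
    have q1 : ∀ z, (∀ j, z ≠ a j) → z ∉ J.image a := fun z h hz => by
      obtain ⟨j, -, rfl⟩ := mem_image.1 hz
      exact h j rfl
    rw [card_insert_of_notMem fun h => (mem_insert.1 h).elim n3 (q1 _ n1),
      card_insert_of_notMem (q1 _ n2), hJ]
  have aP : ∀ j ∈ J, a j ∈ P := fun j hj =>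
    mem_insert_of_mem (mem_insert_of_mem (mem_image_of_mem _ hj))
  refine ⟨P, fun z hz => ?_, hP, ?_⟩
  · simp only [P, mem_insert, mem_image] at hz
    rcases hz with rfl | rfl | ⟨j, -, rfl⟩
    exacts [p1.norm_pnt, p2.norm_pnt, (pt_fA _).norm_pnt]
  let E : Finset (ℤ × ℤ) := (Icc (-(M : ℤ)) (K - 2)).image (fun j => (j, j + 2)) ∪
    ((Icc (1 : ℤ) K).image (fun j => (1 - j, j)) ∪ (Icc (0 : ℤ) (M - 1)).image fun j => (-1 - j, j))
  have hE : #E + 3 = 2 * N := by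
    rw [card_union_of_disjoint, card_union_of_disjoint, card_image_of_injective,
      card_image_of_injective, card_image_of_injective, Int.card_Icc, Int.card_Icc, Int.card_Icc]
    · omega
    · exact fun i j h => (Prod.ext_iff.1 h).2
    · exact fun i j h => (Prod.ext_iff.1 h).2
    · exact fun i j h => (Prod.ext_iff.1 h).1
    · simp only [disjoint_left, mem_image, Prod.forall, Prod.mk.injEq]
      rintro i j ⟨x, -, rfl, rfl⟩ ⟨y, -, b, c⟩
      omega
    · simp only [disjoint_left, mem_union, mem_image, Prod.forall, Prod.mk.injEq]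
      rintro i j ⟨x, -, rfl, rfl⟩ (⟨y, -, b, c⟩ | ⟨y, -, b, c⟩) <;> omega
  have hE' : ∀ p ∈ E, p.1 ∈ J ∧ p.2 ∈ J ∧ p.1 < p.2 ∧
      (pnt (fB (9 / 5)) ∈ sec (e p.1) (e p.2) ∨ pnt (fB (1 / 5)) ∈ sec (e p.1) (e p.2)) := by
    intro p hp
    simp only [E, mem_union, mem_image, mem_Icc] at hp
    rw [mem_sec p1, mem_sec p2]
    simp only [J, mem_Icc, ev, fB, Matrix.cons_val_zero, Matrix.cons_val_one, Matrix.cons_val]
    rcases hp with ⟨j, hj, rfl⟩ | ⟨j, hj, rfl⟩ | ⟨j, hj, rfl⟩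
    · exact ⟨by omega, by omega, by omega, Or.inl (by linear_combination (-4 / 225) * e1 j)⟩
    · exact ⟨by omega, by omega, by omega, Or.inr (by linear_combination (4 / 25) * e2 j)⟩
    · exact ⟨by omega, by omega, by omega, Or.inr (by linear_combination (4 / 25) * e3 j)⟩
  have ms : ∀ i (p : ℤ × ℤ), a i ∈ sec (e p.1) (e p.2) ↔ i = p.1 ∨ i = p.2 := fun i p => by
    simp only [a, fA_mem_sec, he.injective.eq_iff]
  let T := E.image fun p => sec (e p.1) (e p.2)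
  have hT : #T = #E := card_image_of_injOn fun p hp q hq h => by
    have b1 := (ms p.1 q).1 (by rw [← show sec (e p.1) (e p.2) = _ from h, ms]; simp)
    have b2 := (ms p.2 q).1 (by rw [← show sec (e p.1) (e p.2) = _ from h, ms]; simp)
    have b3 := (hE' p hp).2.2.1
    have b4 := (hE' q hq).2.2.1
    exact Prod.ext (by omega) (by omega)
  have kT : ∀ H ∈ T, IsHorocycle H ∧ 3 ≤ #{z ∈ P | z ∈ H} ∧ H ≠ hor (1, 0) := by
    intro H hH
    obtain ⟨p, hp, rfl⟩ := mem_image.1 hH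
    obtain ⟨b1, b2, b3, b4⟩ := hE' p hp
    have c1 := (ms p.1 p).2 (Or.inl rfl)
    have c2 := (ms p.2 p).2 (Or.inr rfl)
    refine ⟨hor_isHorocycle c1, ?_, fun h => ?_⟩
    · rcases b4 with b4 | b4
      · exact two_lt_card.2 ⟨_, mem_filter.2 ⟨aP _ b1, c1⟩, _, mem_filter.2 ⟨aP _ b2, c2⟩, _,
          mem_filter.2 ⟨mem_insert_self _ _, b4⟩, ha.ne b3.ne, (n1 _).symm, (n1 _).symm⟩
      · exact two_lt_card.2 ⟨_, mem_filter.2 ⟨aP _ b1, c1⟩, _, mem_filter.2 ⟨aP _ b2, c2⟩, _,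
          mem_filter.2 ⟨mem_insert_of_mem (mem_insert_self _ _), b4⟩, ha.ne b3.ne, (n2 _).symm,
          (n2 _).symm⟩
    · rw [h, mem_hor p1, mem_hor p2] at b4
      norm_num [Qf, fB] at b4
  have m0 : ∀ j, a j ∈ hor (1, 0) := fun j => (mem_hor (pt_fA _) _).2 (by simp [Qf, fA])
  have k0 : N ≤ #{z ∈ P | z ∈ hor (1, 0)} := by
    rw [← hJ]
    refine card_le_card fun z hz => ?_
    obtain ⟨j, hj, rfl⟩ := mem_image.1 hz
    exact mem_filter.2 ⟨aP j hj, m0 j⟩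
  let O := (ordinary_finite P).toFinset
  have kO : ∀ H ∈ O, IsHorocycle H ∧ #{z ∈ P | z ∈ H} = 2 := fun H hH => by
    have := (Set.Finite.mem_toFinset _).1 hH
    exact ⟨this.1, by rw [← ncard_inter]; exact this.2⟩
  have s := sum_pairs P (insert (hor (1, 0)) (O ∪ T)) fun H hH => by
    rcases mem_insert.1 hH with rfl | hH
    · exact hor_isHorocycle (m0 0)
    · exact (mem_union.1 hH).elim (fun h => (kO H h).1) fun h => (kT H h).1
  rw [sum_insert fun h => (mem_union.1 h).elim (fun h => by have := (kO _ h).2; omega)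
    fun h => (kT _ h).2.2 rfl, sum_union (disjoint_left.2 fun H b c => by
      have := (kO H b).2; have := (kT H c).2.1; omega), hP] at s
  have s1 : #O * 2 ≤ ∑ H ∈ O, (#{z ∈ P | z ∈ H} * #{z ∈ P | z ∈ H} - #{z ∈ P | z ∈ H}) :=
    card_nsmul_le_sum _ _ 2 fun H hH => by rw [(kO H hH).2]
  have s2 : #T * 6 ≤ ∑ H ∈ T, (#{z ∈ P | z ∈ H} * #{z ∈ P | z ∈ H} - #{z ∈ P | z ∈ H}) :=
    card_nsmul_le_sum _ _ 6 fun H hH => Nat.le_sub_of_add_le (by nlinarith [(kT H hH).2.1])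
  have s3 : N * N - N ≤ #{z ∈ P | z ∈ hor (1, 0)} * #{z ∈ P | z ∈ hor (1, 0)} -
      #{z ∈ P | z ∈ hor (1, 0)} := by
    rw [← Nat.mul_sub_one, ← Nat.mul_sub_one]
    exact Nat.mul_le_mul k0 (by omega)
  rw [Set.ncard_eq_toFinset_card _ (ordinary_finite P)]
  change 2 * #O + _ ≤ _
  have s4 : (N + 2) * (N + 2) = N * N + 4 * N + 4 := by ring
  have s5 : N ≤ N * N := Nat.le_mul_self N
  rw [sq]
  omega

end Pool.Agent.Lib.MP_596974_co
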