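import Mathlib

/-!
# Closed walks of four conic correspondences
-/

namespace Pool.Agent.Lib.MP_596974_co

open Polynomial

lemma assoc_of_sq {P Q E F : ℂ[X]} (hP : Squarefree P) (hQ : Squarefree Q)
    (h : E ^ 2 = P * Q * F ^ 2) (hF : F ≠ 0) : Associated P Q := by
  obtain ⟨G, rfl⟩ : F ∣ E :=
    (IsIntegrallyClosed.pow_dvd_pow_iff two_ne_zero).1 ⟨P * Q, by rw [h]; ring⟩
  have h2 : G ^ 2 = P * Q := mul_left_cancel₀ (pow_ne_zero 2 hF) (by linear_combination h)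
  obtain ⟨K, rfl⟩ : P ∣ G := (hP.dvd_pow_iff_dvd two_ne_zero).1 ⟨Q, h2⟩
  have h4 : Q = P * (K * K) := mul_left_cancel₀ hP.ne_zero (by linear_combination -h2)
  have : IsUnit K := hQ K ⟨P, by rw [h4]; ring⟩
  rw [h4]
  exact associated_mul_unit_right _ _ (this.mul this)

lemma norm_ne {P Q A0 A1 A2 : ℂ[X]} {c : ℂ} (hc : c ≠ 0) (hP : Squarefree P) (hQ : Squarefree Q)
    (h1 : ¬ IsUnit P) (h2 : ¬ IsUnit Q) (h3 : ¬ Associated P Q) :
    (A0 ^ 2 + C c ^ 2 * P * Q - A1 ^ 2 * P - A2 ^ 2 * Q) ^ 2 -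
      P * Q * (2 * (A0 * C c - A1 * A2)) ^ 2 ≠ 0 := fun h => by
  have f : 2 * (A0 * C c - A1 * A2) = 0 :=
    by_contra fun f => h3 (assoc_of_sq hP hQ (sub_eq_zero.1 h) f)
  rw [f, zero_pow two_ne_zero, mul_zero, sub_zero, pow_eq_zero_iff two_ne_zero] at h
  have f2 := (mul_eq_zero.1 f).resolve_left two_ne_zero
  have e : (A1 ^ 2 - Q * 1 * C c ^ 2) * (A2 ^ 2 - P * 1 * C c ^ 2) = 0 := by
    linear_combination C c ^ 2 * h - (A0 * C c + A1 * A2) * f2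
  rcases mul_eq_zero.1 e with e | e
  · exact h2 (associated_one_iff_isUnit.1
      (assoc_of_sq hQ squarefree_one (sub_eq_zero.1 e) (C_ne_zero.2 hc)))
  · exact h1 (associated_one_iff_isUnit.1
      (assoc_of_sq hP squarefree_one (sub_eq_zero.1 e) (C_ne_zero.2 hc)))

/-- A quadratic polynomial. -/
noncomputable def qd (a b c : ℂ) : ℂ[X] := C a * X ^ 2 + C b * X + C c

lemma qd_sep {a b c : ℂ} (h : b ^ 2 - 4 * a * c ≠ 0) : (qd a b c).Separable := by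
  have e : C (b ^ 2 - 4 * a * c)⁻¹ * C (b ^ 2 - 4 * a * c) = 1 := by
    rw [← C_mul, inv_mul_cancel₀ h, C_1]
  refine ⟨C (b ^ 2 - 4 * a * c)⁻¹ * (-4 * C a), C (b ^ 2 - 4 * a * c)⁻¹ * (2 * C a * X + C b), ?_⟩
  rw [← e]
  simp only [qd, derivative_add, derivative_mul, derivative_C, derivative_X_pow, derivative_X,
    map_sub, map_mul, map_pow, map_ofNat, map_natCast]
  push_cast
  ring

/-- The quartic attached to a conic and a class. -/
noncomputable def qt (a b c ω : ℂ) : ℂ[X] := qd a (b + ω) c * qd a (b - ω) c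

lemma qt_sqf {a b c ω : ℂ} (hc : c ≠ 0) (hω : ω ≠ 0) (h1 : (b + ω) ^ 2 - 4 * a * c ≠ 0)
    (h2 : (b - ω) ^ 2 - 4 * a * c ≠ 0) : Squarefree (qt a b c ω) := by
  have e : C (2 * ω * c)⁻¹ * C (2 * ω * c) = 1 := by
    rw [← C_mul, inv_mul_cancel₀ (by simp [hc, hω]), C_1]
  refine ((qd_sep h1).mul (qd_sep h2) ⟨C (2 * ω * c)⁻¹ * (2 * C ω - (C a * X + C b + C ω)),
    C (2 * ω * c)⁻¹ * (C a * X + C b + C ω), ?_⟩).squarefree
  rw [← e]
  simp only [qd, map_sub, map_add, map_mul, map_ofNat]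
  ring

lemma qt_eq (a b c ω : ℂ) : qt a b c ω = C (a ^ 2) * X ^ 4 + C (2 * a * b) * X ^ 3 +
    C (b ^ 2 - ω ^ 2 + 2 * a * c) * X ^ 2 + C (2 * b * c) * X + C (c ^ 2) := by
  simp only [qt, qd, map_sub, map_add, map_mul, map_pow, map_ofNat]
  ring

lemma qt_four (a b c ω : ℂ) : (qt a b c ω).coeff 4 = a ^ 2 := by
  simp [qt_eq, -map_pow, -map_mul, -map_add, -map_sub]

lemma qt_zero (a b c ω : ℂ) : (qt a b c ω).coeff 0 = c ^ 2 := by
  simp [qt_eq, -map_pow, -map_mul, -map_add, -map_sub]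

lemma qt_eval (a b c ω u : ℂ) :
    (qt a b c (ω * Complex.I)).eval u = (qd a b c).eval u ^ 2 + ω ^ 2 * u ^ 2 := by
  simp only [qt, qd, eval_add, eval_mul, eval_pow, eval_C, eval_X]
  linear_combination (-ω ^ 2 * u ^ 2) * Complex.I_mul_I

lemma qt_unit {a : ℂ} (ha : a ≠ 0) (b c ω : ℂ) : ¬ IsUnit (qt a b c ω) := fun h => by
  obtain ⟨r, -, e⟩ := isUnit_iff.1 h
  have := qt_four a b c ω
  rw [← e, coeff_C_of_ne_zero (by norm_num)] at this
  exact pow_ne_zero 2 ha this.symm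

lemma qt_assoc {a b c ω a' b' c' ω' : ℂ} (h : Associated (qt a b c ω) (qt a' b' c' ω')) :
    a ^ 2 * c' ^ 2 = a' ^ 2 * c ^ 2 := by
  obtain ⟨u, e⟩ := h
  obtain ⟨r, -, f⟩ := isUnit_iff.1 u.isUnit
  rw [← qt_four a' b' c' ω', ← qt_zero a' b' c' ω', ← e, ← f, coeff_mul_C, coeff_mul_C, qt_four,
    qt_zero]
  ring

lemma qd_deg (a b c : ℂ) : (qd a b c).natDegree ≤ 2 := natDegree_quadratic_le

lemma roots16 {P Q S T : ℂ[X]} {n1 n2 l : ℂ} (e : ℂ) (hc : -2 * l * n1 * n2 ≠ 0)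
    (hP : Squarefree P) (hQ : Squarefree Q) (h1 : ¬ IsUnit P) (h2 : ¬ IsUnit Q)
    (h3 : ¬ Associated P Q) (dP : P.natDegree ≤ 4) (dQ : Q.natDegree ≤ 4) (dS : S.natDegree ≤ 2)
    (dT : T.natDegree ≤ 2) : ∃ R : Finset ℂ, R.card ≤ 16 ∧ ∀ u x y : ℂ, x ^ 2 = P.eval u →
      y ^ 2 = Q.eval u → (n1 * x + S.eval u) ^ 2 + (n2 * y + T.eval u) ^ 2 -
        2 * l * (n1 * x + S.eval u) * (n2 * y + T.eval u) = e * u ^ 2 → u ∈ R := by
  obtain ⟨A0, a0⟩ : ∃ A, A = C (n1 ^ 2) * P + S ^ 2 + C (n2 ^ 2) * Q + T ^ 2 - C (2 * l) * S * T -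
    C e * X ^ 2 := ⟨_, rfl⟩
  obtain ⟨A1, a1⟩ : ∃ A, A = C (2 * n1) * (S - C l * T) := ⟨_, rfl⟩
  obtain ⟨A2, a2⟩ : ∃ A, A = C (2 * n2) * (T - C l * S) := ⟨_, rfl⟩
  have d0 : A0.natDegree ≤ 4 := by rw [a0]; compute_degree; all_goals omega
  have d1 : A1.natDegree ≤ 2 := by rw [a1]; compute_degree; all_goals omega
  have d2 : A2.natDegree ≤ 2 := by rw [a2]; compute_degree; all_goals omega
  have h := norm_ne (A0 := A0) (A1 := A1) (A2 := A2) hc hP hQ h1 h2 h3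
  refine ⟨_, (Multiset.toFinset_card_le _).trans ((card_roots' _).trans ?_), fun u x y hx hy k =>
    Multiset.mem_toFinset.2 ((mem_roots h).2 ?_)⟩
  · compute_degree
    all_goals omega
  · have k2 : A0.eval u + A1.eval u * x + A2.eval u * y + -2 * l * n1 * n2 * x * y = 0 := by
      simp only [a0, a1, a2, eval_add, eval_sub, eval_mul, eval_pow, eval_C, eval_X, ← hx, ← hy]
      linear_combination k
    simp only [IsRoot, eval_add, eval_sub, eval_mul, eval_pow, eval_C, eval_ofNat, ← hx, ← hy]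
    generalize A0.eval u = a, A1.eval u = b, A2.eval u = c, -2 * l * n1 * n2 = d at *
    linear_combination (a - b * x - c * y + d * x * y) * (a + b * x - c * y - d * x * y) *
      (a - b * x + c * y - d * x * y) * k2

/-- A branch of the correspondence cut out on a horocycle by a point off it. -/
structure Lt where
  c : ℝ
  l : ℝ
  n : ℝ
  w : ℝ
  h : n ^ 2 = l ^ 2 - 1
  hn : n ≠ 0
  hw : 0 < w

/-- The correspondence. -/
def Lt.G (p : Lt) (s t : ℝ) : Prop :=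
  (t - p.c - p.l * (s - p.c)) ^ 2 = p.n ^ 2 * ((s - p.c) ^ 2 + p.w ^ 2)

lemma Lt.G.symm {p : Lt} {s t : ℝ} (h : p.G s t) : p.G t s := by
  unfold Lt.G at *
  linear_combination h + ((s - p.c) ^ 2 - (t - p.c) ^ 2) * p.h

lemma Lt.hl (p : Lt) : p.l ≠ 0 := fun e => by
  have := p.h
  rw [e] at this
  nlinarith [sq_nonneg p.n]

lemma disc_ne {p q : Lt} (h : (p.c, p.w) ≠ (q.c, q.w)) {ε : ℝ} (hε : ε ^ 2 = 1) :
    ((2 * q.n * (q.c - p.c) : ℝ) + ε * ((2 * q.n * p.w : ℝ) * Complex.I) : ℂ) ^ 2 +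
      (4 * q.n ^ 2 * q.w ^ 2 : ℝ) ≠ 0 := fun e => by
  have e1 := congrArg Complex.re e
  have e2 := congrArg Complex.im e
  simp only [sq, Complex.add_re, Complex.mul_re, Complex.add_im, Complex.mul_im, Complex.ofReal_re,
    Complex.ofReal_im, Complex.I_re, Complex.I_im, Complex.zero_re, Complex.zero_im] at e1 e2
  have ε0 : ε ≠ 0 := fun k => by simp [k] at hε
  have k1 : q.c - p.c = 0 := mul_left_cancel₀ (mul_ne_zero (mul_ne_zero ε0 p.hw.ne')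
    (pow_ne_zero 2 q.hn)) (by linear_combination e2 / 8)
  rw [k1] at e1
  have k2 : p.w ^ 2 = q.w ^ 2 := mul_left_cancel₀ (pow_ne_zero 2 q.hn)
    (by linear_combination -e1 / 4 - q.n ^ 2 * p.w ^ 2 * hε)
  exact h (Prod.ext (by linarith) ((pow_left_inj₀ p.hw.le q.hw.le two_ne_zero).1 k2))

theorem walk {q p q' : Lt} (p' : Lt) (hq : (q'.c, q'.w) ≠ (q.c, q.w))
    (hp : (p.c, p.w) ≠ (q.c, q.w)) : ∃ S : Finset ℝ, S.card ≤ 16 ∧ ∀ a b b' z, q.G a b → p.G b z →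
      q'.G a b' → p'.G b' z → a ∈ S := by
  have hh : (q.n : ℂ) ^ 2 = q.l ^ 2 - 1 := by exact_mod_cast q.h
  have n0 : ∀ r : Lt, (r.n : ℂ) ≠ 0 := fun r => Complex.ofReal_ne_zero.2 r.hn
  have w0 : ∀ r : Lt, (r.w : ℂ) ≠ 0 := fun r => Complex.ofReal_ne_zero.2 r.hw.ne'
  have l0 : ∀ r : Lt, (r.l : ℂ) ≠ 0 := fun r => Complex.ofReal_ne_zero.2 r.hl
  have m1 : (q.l - q.n : ℂ) ≠ 0 := fun e => one_ne_zero (α := ℂ)
    (by linear_combination (q.l + q.n : ℂ) * e + hh)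
  have m2 : (q.l + q.n : ℂ) ≠ 0 := fun e => one_ne_zero (α := ℂ)
    (by linear_combination (q.l - q.n : ℂ) * e + hh)
  have sq : ∀ (r : Lt) (a c : ℂ), (r.c, r.w) ≠ (q.c, q.w) → c ≠ 0 → a * c = -(q.n ^ 2 * q.w ^ 2) →
      Squarefree (qt a (2 * q.n * (q.c - r.c)) c (2 * q.n * r.w * Complex.I)) :=
    fun r a c h c0 e => qt_sqf c0 (by simp [n0, w0])
      (fun k => disc_ne h (one_pow 2) (by push_cast; linear_combination k + 4 * e))
      fun k => disc_ne h (neg_one_sq) (by push_cast; linear_combination k + 4 * e)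
  have dg : ∀ a b c ω, (qt a b c ω).natDegree ≤ 4 := fun a b c ω =>
    natDegree_mul_le_of_le (qd_deg _ _ _) (qd_deg _ _ _)
  obtain ⟨R, h1, h2⟩ := roots16 (n1 := q'.n) (n2 := p.n) (l := p'.l)
    (S := C (q'.l : ℂ) * qd (-1) (2 * q.n * (q.c - q'.c)) (q.n ^ 2 * q.w ^ 2) +
      C (2 * q.n * (q'.c - p'.c) : ℂ) * X)
    (T := C (p.l : ℂ) * qd (-(q.l - q.n)) (2 * q.n * (q.c - p.c))
      ((q.l + q.n) * (q.n ^ 2 * q.w ^ 2)) + C (2 * q.n * (p.c - p'.c) : ℂ) * X)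
    ((2 * q.n * p'.n * p'.w) ^ 2) (by simp [n0, l0])
    (sq q' (-1) (q.n ^ 2 * q.w ^ 2) hq (by simp [n0, w0]) (by ring))
    (sq p (-(q.l - q.n)) ((q.l + q.n) * (q.n ^ 2 * q.w ^ 2)) hp (by simp [n0, w0, m2])
      (by linear_combination (q.n ^ 2 * q.w ^ 2 : ℂ) * hh))
    (qt_unit (by simp) _ _ _) (qt_unit (neg_ne_zero.2 m1) _ _ _)
    (fun h => (by simp [n0, w0, l0] : (4 * q.l * q.n * (q.n ^ 2 * q.w ^ 2) ^ 2 : ℂ) ≠ 0)
      (by linear_combination qt_assoc h)) (dg _ _ _ _) (dg _ _ _ _)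
    (by unfold qd; compute_degree) (by unfold qd; compute_degree)
  refine ⟨R.image fun u => q.c + (q.n ^ 2 * q.w ^ 2 / u.re - u.re) / (2 * q.n),
    Finset.card_image_le.trans h1, fun a b b' z g1 g2 g3 g4 => ?_⟩
  unfold Lt.G at g1 g2 g3 g4
  obtain ⟨u, hu⟩ : ∃ u, u = b - q.c - (q.l + q.n) * (a - q.c) := ⟨_, rfl⟩
  have e1 : 2 * q.n * u * (a - q.c) = q.n ^ 2 * q.w ^ 2 - u ^ 2 := by
    rw [hu]; linear_combination g1
  have e2 : 2 * q.n * u * (b - q.c) = (q.l + q.n) * (q.n ^ 2 * q.w ^ 2) - (q.l - q.n) * u ^ 2 := by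
    linear_combination (q.l + q.n) * e1 - 2 * q.n * u * hu
  have u0 : u ≠ 0 := fun e => by
    rw [e] at e1
    exact mul_ne_zero (pow_ne_zero 2 q.hn) (pow_ne_zero 2 q.hw.ne') (by linear_combination -e1)
  have g5 : (b' - p'.c) ^ 2 + (z - p'.c) ^ 2 - 2 * p'.l * (b' - p'.c) * (z - p'.c) =
      p'.n ^ 2 * p'.w ^ 2 := by linear_combination g4 + (b' - p'.c) ^ 2 * p'.h
  have k1 : (qd (-1) (2 * q.n * (q.c - q'.c)) (q.n ^ 2 * q.w ^ 2)).eval (u : ℂ) =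
      2 * q.n * u * (a - q'.c) := by
    have := congrArg Complex.ofReal e1
    simp only [qd, eval_add, eval_mul, eval_pow, eval_C, eval_X]
    push_cast at this
    linear_combination -this
  have k2 : (qd (-(q.l - q.n)) (2 * q.n * (q.c - p.c))
      ((q.l + q.n) * (q.n ^ 2 * q.w ^ 2))).eval (u : ℂ) = 2 * q.n * u * (b - p.c) := by
    have := congrArg Complex.ofReal e2
    simp only [qd, eval_add, eval_mul, eval_pow, eval_C, eval_X]
    push_cast at this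
    linear_combination -this
  replace g2 := congrArg Complex.ofReal g2
  replace g3 := congrArg Complex.ofReal g3
  replace g5 := congrArg Complex.ofReal g5
  push_cast at g2 g3 g5
  refine Finset.mem_image.2 ⟨u, h2 u (2 * q.n * u * (b' - q'.c - q'.l * (a - q'.c)) / q'.n)
    (2 * q.n * u * (z - p.c - p.l * (b - p.c)) / p.n) ?_ ?_ ?_, ?_⟩
  · rw [qt_eval, k1, div_pow, div_eq_iff (pow_ne_zero 2 (n0 _))]
    linear_combination (2 * q.n * u : ℂ) ^ 2 * g3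
  · rw [qt_eval, k2, div_pow, div_eq_iff (pow_ne_zero 2 (n0 _))]
    linear_combination (2 * q.n * u : ℂ) ^ 2 * g2
  · simp only [eval_add, eval_mul, eval_C, eval_X, k1, k2, mul_div_cancel₀ _ (n0 _)]
    linear_combination (2 * q.n * u : ℂ) ^ 2 * g5
  · have := q.hn
    rw [Complex.ofReal_re]
    field_simp
    linear_combination -e1

end Pool.Agent.Lib.MP_596974_co
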